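import Mathlib
import Pool.Graph.R_pool_sql_team_ae5b0c61.H39.NonBorel

/-!
# The indexing orders
-/

open Set
open Pool.Agent.H39.NonBorel

namespace Pool.Agent.H50.AXA

/-- sequences of integers, with the lexicographic order -/
structure Q where
  s : ℕ → ℤ

theorem Q.ext' {a b : Q} (h : ∀ n, a.s n = b.s n) : a = b := by
  cases a; cases b
  congr
  exact funext h

noncomputable instance : LinearOrder Q :=
  LinearOrder.lift' (fun q : Q => toLex q.s)
    (fun _ _ h => Q.ext' fun n => congrFun (toLex.injective h) n)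

theorem Q.lt_iff {a b : Q} : a < b ↔ ∃ n, (∀ j < n, a.s j = b.s j) ∧ a.s n < b.s n := Iff.rfl

/-- states -/
abbrev State : Type := List ℕ × ZMod 2 × ℕ

/-- transition -/
def step (σ : State) (c : ℤ) : State :=
  if c % 4 = 0 then (σ.1, σ.2.1 + ((c / 4 : ℤ) : ZMod 2), σ.2.2 + 1)
  else (σ.2.2 :: σ.1, ((c / 4 : ℤ) : ZMod 2), 0)

/-- the states along a sequence -/
def st (i : ZMod 2) (x : ℕ → ℤ) : ℕ → State
  | 0 => ([], i, 0)
  | n + 1 => step (st i x n) (x n)

theorem st_congr {i : ZMod 2} {x y : ℕ → ℤ} {n : ℕ} (h : ∀ j < n, x j = y j) :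
    st i x n = st i y n := by
  induction n with
  | zero => rfl
  | succ n ih =>
    show step (st i x n) (x n) = step (st i y n) (y n)
    rw [ih fun j hj => h j (by omega), h n (by omega)]

/-- the number of pieces of a block, without the optional one -/
def sz (l : ℕ) (c : ℤ) : ℤ := 4 * l + 2 + (if c % 4 = 3 then 2 else 0)

theorem sz_ge (l : ℕ) (c : ℤ) : 2 ≤ sz l c := by
  unfold sz
  split_ifs <;> omega

/-- pieces of blocks of level `l` -/
def isG (l : ℕ) (x : ℕ → ℤ) : Prop :=
  (∀ j < l, x j % 2 = 0) ∧ x l % 2 = 1 ∧ 0 ≤ x (l + 1) ∧ x (l + 1) ≤ sz l (x l) ∧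
    ∀ j, l + 1 < j → x j = 0

/-- limit intervals -/
def isL (i : ZMod 2) (x : ℕ → ℤ) : Prop :=
  (∀ j, x j % 2 = 0) ∧ ∃ N, ∀ j ≥ N, x j = 0 ∧ (st i x j).2.1 = 1

/-- the flag -/
def flag (i : ZMod 2) (T : List ℕ → Bool) (x : ℕ → ℤ) (l : ℕ) : Prop :=
  (st i x l).2.2 = 0 ∧ T (st i x l).1 = false ∧ (st i x l).2.1 = 1

/-- valid indices -/
def V (i : ZMod 2) (x : ℕ → ℤ) : Prop := (∃ l, isG l x) ∨ isL i x

/-- indices of the intervals where the function is positive -/
def on (i : ZMod 2) (T : List ℕ → Bool) (x : ℕ → ℤ) : Prop :=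
  ∃ l, isG l x ∧ (x (l + 1) < sz l (x l) ∨ flag i T x l)

theorem on.V {i : ZMod 2} {T : List ℕ → Bool} {x : ℕ → ℤ} (h : on i T x) : V i x := by
  obtain ⟨l, h, -⟩ := h
  exact Or.inl ⟨l, h⟩

theorem isG_unique {l l' : ℕ} {x : ℕ → ℤ} (h : isG l x) (h' : isG l' x) : l = l' := by
  rcases lt_trichotomy l l' with h1 | h1 | h1
  · have := h'.1 l h1
    have := h.2.1
    omega
  · exact h1
  · have := h.1 l' h1
    have := h'.2.1
    omega

theorem not_isG_isL {l : ℕ} {i : ZMod 2} {x : ℕ → ℤ} (h : isG l x) (h' : isL i x) : False := by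
  have h1 := h.2.1
  have h2 := h'.1 l
  omega

/-! ### The isomorphism attached to a branch -/

/-- states of the automaton -/
abbrev Act : Type := Option (ℕ × ℕ)

/-- transition of the automaton -/
def astep (y : ℕ → ℕ) (a : Act) (c : ℤ) : Act :=
  match a with
  | none => none
  | some (k, n) => if n = y k then (if c % 4 = 2 then some (k + 1, 0) else none)
      else (if c % 4 = 0 then some (k, n + 1) else none)

/-- run of the automaton -/
def ac (y : ℕ → ℕ) (x : ℕ → ℤ) : ℕ → Act
  | 0 => some (0, 0)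
  | n + 1 => astep y (ac y x n) (x n)

/-- the shift -/
def sh (y : ℕ → ℕ) (a : Act) : ℤ :=
  match a with
  | none => 0
  | some (k, n) => if n = y k then 4 else 0

theorem sh_cases (y : ℕ → ℕ) (a : Act) : sh y a = 0 ∨ sh y a = 4 := by
  unfold sh
  split
  · exact Or.inl rfl
  · split_ifs
    · exact Or.inr rfl
    · exact Or.inl rfl

theorem astep_mod (y : ℕ → ℕ) (a : Act) {c c' : ℤ} (h : c % 4 = c' % 4) :
    astep y a c = astep y a c' := by
  unfold astep
  rw [h]

theorem ac_congr {y : ℕ → ℕ} {x x' : ℕ → ℤ} {n : ℕ} (h : ∀ j < n, x j % 4 = x' j % 4) :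
    ac y x n = ac y x' n := by
  induction n with
  | zero => rfl
  | succ n ih =>
    show astep y (ac y x n) (x n) = astep y (ac y x' n) (x' n)
    rw [ih fun j hj => h j (by omega)]
    exact astep_mod y _ (h n (by omega))

/-- the isomorphism -/
def Fm (y : ℕ → ℕ) (x : ℕ → ℤ) (n : ℕ) : ℤ := x n + sh y (ac y x n)
/-- its inverse -/
def Fi (y : ℕ → ℕ) (x : ℕ → ℤ) (n : ℕ) : ℤ := x n - sh y (ac y x n)

theorem Fm_mod4 (y : ℕ → ℕ) (x : ℕ → ℤ) (n : ℕ) : Fm y x n % 4 = x n % 4 := by
  unfold Fm
  rcases sh_cases y (ac y x n) with h | h <;> rw [h] <;> omega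

theorem Fm_mod2 (y : ℕ → ℕ) (x : ℕ → ℤ) (n : ℕ) : Fm y x n % 2 = x n % 2 := by
  have := Fm_mod4 y x n
  omega

theorem Fi_mod4 (y : ℕ → ℕ) (x : ℕ → ℤ) (n : ℕ) : Fi y x n % 4 = x n % 4 := by
  unfold Fi
  rcases sh_cases y (ac y x n) with h | h <;> rw [h] <;> omega

theorem ac_Fm (y : ℕ → ℕ) (x : ℕ → ℤ) (n : ℕ) : ac y (Fm y x) n = ac y x n :=
  ac_congr fun j _ => Fm_mod4 y x j

theorem ac_Fi (y : ℕ → ℕ) (x : ℕ → ℤ) (n : ℕ) : ac y (Fi y x) n = ac y x n :=
  ac_congr fun j _ => Fi_mod4 y x j

theorem Fi_Fm (y : ℕ → ℕ) (x : ℕ → ℤ) : Fi y (Fm y x) = x := by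
  funext n
  unfold Fi
  rw [ac_Fm]
  unfold Fm
  ring

theorem Fm_Fi (y : ℕ → ℕ) (x : ℕ → ℤ) : Fm y (Fi y x) = x := by
  funext n
  unfold Fm
  rw [ac_Fi]
  unfold Fi
  ring

theorem Fm_lt {y : ℕ → ℕ} {a b : Q} (h : a < b) : (⟨Fm y a.s⟩ : Q) < ⟨Fm y b.s⟩ := by
  obtain ⟨n, h1, h2⟩ := Q.lt_iff.1 h
  have hc : ∀ m ≤ n, ac y a.s m = ac y b.s m := fun m hm =>
    ac_congr fun j hj => by rw [h1 j (by omega)]
  refine Q.lt_iff.2 ⟨n, fun j hj => ?_, ?_⟩
  · show a.s j + _ = b.s j + _
    rw [h1 j hj, hc j hj.le]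
  · show a.s n + _ < b.s n + _
    rw [hc n le_rfl]
    linarith

/-- the invariant of the automaton -/
theorem ac_inv (y : ℕ → ℕ) (i : ZMod 2) (x : ℕ → ℤ) (n : ℕ) (hx : ∀ j < n, x j % 2 = 0) :
    (ac y x n = none → st (i + 1) (Fm y x) n = st i x n) ∧
    (∀ k m, ac y x n = some (k, m) → m ≤ y k ∧
      st i x n = (res y k, (st i x n).2.1, m) ∧
      st (i + 1) (Fm y x) n = (res y k, (st i x n).2.1 + 1, m)) := by
  induction n with
  | zero =>
    constructor
    · intro h; exact absurd h (by simp [ac])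
    · intro k m h
      have h' : (0, 0) = (k, m) := Option.some.inj h
      obtain ⟨rfl, rfl⟩ := Prod.mk.inj h'
      exact ⟨Nat.zero_le _, rfl, rfl⟩
  | succ n ih =>
    obtain ⟨ih1, ih2⟩ := ih fun j hj => hx j (by omega)
    have hxn := hx n (by omega)
    have e0 : ∀ i x, st i x (n + 1) = step (st i x n) (x n) := fun _ _ => rfl
    have e1 : ac y x (n + 1) = astep y (ac y x n) (x n) := rfl
    have hc4 : x n % 4 = 0 ∨ x n % 4 = 2 := by omega
    cases hac : ac y x n with
    | none =>
      rw [hac] at e1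
      have e1' : ac y x (n + 1) = none := e1
      constructor
      · intro _
        rw [e0, e0, ih1 hac]
        congr 1
        show x n + sh y (ac y x n) = x n
        rw [hac]
        show x n + 0 = x n
        ring
      · intro k m h
        rw [e1'] at h
        exact absurd h (by simp)
    | some p =>
      obtain ⟨k, m⟩ := p
      obtain ⟨hm, h1, h2⟩ := ih2 k m hac
      rw [hac] at e1
      have e1' : ac y x (n + 1) = if m = y k then (if x n % 4 = 2 then some (k + 1, 0) else none)
        else (if x n % 4 = 0 then some (k, m + 1) else none) := e1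
      have eF : Fm y x n = x n + if m = y k then 4 else 0 := by
        show x n + sh y (ac y x n) = _
        rw [hac]
        rfl
      set q := (st i x n).2.1 with hq
      by_cases hmy : m = y k
      · rw [if_pos hmy] at e1' eF
        have hdiv : (Fm y x n) / 4 = x n / 4 + 1 := by rw [eF]; omega
        have hmod : (Fm y x n) % 4 = x n % 4 := Fm_mod4 y x n
        rcases hc4 with hc | hc
        · rw [if_neg (by omega)] at e1'
          constructor
          · intro _
            rw [e0, e0, h1, h2]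
            unfold step
            rw [hmod, if_pos hc, if_pos hc, hdiv]
            simp only
            push_cast
            congr 2
            rw [add_assoc, add_comm (1 : ZMod 2), add_assoc, show (1 : ZMod 2) + 1 = 0 from rfl,
              add_zero]
          · intro k' m' h
            rw [e1'] at h
            exact absurd h (by simp)
        · rw [if_pos hc] at e1'
          constructor
          · intro h
            rw [e1'] at h
            exact absurd h (by simp)
          · intro k' m' h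
            rw [e1'] at h
            have h' := Option.some.inj h
            obtain ⟨rfl, rfl⟩ := Prod.mk.inj h'
            refine ⟨Nat.zero_le _, ?_, ?_⟩
            · rw [e0, h1]
              unfold step
              rw [if_neg (by omega)]
              simp only [res_succ, hmy]
            · rw [e0, e0, h1, h2]
              unfold step
              rw [hmod, if_neg (by omega), if_neg (by omega), hdiv]
              simp only [res_succ, hmy]
              push_cast
              rfl
      · rw [if_neg hmy] at e1' eF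
        rw [add_zero] at eF
        rcases hc4 with hc | hc
        · rw [if_pos hc] at e1'
          constructor
          · intro h
            rw [e1'] at h
            exact absurd h (by simp)
          · intro k' m' h
            rw [e1'] at h
            have h' := Option.some.inj h
            obtain ⟨rfl, rfl⟩ := Prod.mk.inj h'
            refine ⟨by omega, ?_, ?_⟩
            · rw [e0, h1]
              unfold step
              rw [if_pos hc]
            · rw [e0, e0, h1, h2, eF]
              unfold step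
              rw [if_pos hc, if_pos hc]
              simp only
              congr 2
              ring
        · rw [if_neg (by omega)] at e1'
          constructor
          · intro _
            rw [e0, e0, h1, h2, eF]
            unfold step
            rw [if_neg (by omega), if_neg (by omega)]
          · intro k' m' h
            rw [e1'] at h
            exact absurd h (by simp)

theorem ac_none_succ {y : ℕ → ℕ} {x : ℕ → ℤ} {n : ℕ} (h : ac y x n = none) (k : ℕ) :
    ac y x (n + k) = none := by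
  induction k with
  | zero => exact h
  | succ k ih =>
    show astep y (ac y x (n + k)) (x (n + k)) = none
    rw [ih]
    rfl

/-- after an odd letter the automaton stops -/
theorem ac_odd {y : ℕ → ℕ} {x : ℕ → ℤ} {l : ℕ} (h : x l % 2 = 1) {j : ℕ} (hj : l < j) :
    ac y x j = none := by
  obtain ⟨k, rfl⟩ : ∃ k, j = (l + 1) + k := ⟨j - (l + 1), by omega⟩
  apply ac_none_succ
  show astep y (ac y x l) (x l) = none
  cases ac y x l with
  | none => rfl
  | some p =>
    obtain ⟨k, m⟩ := p
    show (if m = y k then (if x l % 4 = 2 then some (k + 1, 0) else none)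
        else (if x l % 4 = 0 then some (k, m + 1) else none)) = none
    rw [if_neg (show ¬ x l % 4 = 2 by omega), if_neg (show ¬ x l % 4 = 0 by omega)]
    split_ifs <;> rfl

/-- a sequence whose letters are eventually divisible by `4` stops the automaton -/
theorem ac_stop (y : ℕ → ℕ) (x : ℕ → ℤ) (hx : ∀ j, x j % 2 = 0) (N : ℕ)
    (hN : ∀ j ≥ N, x j % 4 = 0) : ∃ N', ∀ j ≥ N', ac y x j = none := by
  have key : ∀ d n k m, N ≤ n → ac y x n = some (k, m) → y k - m = d → ∃ n', ac y x n' = none := by
    intro d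
    induction d with
    | zero =>
      intro n k m hn h hd
      have hm := ((ac_inv y 0 x n fun j _ => hx j).2 k m h).1
      refine ⟨n + 1, ?_⟩
      show astep y (ac y x n) (x n) = none
      rw [h]
      show (if m = y k then (if x n % 4 = 2 then some (k + 1, 0) else none)
        else (if x n % 4 = 0 then some (k, m + 1) else none)) = none
      rw [if_pos (by omega), if_neg (by have := hN n hn; omega)]
    | succ d ih =>
      intro n k m hn h hd
      refine ih (n + 1) k (m + 1) (by omega) ?_ (by omega)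
      show astep y (ac y x n) (x n) = _
      rw [h]
      show (if m = y k then (if x n % 4 = 2 then some (k + 1, 0) else none)
        else (if x n % 4 = 0 then some (k, m + 1) else none)) = _
      rw [if_neg (by omega), if_pos (hN n hn)]
  have : ∃ n', ac y x n' = none := by
    cases h : ac y x N with
    | none => exact ⟨N, h⟩
    | some p => exact key _ N p.1 p.2 le_rfl h rfl
  obtain ⟨n', hn'⟩ := this
  refine ⟨n', fun j hj => ?_⟩
  obtain ⟨k, rfl⟩ := Nat.exists_eq_add_of_le hj
  exact ac_none_succ hn' k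

theorem Fm_after {y : ℕ → ℕ} {x : ℕ → ℤ} {l : ℕ} (h : x l % 2 = 1) {j : ℕ} (hj : l < j) :
    Fm y x j = x j := by
  show x j + sh y (ac y x j) = x j
  rw [ac_odd h hj]
  show x j + 0 = x j
  ring

theorem sz_mod (l : ℕ) {c c' : ℤ} (h : c % 4 = c' % 4) : sz l c = sz l c' := by
  unfold sz; rw [h]

theorem isG_Fm (y : ℕ → ℕ) (l : ℕ) (x : ℕ → ℤ) : isG l (Fm y x) ↔ isG l x := by
  have key : ∀ x, x l % 2 = 1 → (isG l (Fm y x) ↔ isG l x) := by
    intro x hx
    unfold isG
    rw [Fm_after hx (Nat.lt_succ_self l), sz_mod l (Fm_mod4 y x l)]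
    simp only [Fm_mod2]
    have : (∀ j, l + 1 < j → Fm y x j = 0) ↔ ∀ j, l + 1 < j → x j = 0 :=
      forall_congr' fun j => forall_congr' fun hj => by rw [Fm_after hx (by omega)]
    rw [this]
  constructor
  · intro h
    have h1 := h.2.1
    rw [Fm_mod2] at h1
    exact (key x h1).1 h
  · intro h
    exact (key x h.2.1).2 h

theorem isL_Fm (y : ℕ → ℕ) (i : ZMod 2) (x : ℕ → ℤ) : isL (i + 1) (Fm y x) ↔ isL i x := by
  constructor
  · rintro ⟨h1, N, hN⟩
    have hx : ∀ j, x j % 2 = 0 := fun j => by rw [← Fm_mod2 y]; exact h1 j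
    obtain ⟨N', hN'⟩ := ac_stop y x hx N fun j hj => by
      rw [← Fm_mod4 y, (hN j hj).1]; rfl
    refine ⟨hx, max N N', fun j hj => ?_⟩
    have h2 := hN' j (le_of_max_le_right hj)
    have h3 := hN j (le_of_max_le_left hj)
    have h4 := (ac_inv y i x j fun j _ => hx j).1 h2
    refine ⟨?_, by rw [← h4]; exact h3.2⟩
    have h5 : Fm y x j = x j := by
      show x j + sh y (ac y x j) = x j
      rw [h2]
      show x j + 0 = x j
      ring
    rw [← h5]; exact h3.1
  · rintro ⟨hx, N, hN⟩
    obtain ⟨N', hN'⟩ := ac_stop y x hx N fun j hj => by rw [(hN j hj).1]; rfl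
    refine ⟨fun j => by rw [Fm_mod2]; exact hx j, max N N', fun j hj => ?_⟩
    have h2 := hN' j (le_of_max_le_right hj)
    have h3 := hN j (le_of_max_le_left hj)
    have h4 := (ac_inv y i x j fun j _ => hx j).1 h2
    refine ⟨?_, by rw [h4]; exact h3.2⟩
    have h5 : Fm y x j = x j := by
      show x j + sh y (ac y x j) = x j
      rw [h2]
      show x j + 0 = x j
      ring
    rw [h5]; exact h3.1

theorem V_Fm (y : ℕ → ℕ) (i : ZMod 2) (x : ℕ → ℤ) : V (i + 1) (Fm y x) ↔ V i x := by
  unfold V
  simp only [isG_Fm, isL_Fm]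

theorem flag_Fm {y : ℕ → ℕ} {T : List ℕ → Bool} (hy : ∀ n, T (res y n) = true) (i : ZMod 2)
    {l : ℕ} {x : ℕ → ℤ} (hx : ∀ j < l, x j % 2 = 0) : flag (i + 1) T (Fm y x) l ↔ flag i T x l := by
  obtain ⟨h1, h2⟩ := ac_inv y i x l hx
  unfold flag
  cases h : ac y x l with
  | none => rw [h1 h]
  | some p =>
    obtain ⟨k, m⟩ := p
    obtain ⟨-, h3, h4⟩ := h2 k m h
    rw [h4, h3]
    simp only [hy k]
    simp

theorem on_Fm {y : ℕ → ℕ} {T : List ℕ → Bool} (hy : ∀ n, T (res y n) = true) (i : ZMod 2)
    (x : ℕ → ℤ) : on (i + 1) T (Fm y x) ↔ on i T x := by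
  unfold on
  refine exists_congr fun l => ?_
  rw [isG_Fm]
  refine and_congr_right fun h => ?_
  rw [Fm_after h.2.1 (Nat.lt_succ_self l), sz_mod l (Fm_mod4 y x l), flag_Fm hy i h.1]

/-- the type of the indices -/
abbrev PI (i : ZMod 2) : Type := {x : Q // V i x.s}

/-- the isomorphism of the orders of the indices -/
noncomputable def FO (y : ℕ → ℕ) (i : ZMod 2) : PI i ≃o PI (i + 1) :=
  StrictMono.orderIsoOfSurjective
    (fun x : PI i => (⟨⟨Fm y x.1.s⟩, (V_Fm y i x.1.s).2 x.2⟩ : PI (i + 1)))
    (fun _ _ h => Fm_lt h)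
    (fun z => ⟨⟨⟨Fi y z.1.s⟩, (V_Fm y i (Fi y z.1.s)).1 (by rw [Fm_Fi]; exact z.2)⟩, by
      apply Subtype.ext
      apply Q.ext'
      intro n
      show Fm y (Fi y z.1.s) n = z.1.s n
      rw [Fm_Fi]⟩)

theorem FO_apply (y : ℕ → ℕ) (i : ZMod 2) (x : PI i) : ((FO y i) x).1.s = Fm y x.1.s := rfl

end Pool.Agent.H50.AXA
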