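import Mathlib
import Pool.Agent.H50.AXA.Seq

/-!
# From an isomorphism of the zero patterns to a branch
-/

open Set
open Pool.Agent.H39.NonBorel

namespace Pool.Agent.H50.AXA

/-- the intervals where the function is positive -/
abbrev On (i : ZMod 2) (T : List ℕ → Bool) : Type := {x : Q // on i T x.s}

/-- an isomorphism of the patterns -/
structure Iso (i j : ZMod 2) (T : List ℕ → Bool) where
  φ : On i T ≃o On j T
  cut : ∀ z : Q, V i z.s → ¬ on i T z.s → ∃ z' : Q, V j z'.s ∧ ¬ on j T z'.s ∧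
    ∀ g : On i T, g.1 < z ↔ (φ g).1 < z'
  cut' : ∀ z' : Q, V j z'.s → ¬ on j T z'.s → ∃ z : Q, V i z.s ∧ ¬ on i T z.s ∧
    ∀ g : On j T, g.1 < z' ↔ (φ.symm g).1 < z

/-- the inverse isomorphism -/
noncomputable def Iso.symm {i j : ZMod 2} {T : List ℕ → Bool} (I : Iso i j T) : Iso j i T where
  φ := I.φ.symm
  cut := I.cut'
  cut' := fun z h1 h2 => by simpa using I.cut z h1 h2

/-- the piece `k` of the block with the letter `c` after `u` -/
def bk (n : ℕ) (u : ℕ → ℤ) (c k : ℤ) : ℕ → ℤ := fun j =>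
  if j < n then u j else if j = n then c else if j = n + 1 then k else 0

theorem bk_lt {n : ℕ} {u : ℕ → ℤ} {c k : ℤ} {j : ℕ} (h : j < n) : bk n u c k j = u j := by
  unfold bk; rw [if_pos h]

@[simp] theorem bk_n {n : ℕ} {u : ℕ → ℤ} {c k : ℤ} : bk n u c k n = c := by
  unfold bk; rw [if_neg (lt_irrefl _), if_pos rfl]

@[simp] theorem bk_n1 {n : ℕ} {u : ℕ → ℤ} {c k : ℤ} : bk n u c k (n + 1) = k := by
  unfold bk; rw [if_neg (by omega), if_neg (by omega), if_pos rfl]

theorem bk_gt {n : ℕ} {u : ℕ → ℤ} {c k : ℤ} {j : ℕ} (h : n + 1 < j) : bk n u c k j = 0 := by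
  unfold bk; rw [if_neg (by omega), if_neg (by omega), if_neg (by omega)]

theorem isG_bk {n : ℕ} {u : ℕ → ℤ} {c k : ℤ} (hu : ∀ j < n, u j % 2 = 0) (hc : c % 2 = 1)
    (h0 : 0 ≤ k) (h1 : k ≤ sz n c) : isG n (bk n u c k) := by
  refine ⟨fun j hj => ?_, ?_, ?_, ?_, fun j hj => bk_gt hj⟩
  · rw [bk_lt hj]; exact hu j hj
  · rw [bk_n]; exact hc
  · rw [bk_n1]; exact h0
  · rw [bk_n1, bk_n]; exact h1

theorem on_bk {i : ZMod 2} {T : List ℕ → Bool} {n : ℕ} {u : ℕ → ℤ} {c : ℤ}
    (hu : ∀ j < n, u j % 2 = 0) (hc : c % 2 = 1) : on i T (bk n u c 0) := by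
  have h2 := sz_ge n c
  refine ⟨n, isG_bk hu hc le_rfl (by omega), Or.inl ?_⟩
  rw [bk_n1, bk_n]
  omega

/-- the piece `0` of a block -/
def bo (i : ZMod 2) (T : List ℕ → Bool) (n : ℕ) (u : ℕ → ℤ) (c : ℤ)
    (hu : ∀ j < n, u j % 2 = 0) (hc : c % 2 = 1) : On i T := ⟨⟨bk n u c 0⟩, on_bk hu hc⟩

open Classical in
/-- number of the pieces of a block -/
noncomputable def pp (i : ZMod 2) (T : List ℕ → Bool) (l : ℕ) (x : ℕ → ℤ) : ℤ :=
  sz l (x l) + (if flag i T x l then 1 else 0)

theorem on_iff {i : ZMod 2} {T : List ℕ → Bool} {l : ℕ} {x : ℕ → ℤ} (h : isG l x) :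
    on i T x ↔ x (l + 1) < pp i T l x := by
  unfold on pp
  constructor
  · rintro ⟨l', h', h2⟩
    obtain rfl := isG_unique h h'
    have := h.2.2.2.1
    rcases h2 with h2 | h2
    · split_ifs <;> omega
    · rw [if_pos h2]; omega
  · intro h2
    refine ⟨l, h, ?_⟩
    by_cases hf : flag i T x l
    · exact Or.inr hf
    · rw [if_neg hf] at h2
      left; omega

theorem isG_of_ag {l : ℕ} {x y : ℕ → ℤ} (hx : isG l x) (hy : ∃ l', isG l' y)
    (ha : ∀ j ≤ l, y j = x j) : isG l y := by
  obtain ⟨l', h'⟩ := hy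
  have : l' = l := by
    rcases lt_trichotomy l l' with h1 | h1 | h1
    · have := h'.1 l h1
      have := hx.2.1
      rw [ha l le_rfl] at *
      omega
    · exact h1.symm
    · have := hx.1 l' h1
      have := h'.2.1
      rw [ha l' h1.le] at *
      omega
  rw [← this]; exact h'

theorem ag_between {a b z : Q} {n : ℕ} (h1 : a < z) (h2 : z ≤ b)
    (hab : ∀ j < n, a.s j = b.s j) : ∀ j < n, z.s j = a.s j := by
  rcases h2.eq_or_lt with h2 | h2
  · intro j hj
    rw [h2]; exact (hab j hj).symm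
  · obtain ⟨p, hp1, hp2⟩ := Q.lt_iff.1 h1
    obtain ⟨q, hq1, hq2⟩ := Q.lt_iff.1 h2
    have hpn : n ≤ p := by
      by_contra hcon
      push Not at hcon
      rcases lt_trichotomy q p with h | h | h
      · have e1 := hp1 q h
        have e2 := hab q (by omega)
        omega
      · subst h
        have e2 := hab q hcon
        omega
      · have e1 := hq1 p h
        have e2 := hab p hcon
        omega
    intro j hj
    exact (hp1 j (by omega)).symm

theorem lt_same {l : ℕ} {x y : Q} (hx : isG l x.s) (hy : isG l y.s)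
    (ha : ∀ j ≤ l, x.s j = y.s j) : x < y ↔ x.s (l + 1) < y.s (l + 1) := by
  rw [Q.lt_iff]
  constructor
  · rintro ⟨n, h1, h2⟩
    rcases lt_trichotomy n (l + 1) with h | h | h
    · have := ha n (by omega)
      omega
    · rw [← h]; exact h2
    · rw [hx.2.2.2.2 n h, hy.2.2.2.2 n h] at h2
      omega
  · intro h
    exact ⟨l + 1, fun j hj => ha j (by omega), h⟩

theorem cov_of {i : ZMod 2} {T : List ℕ → Bool} {g g' : On i T} {l : ℕ} (h : isG l g.1.s)
    (h' : isG l g'.1.s) (ha : ∀ j ≤ l, g.1.s j = g'.1.s j)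
    (hp : g'.1.s (l + 1) = g.1.s (l + 1) + 1) : g ⋖ g' := by
  constructor
  · show g.1 < g'.1
    exact (lt_same h h' ha).2 (by omega)
  · intro k hgk hkg'
    have h1 : g.1 < k.1 := hgk
    have h2 : k.1 < g'.1 := hkg'
    have hb := ag_between (n := l + 1) h1 h2.le (fun j hj => ha j (by omega))
    have hk : isG l k.1.s := by
      obtain ⟨l', hl', -⟩ := k.2
      exact isG_of_ag h ⟨l', hl'⟩ fun j hj => hb j (by omega)
    have e1 := (lt_same h hk fun j hj => (hb j (by omega)).symm).1 h1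
    have e2 := (lt_same hk h' fun j hj => by rw [hb j (by omega), ha j hj]).1 h2
    omega

theorem exists_of_cov {i : ZMod 2} {T : List ℕ → Bool} {g g' : On i T} (hc : g ⋖ g') :
    ∃ l, isG l g.1.s ∧ isG l g'.1.s ∧ (∀ j ≤ l, g.1.s j = g'.1.s j) ∧
      g'.1.s (l + 1) = g.1.s (l + 1) + 1 := by
  obtain ⟨l, hl, hl2⟩ := g.2
  obtain ⟨l', hl', hl2'⟩ := g'.2
  obtain ⟨n, hn1, hn2⟩ := Q.lt_iff.1 (show g.1 < g'.1 from hc.1)
  have no : ∀ k : On i T, g.1 < k.1 → k.1 < g'.1 → False := fun k h1 h2 => hc.2 h1 h2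
  -- an odd number above a given number
  have odd_gt : ∀ c : ℤ, ∃ d : ℤ, d % 2 = 1 ∧ c < d := fun c => ⟨2 * |c| + 1, by omega, by
    have := le_abs_self c; have := abs_nonneg c; omega⟩
  have odd_lt : ∀ c : ℤ, ∃ d : ℤ, d % 2 = 1 ∧ d < c := fun c => ⟨-(2 * |c| + 1), by omega, by
    have := neg_abs_le c; have := abs_nonneg c; omega⟩
  rcases lt_trichotomy n l with h | h | h
  · -- the letter of `g` is even
    exfalso
    obtain ⟨d, hd, hcd⟩ := odd_gt (g.1.s (n + 1))
    refine no (bo i T (n + 1) g.1.s d (fun j hj => hl.1 j (by omega)) hd) ?_ ?_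
    · refine Q.lt_iff.2 ⟨n + 1, fun j hj => ?_, ?_⟩
      · show _ = bk _ _ _ _ _
        rw [bk_lt hj]
      · show _ < bk _ _ _ _ _
        rw [bk_n]; exact hcd
    · refine Q.lt_iff.2 ⟨n, fun j hj => ?_, ?_⟩
      · show bk _ _ _ _ _ = _
        rw [bk_lt (by omega)]; exact hn1 j hj
      · show bk _ _ _ _ _ < _
        rw [bk_lt (by omega)]; exact hn2
  · subst h
    have hlo := hl.2.1
    rcases lt_trichotomy n l' with h' | h' | h'
    · exfalso
      obtain ⟨d, hd, hcd⟩ := odd_lt (g'.1.s (n + 1))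
      refine no (bo i T (n + 1) g'.1.s d (fun j hj => hl'.1 j (by omega)) hd) ?_ ?_
      · refine Q.lt_iff.2 ⟨n, fun j hj => ?_, ?_⟩
        · show _ = bk _ _ _ _ _
          rw [bk_lt (by omega)]; exact hn1 j hj
        · show _ < bk _ _ _ _ _
          rw [bk_lt (by omega)]; exact hn2
      · refine Q.lt_iff.2 ⟨n + 1, fun j hj => ?_, ?_⟩
        · show bk _ _ _ _ _ = _
          rw [bk_lt hj]
        · show bk _ _ _ _ _ < _
          rw [bk_n]; exact hcd
    · subst h'
      exfalso
      have hlo' := hl'.2.1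
      have hev : ∀ j < n + 1, (Function.update g.1.s n (g.1.s n + 1)) j % 2 = 0 := by
        intro j hj
        by_cases hjn : j = n
        · subst hjn
          rw [Function.update_self]; omega
        · rw [Function.update_of_ne hjn]; exact hl.1 j (by omega)
      refine no (bo i T (n + 1) (Function.update g.1.s n (g.1.s n + 1)) 1 hev (by norm_num)) ?_ ?_
      · refine Q.lt_iff.2 ⟨n, fun j hj => ?_, ?_⟩
        · show _ = bk _ _ _ _ _
          rw [bk_lt (by omega), Function.update_of_ne (by omega)]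
        · show _ < bk _ _ _ _ _
          rw [bk_lt (by omega), Function.update_self]; omega
      · refine Q.lt_iff.2 ⟨n, fun j hj => ?_, ?_⟩
        · show bk _ _ _ _ _ = _
          rw [bk_lt (by omega), Function.update_of_ne (by omega)]; exact hn1 j hj
        · show bk _ _ _ _ _ < _
          rw [bk_lt (by omega), Function.update_self]; omega
    · exfalso
      have e1 := hl.1 l' h'
      have e2 := hl'.2.1
      rw [← hn1 l' h'] at e2
      omega
  · have hl1 : isG l g'.1.s := isG_of_ag hl ⟨l', hl'⟩ fun j hj => (hn1 j (by omega)).symm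
    have ha : ∀ j ≤ l, g.1.s j = g'.1.s j := fun j hj => hn1 j (by omega)
    have hlt := (lt_same hl hl1 ha).1 hc.1
    refine ⟨l, hl, hl1, ha, ?_⟩
    by_contra hne
    have hmid : isG l (bk l g.1.s (g.1.s l) (g.1.s (l + 1) + 1)) := by
      refine isG_bk hl.1 hl.2.1 ?_ ?_
      · have := hl.2.2.1; omega
      · have h1 := hl1.2.2.2.1
        rw [← ha l le_rfl] at h1
        omega
    have hon : on i T (bk l g.1.s (g.1.s l) (g.1.s (l + 1) + 1)) := by
      refine ⟨l, hmid, Or.inl ?_⟩
      rw [bk_n1, bk_n]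
      have h1 := hl1.2.2.2.1
      rw [← ha l le_rfl] at h1
      omega
    refine no ⟨⟨bk l g.1.s (g.1.s l) (g.1.s (l + 1) + 1)⟩, hon⟩ ?_ ?_
    · refine (lt_same hl hmid fun j hj => ?_).2 ?_
      · show _ = bk _ _ _ _ _
        rcases hj.lt_or_eq with hj | rfl
        · rw [bk_lt hj]
        · rw [bk_n]
      · show _ < bk _ _ _ _ _
        rw [bk_n1]; omega
    · refine (lt_same hmid hl1 fun j hj => ?_).2 ?_
      · show bk _ _ _ _ _ = _
        rcases hj.lt_or_eq with hj | rfl
        · rw [bk_lt hj]; exact ha j hj.le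
        · rw [bk_n]; exact ha _ le_rfl
      · show bk _ _ _ _ _ < _
        rw [bk_n1]; omega

/-- chains of covers going down -/
def dn {α : Type*} [Preorder α] : ℕ → α → Prop
  | 0, _ => True
  | n + 1, g => ∃ h, h ⋖ g ∧ dn n h

/-- chains of covers going up -/
def up {α : Type*} [Preorder α] : ℕ → α → Prop
  | 0, _ => True
  | n + 1, g => ∃ h, g ⋖ h ∧ up n h

theorem dn_map {α β : Type*} [Preorder α] [Preorder β] (φ : α ≃o β) (n : ℕ) :
    ∀ g : α, dn n (φ g) ↔ dn n g := by
  induction n with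
  | zero => intro g; exact Iff.rfl
  | succ n ih =>
    intro g
    constructor
    · rintro ⟨h, h1, h2⟩
      refine ⟨φ.symm h, ?_, ?_⟩
      · rw [← apply_covBy_apply_iff φ, OrderIso.apply_symm_apply]; exact h1
      · rw [← ih, OrderIso.apply_symm_apply]; exact h2
    · rintro ⟨h, h1, h2⟩
      exact ⟨φ h, (apply_covBy_apply_iff φ).2 h1, (ih h).2 h2⟩

theorem up_map {α β : Type*} [Preorder α] [Preorder β] (φ : α ≃o β) (n : ℕ) :
    ∀ g : α, up n (φ g) ↔ up n g := by
  induction n with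
  | zero => intro g; exact Iff.rfl
  | succ n ih =>
    intro g
    constructor
    · rintro ⟨h, h1, h2⟩
      refine ⟨φ.symm h, ?_, ?_⟩
      · rw [← apply_covBy_apply_iff φ, OrderIso.apply_symm_apply]; exact h1
      · rw [← ih, OrderIso.apply_symm_apply]; exact h2
    · rintro ⟨h, h1, h2⟩
      exact ⟨φ h, (apply_covBy_apply_iff φ).2 h1, (ih h).2 h2⟩

/-- another piece of the same block -/
theorem isG_piece {l : ℕ} {x : ℕ → ℤ} (h : isG l x) {k : ℤ} (h0 : 0 ≤ k) (h1 : k ≤ sz l (x l)) :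
    isG l (bk l x (x l) k) := isG_bk h.1 h.2.1 h0 h1

theorem pp_congr {i : ZMod 2} {T : List ℕ → Bool} {l : ℕ} {x y : ℕ → ℤ}
    (h : ∀ j ≤ l, x j = y j) : pp i T l x = pp i T l y := by
  unfold pp flag
  rw [st_congr (i := i) (x := x) (y := y) fun j hj => h j hj.le, h l le_rfl]

theorem bk_ag {l : ℕ} {x : ℕ → ℤ} {k : ℤ} : ∀ j ≤ l, bk l x (x l) k j = x j := by
  intro j hj
  rcases hj.lt_or_eq with hj | rfl
  · rw [bk_lt hj]
  · rw [bk_n]

theorem on_piece {i : ZMod 2} {T : List ℕ → Bool} {l : ℕ} {x : ℕ → ℤ} (h : isG l x) {k : ℤ}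
    (h0 : 0 ≤ k) (h1 : k < pp i T l x) (h2 : k ≤ sz l (x l)) : on i T (bk l x (x l) k) := by
  rw [on_iff (isG_piece h h0 h2), bk_n1, pp_congr bk_ag]
  exact h1

theorem pp_le {i : ZMod 2} {T : List ℕ → Bool} {l : ℕ} {x : ℕ → ℤ} :
    pp i T l x ≤ sz l (x l) + 1 := by
  unfold pp; split_ifs <;> omega

theorem dn_iff {i : ZMod 2} {T : List ℕ → Bool} (n : ℕ) : ∀ (g : On i T) (l : ℕ),
    isG l g.1.s → (dn n g ↔ (n : ℤ) ≤ g.1.s (l + 1)) := by
  induction n with
  | zero =>
    intro g l h
    constructor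
    · intro _; exact_mod_cast h.2.2.1
    · intro _; trivial
  | succ n ih =>
    intro g l h
    constructor
    · rintro ⟨k, h1, h2⟩
      obtain ⟨l', e1, e2, e3, e4⟩ := exists_of_cov h1
      obtain rfl := isG_unique h e2
      have := (ih k l e1).1 h2
      push_cast; omega
    · intro hn
      push_cast at hn
      have hpos := h.2.2.2.1
      have hG := isG_piece h (k := g.1.s (l + 1) - 1) (by omega) (by omega)
      have hon : on i T (bk l g.1.s (g.1.s l) (g.1.s (l + 1) - 1)) := by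
        refine on_piece h (by omega) ?_ (by omega)
        have := (on_iff h).1 g.2
        omega
      refine ⟨⟨⟨_⟩, hon⟩, ?_, ?_⟩
      · exact cov_of hG h (fun j hj => bk_ag j hj) (by
          show _ = bk _ _ _ _ _ + 1
          rw [bk_n1]; ring)
      · refine (ih _ l hG).2 ?_
        show _ ≤ bk _ _ _ _ _
        rw [bk_n1]; omega

theorem up_iff {i : ZMod 2} {T : List ℕ → Bool} (n : ℕ) : ∀ (g : On i T) (l : ℕ),
    isG l g.1.s → (up n g ↔ g.1.s (l + 1) + n < pp i T l g.1.s) := by
  induction n with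
  | zero =>
    intro g l h
    constructor
    · intro _
      have := (on_iff h).1 g.2
      push_cast; omega
    · intro _; trivial
  | succ n ih =>
    intro g l h
    constructor
    · rintro ⟨k, h1, h2⟩
      obtain ⟨l', e1, e2, e3, e4⟩ := exists_of_cov h1
      obtain rfl := isG_unique h e1
      have h3 := (ih k l e2).1 h2
      rw [← pp_congr e3] at h3
      push_cast; omega
    · intro hn
      push_cast at hn
      have hpos := h.2.2.2.1
      have h0 := h.2.2.1
      have hle := pp_le (i := i) (T := T) (l := l) (x := g.1.s)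
      have hG := isG_piece h (k := g.1.s (l + 1) + 1) (by omega) (by omega)
      have hon : on i T (bk l g.1.s (g.1.s l) (g.1.s (l + 1) + 1)) :=
        on_piece h (by omega) (by omega) (by omega)
      refine ⟨⟨⟨_⟩, hon⟩, ?_, ?_⟩
      · exact cov_of h hG (fun j hj => (bk_ag j hj).symm) (by
          show bk _ _ _ _ _ = _
          rw [bk_n1])
      · refine (ih _ l hG).2 ?_
        show bk _ _ _ _ _ + _ < _
        rw [bk_n1]
        have : pp i T l (bk l g.1.s (g.1.s l) (g.1.s (l + 1) + 1)) = pp i T l g.1.s :=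
          pp_congr bk_ag
        show _ < pp i T l (bk l g.1.s (g.1.s l) (g.1.s (l + 1) + 1))
        omega

/-- the isomorphism preserves levels, pieces, classes and flags -/
theorem pres {i j : ZMod 2} {T : List ℕ → Bool} (φ : On i T ≃o On j T) (g : On i T) {l : ℕ}
    (h : isG l g.1.s) : isG l (φ g).1.s ∧ (φ g).1.s (l + 1) = g.1.s (l + 1) ∧
      (φ g).1.s l % 4 = g.1.s l % 4 ∧ (flag j T (φ g).1.s l ↔ flag i T g.1.s l) := by
  obtain ⟨l', h', -⟩ := (φ g).2
  have hdn : ∀ n : ℕ, (n : ℤ) ≤ g.1.s (l + 1) ↔ (n : ℤ) ≤ (φ g).1.s (l' + 1) := fun n => by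
    rw [← dn_iff n g l h, ← dn_iff n (φ g) l' h', dn_map]
  have hup : ∀ n : ℕ, g.1.s (l + 1) + n < pp i T l g.1.s ↔
      (φ g).1.s (l' + 1) + n < pp j T l' (φ g).1.s := fun n => by
    rw [← up_iff n g l h, ← up_iff n (φ g) l' h', up_map]
  have e1 : (φ g).1.s (l' + 1) = g.1.s (l + 1) := by
    have h0 := h.2.2.1
    have h0' := h'.2.2.1
    have a := hdn (g.1.s (l + 1)).toNat
    have b := hdn ((φ g).1.s (l' + 1)).toNat
    rw [Int.toNat_of_nonneg h0] at a
    rw [Int.toNat_of_nonneg h0'] at b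
    omega
  have e2 : pp j T l' (φ g).1.s = pp i T l g.1.s := by
    have g1 := (on_iff h).1 g.2
    have g2 := (on_iff h').1 (φ g).2
    have a := hup (pp i T l g.1.s - g.1.s (l + 1) - 1).toNat
    have b := hup (pp j T l' (φ g).1.s - (φ g).1.s (l' + 1) - 1).toNat
    rw [Int.toNat_of_nonneg (by omega)] at a b
    omega
  have o1 := h.2.1
  have o2 := h'.2.1
  have hp1 : pp i T l g.1.s = 4 * l + 2 + (if g.1.s l % 4 = 3 then 2 else 0) +
      (open Classical in if flag i T g.1.s l then 1 else 0) := rfl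
  have hp2 : pp j T l' (φ g).1.s = 4 * l' + 2 + (if (φ g).1.s l' % 4 = 3 then 2 else 0) +
      (open Classical in if flag j T (φ g).1.s l' then 1 else 0) := rfl
  rw [hp1, hp2] at e2
  have hll : l' = l := by
    split_ifs at e2 <;> omega
  subst hll
  refine ⟨h', e1, ?_, ?_⟩
  · split_ifs at e2 <;> omega
  · split_ifs at e2 with a1 a2 a3 a4 a5 a6 <;> first | omega | tauto

/-- pieces of the same block go to pieces of the same block -/
theorem same_block {i j : ZMod 2} {T : List ℕ → Bool} (φ : On i T ≃o On j T) {g g' : On i T}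
    {l : ℕ} (h : isG l g.1.s) (h' : isG l g'.1.s) (ha : ∀ m ≤ l, g.1.s m = g'.1.s m) :
    ∀ m ≤ l, (φ g).1.s m = (φ g').1.s m := by
  have key : ∀ (d : ℕ) (g g' : On i T), isG l g.1.s → isG l g'.1.s →
      (∀ m ≤ l, g.1.s m = g'.1.s m) → g'.1.s (l + 1) = g.1.s (l + 1) + d →
      ∀ m ≤ l, (φ g).1.s m = (φ g').1.s m := by
    intro d
    induction d with
    | zero =>
      intro g g' h h' ha hd
      have : g = g' := by
        apply Subtype.ext
        apply Q.ext'
        intro n
        rcases lt_trichotomy n (l + 1) with hn | hn | hn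
        · exact ha n (by omega)
        · subst hn; push_cast at hd; omega
        · rw [h.2.2.2.2 n hn, h'.2.2.2.2 n hn]
      rw [this]
      intro m _; rfl
    | succ d ih =>
      intro g g' h h' ha hd
      push_cast at hd
      have h0 := h.2.2.1
      have h0' := h'.2.2.1
      have h1' := h'.2.2.2.1
      have hG := isG_piece h' (k := g'.1.s (l + 1) - 1) (by omega) (by omega)
      have hon : on i T (bk l g'.1.s (g'.1.s l) (g'.1.s (l + 1) - 1)) := by
        refine on_piece h' (by omega) ?_ (by omega)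
        have := (on_iff h').1 g'.2
        omega
      have hcov : (⟨⟨_⟩, hon⟩ : On i T) ⋖ g' :=
        cov_of hG h' (fun j hj => bk_ag j hj) (by
          show _ = bk _ _ _ _ _ + 1
          rw [bk_n1]; ring)
      have e1 := ih g ⟨⟨_⟩, hon⟩ h hG (fun m hm => by
        rw [ha m hm]; exact (bk_ag m hm).symm) (by
          show bk _ _ _ _ _ = _
          rw [bk_n1]; omega)
      obtain ⟨l', f1, f2, f3, f4⟩ := exists_of_cov ((apply_covBy_apply_iff φ).2 hcov)
      obtain rfl := isG_unique (pres φ g' h').1 f2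
      intro m hm
      rw [e1 m hm, f3 m hm]
  rcases le_total (g.1.s (l + 1)) (g'.1.s (l + 1)) with hle | hle
  · exact key (g'.1.s (l + 1) - g.1.s (l + 1)).toNat g g' h h' ha (by
      rw [Int.toNat_of_nonneg (by omega)]; ring)
  · intro m hm
    exact (key (g.1.s (l + 1) - g'.1.s (l + 1)).toNat g' g h' h (fun m hm => (ha m hm).symm) (by
      rw [Int.toNat_of_nonneg (by omega)]; ring) m hm).symm

/-! ### Prefixes -/

/-- agreement with a prefix -/
def ag (n : ℕ) (u x : ℕ → ℤ) : Prop := ∀ j < n, x j = u j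

theorem le_of_ag {x y : Q} {n : ℕ} {u : ℕ → ℤ} (hx : ag n u x.s) (hy : ag n u y.s) (h : x < y) :
    x.s n ≤ y.s n := by
  obtain ⟨p, h1, h2⟩ := Q.lt_iff.1 h
  rcases lt_trichotomy p n with hp | hp | hp
  · rw [hx p hp, hy p hp] at h2
    exact absurd h2 (lt_irrefl _)
  · rw [← hp]; exact h2.le
  · exact (h1 n hp).le

theorem isG_of_odd {i : ZMod 2} {T : List ℕ → Bool} {n : ℕ} {u x : ℕ → ℤ}
    (hu : ∀ m < n, u m % 2 = 0) (hx : ag n u x) (ho : on i T x) (hodd : x n % 2 = 1) :
    isG n x := by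
  obtain ⟨l, hl, -⟩ := ho
  have : l = n := by
    rcases lt_trichotomy l n with h1 | h1 | h1
    · have e1 := hl.2.1
      rw [hx l h1] at e1
      have := hu l h1
      omega
    · exact h1
    · have := hl.1 n h1
      omega
  rw [← this]; exact hl

theorem isG_bo {i : ZMod 2} {T : List ℕ → Bool} {n : ℕ} {u : ℕ → ℤ} {c : ℤ}
    (hu : ∀ j < n, u j % 2 = 0) (hc : c % 2 = 1) : isG n (bo i T n u c hu hc).1.s := by
  have := sz_ge n c
  exact isG_bk hu hc le_rfl (by omega)

theorem ag_bo {i : ZMod 2} {T : List ℕ → Bool} {n : ℕ} {u : ℕ → ℤ} {c : ℤ}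
    (hu : ∀ j < n, u j % 2 = 0) (hc : c % 2 = 1) : ag n u (bo i T n u c hu hc).1.s :=
  fun j hj => bk_lt hj

theorem bo_n {i : ZMod 2} {T : List ℕ → Bool} {n : ℕ} {u : ℕ → ℤ} {c : ℤ}
    (hu : ∀ j < n, u j % 2 = 0) (hc : c % 2 = 1) : (bo i T n u c hu hc).1.s n = c := bk_n

theorem bo_n1 {i : ZMod 2} {T : List ℕ → Bool} {n : ℕ} {u : ℕ → ℤ} {c : ℤ}
    (hu : ∀ j < n, u j % 2 = 0) (hc : c % 2 = 1) : (bo i T n u c hu hc).1.s (n + 1) = 0 := bk_n1

theorem eq_of_isG {x y : Q} {l : ℕ} (hx : isG l x.s) (hy : isG l y.s)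
    (ha : ∀ j ≤ l + 1, x.s j = y.s j) : x = y := by
  apply Q.ext'
  intro n
  rcases le_or_gt n (l + 1) with hn | hn
  · exact ha n hn
  · rw [hx.2.2.2.2 n hn, hy.2.2.2.2 n hn]

theorem int_shift {f : ℤ → ℤ} (hf : StrictMono f) (hs : Function.Surjective f) (m : ℤ) :
    f m = f 0 + m := by
  have step : ∀ m, f (m + 1) = f m + 1 := by
    intro m
    obtain ⟨k, hk⟩ := hs (f m + 1)
    have h1 : m < k := by
      rw [← hf.lt_iff_lt]; omega
    have h2 : f m < f (m + 1) := hf (by omega)
    have h3 : k ≤ m + 1 := by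
      rw [← hf.le_iff_le]; omega
    have : k = m + 1 := by omega
    rw [← this, hk]
  induction m using Int.induction_on with
  | zero => simp
  | succ n ih => rw [step, ih]; ring
  | pred n ih =>
    have := step (-(n : ℤ) - 1)
    rw [show -(n : ℤ) - 1 + 1 = -(n : ℤ) by ring, ih] at this
    linarith

/-- the letter after a pair of corresponding prefixes is shifted -/
theorem shift {i j : ZMod 2} {T : List ℕ → Bool} (φ : On i T ≃o On j T) {n : ℕ} {w w' : ℕ → ℤ}
    (hw : ∀ m < n, w m % 2 = 0) (hw' : ∀ m < n, w' m % 2 = 0)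
    (P : ∀ g : On i T, ag n w g.1.s ↔ ag n w' (φ g).1.s) :
    ∃ s : ℤ, ∀ g : On i T, ag n w g.1.s → (φ g).1.s n = g.1.s n + 4 * s := by
  -- the elements
  have hodd : ∀ m : ℤ, (2 * m + 1) % 2 = 1 := fun m => by omega
  set b : ℤ → On i T := fun m => bo i T n w (2 * m + 1) hw (hodd m) with hb
  have hbG : ∀ m, isG n (b m).1.s := fun m => isG_bo hw (hodd m)
  have hbA : ∀ m, ag n w (b m).1.s := fun m => ag_bo hw (hodd m)
  have hbn : ∀ m, (b m).1.s n = 2 * m + 1 := fun m => bo_n hw (hodd m)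
  have hbn1 : ∀ m, (b m).1.s (n + 1) = 0 := fun m => bo_n1 hw (hodd m)
  have hG : ∀ m, isG n (φ (b m)).1.s := fun m => (pres φ (b m) (hbG m)).1
  have hA : ∀ m, ag n w' (φ (b m)).1.s := fun m => (P (b m)).1 (hbA m)
  have hn1 : ∀ m, (φ (b m)).1.s (n + 1) = 0 := fun m => by
    rw [(pres φ (b m) (hbG m)).2.1, hbn1]
  set f : ℤ → ℤ := fun m => (φ (b m)).1.s n / 2 with hfdef
  have hf : ∀ m, (φ (b m)).1.s n = 2 * f m + 1 := fun m => by
    have := (hG m).2.1
    simp only [hfdef]
    omega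
  have hmono : StrictMono f := by
    intro m m' hm
    have h1 : (b m).1 < (b m').1 := by
      refine Q.lt_iff.2 ⟨n, fun j hj => by rw [hbA m j hj, hbA m' j hj], ?_⟩
      rw [hbn, hbn]; omega
    have h2 : (φ (b m)).1 < (φ (b m')).1 := by
      have : φ (b m) < φ (b m') := φ.lt_iff_lt.2 h1
      exact this
    have h3 := le_of_ag (hA m) (hA m') h2
    rw [hf, hf] at h3
    rcases (show f m ≤ f m' by omega).lt_or_eq with h4 | h4
    · exact h4
    · exfalso
      have h5 := (lt_same (hG m) (hG m') fun j hj => by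
        rcases hj.lt_or_eq with hj | rfl
        · rw [hA m j hj, hA m' j hj]
        · rw [hf, hf, h4]).1 h2
      rw [hn1, hn1] at h5
      exact lt_irrefl _ h5
  have hsurj : Function.Surjective f := by
    intro k
    set y := bo j T n w' (2 * k + 1) hw' (hodd k) with hy
    have hyG : isG n y.1.s := isG_bo hw' (hodd k)
    have hyA : ag n w' y.1.s := ag_bo hw' (hodd k)
    have hyn : y.1.s n = 2 * k + 1 := bo_n hw' (hodd k)
    have hyn1 : y.1.s (n + 1) = 0 := bo_n1 hw' (hodd k)
    obtain ⟨p1, p2, -, -⟩ := pres φ.symm y hyG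
    have hgA : ag n w (φ.symm y).1.s := by
      rw [P, OrderIso.apply_symm_apply]; exact hyA
    have ho := p1.2.1
    obtain ⟨m, hm⟩ : ∃ m, (φ.symm y).1.s n = 2 * m + 1 := ⟨(φ.symm y).1.s n / 2, by omega⟩
    have heq : b m = φ.symm y := by
      apply Subtype.ext
      refine eq_of_isG (hbG m) p1 fun j hj => ?_
      rcases lt_trichotomy j n with hjn | hjn | hjn
      · rw [hbA m j hjn, hgA j hjn]
      · subst hjn; rw [hbn, hm]
      · have : j = n + 1 := by omega
        subst this
        rw [hbn1, p2, hyn1]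
    refine ⟨m, ?_⟩
    have h1 := hf m
    rw [heq, OrderIso.apply_symm_apply, hyn] at h1
    omega
  have hsh := int_shift hmono hsurj
  have hmod : f 0 % 2 = 0 := by
    have h1 := (pres φ (b 0) (hbG 0)).2.2.1
    rw [hf, hbn] at h1
    omega
  obtain ⟨s, hs⟩ : ∃ s, f 0 = 2 * s := ⟨f 0 / 2, by omega⟩
  have hfb : ∀ m, (φ (b m)).1.s n = 2 * m + 1 + 4 * s := fun m => by
    rw [hf, hsh m, hs]; ring
  refine ⟨s, fun g hg => ?_⟩
  rcases Int.emod_two_eq_zero_or_one (g.1.s n) with he | ho
  · -- even letter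
    obtain ⟨m, hm⟩ : ∃ m, g.1.s n = 2 * m := ⟨g.1.s n / 2, by omega⟩
    have h1 : b (m - 1) < g := by
      refine Q.lt_iff.2 ⟨n, fun j hj => by rw [hbA _ j hj, hg j hj], ?_⟩
      rw [hbn, hm]; omega
    have h2 : g < b m := by
      refine Q.lt_iff.2 ⟨n, fun j hj => by rw [hbA _ j hj, hg j hj], ?_⟩
      rw [hbn, hm]; omega
    have hgA := (P g).1 hg
    have e1 := le_of_ag (hA _) hgA (show (φ (b (m - 1))).1 < (φ g).1 from φ.lt_iff_lt.2 h1)
    have e2 := le_of_ag hgA (hA _) (show (φ g).1 < (φ (b m)).1 from φ.lt_iff_lt.2 h2)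
    rw [hfb] at e1 e2
    have e3 : (φ g).1.s n % 2 = 0 := by
      rcases Int.emod_two_eq_zero_or_one ((φ g).1.s n) with h | h
      · exact h
      · exfalso
        have h3 := isG_of_odd hw' hgA (φ g).2 h
        have h4 := (pres φ.symm (φ g) h3).1
        rw [OrderIso.symm_apply_apply] at h4
        have := h4.2.1
        omega
    omega
  · obtain ⟨m, hm⟩ : ∃ m, g.1.s n = 2 * m + 1 := ⟨g.1.s n / 2, by omega⟩
    have hgG := isG_of_odd hw hg g.2 ho
    have h1 := same_block φ hgG (hbG m) (fun j hj => by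
      rcases hj.lt_or_eq with hj | rfl
      · rw [hbA m j hj, hg j hj]
      · rw [hbn, hm]) n le_rfl
    rw [h1, hfb, hm]

theorem P_succ {i j : ZMod 2} {T : List ℕ → Bool} {φ : On i T ≃o On j T} {n : ℕ}
    {u u' : ℕ → ℤ} (P : ∀ g : On i T, ag n u g.1.s ↔ ag n u' (φ g).1.s) {s : ℤ}
    (hs : ∀ g : On i T, ag n u g.1.s → (φ g).1.s n = g.1.s n + 4 * s) {v v' : ℕ → ℤ}
    (hv : ∀ j < n, v j = u j) (hv' : ∀ j < n, v' j = u' j) (h : v' n = v n + 4 * s) :
    ∀ g : On i T, ag (n + 1) v g.1.s ↔ ag (n + 1) v' (φ g).1.s := by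
  intro g
  constructor
  · intro hg
    have h1 : ag n u g.1.s := fun j hj => by rw [hg j (by omega), hv j hj]
    have h2 := (P g).1 h1
    have h3 := hs g h1
    intro j hj
    rcases (show j ≤ n by omega).lt_or_eq with hj | rfl
    · rw [h2 j hj, hv' j hj]
    · rw [h3, hg j (by omega), h]
  · intro hg
    have h2 : ag n u' (φ g).1.s := fun j hj => by rw [hg j (by omega), hv' j hj]
    have h1 := (P g).2 h2
    have h3 := hs g h1
    intro j hj
    rcases (show j ≤ n by omega).lt_or_eq with hj | rfl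
    · rw [h1 j hj, hv j hj]
    · rw [hg j (by omega), h] at h3
      linarith

theorem cut_ag {i j : ZMod 2} {T : List ℕ → Bool} {φ : On i T ≃o On j T} {n : ℕ}
    {u u' : ℕ → ℤ} (hu : ∀ m < n, u m % 2 = 0)
    (P : ∀ g : On i T, ag n u g.1.s ↔ ag n u' (φ g).1.s) {z z' : Q}
    (hz : ag n u z.s) (hzn : z.s n % 2 = 0)
    (hc : ∀ g : On i T, g.1 < z ↔ (φ g).1 < z') : ag n u' z'.s := by
  have hm1 : (z.s n - 1) % 2 = 1 := by omega
  have hp1 : (z.s n + 1) % 2 = 1 := by omega
  set g1 := bo i T n u (z.s n - 1) hu hm1 with hg1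
  set g2 := bo i T n u (z.s n + 1) hu hp1 with hg2
  have a1 : ag n u g1.1.s := ag_bo hu hm1
  have a2 : ag n u g2.1.s := ag_bo hu hp1
  have n1 : g1.1.s n = z.s n - 1 := bo_n hu hm1
  have n2 : g2.1.s n = z.s n + 1 := bo_n hu hp1
  have l1 : g1.1 < z := Q.lt_iff.2 ⟨n, fun j hj => by rw [a1 j hj, hz j hj], by omega⟩
  have l2 : z < g2.1 := Q.lt_iff.2 ⟨n, fun j hj => by rw [a2 j hj, hz j hj], by omega⟩
  have k1 := (hc g1).1 l1
  have k2 : z' ≤ (φ g2).1 := by
    by_contra hcon
    push Not at hcon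
    exact absurd ((hc g2).2 hcon) (not_lt.2 l2.le)
  have b1 := (P g1).1 a1
  have b2 := (P g2).1 a2
  have hb := ag_between k1 k2 (n := n) fun j hj => by rw [b1 j hj, b2 j hj]
  intro j hj
  rw [hb j hj, b1 j hj]

/-- the property of the nodes -/
def RR (T : List ℕ → Bool) (t : List ℕ) : Prop :=
  ∃ (i j : ZMod 2) (I : Iso i j T) (n : ℕ) (w w' : ℕ → ℤ), (∀ m < n, w m % 2 = 0) ∧
    (∀ m < n, w' m % 2 = 0) ∧ st i w n = (t, 1, 0) ∧ st j w' n = (t, 0, 0) ∧
    ∀ g : On i T, ag n w g.1.s ↔ ag n w' (I.φ g).1.s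

theorem RR_true {T : List ℕ → Bool} {t : List ℕ} (h : RR T t) : T t = true := by
  obtain ⟨i, j, I, n, w, w', hw, hw', h1, h2, P⟩ := h
  set g := bo i T n w 1 hw (by norm_num) with hg
  have hG : isG n g.1.s := isG_bo hw _
  have hA : ag n w g.1.s := ag_bo hw _
  have hp := (pres I.φ g hG).2.2.2
  have hA' := (P g).1 hA
  have e1 : st i g.1.s n = (t, 1, 0) := by
    rw [← h1]; exact st_congr fun j hj => hA j hj
  have e2 : st j (I.φ g).1.s n = (t, 0, 0) := by
    rw [← h2]; exact st_congr fun j hj => hA' j hj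
  unfold flag at hp
  rw [e1, e2] at hp
  by_contra hT
  rw [Bool.not_eq_true] at hT
  have := hp.2 ⟨rfl, hT, rfl⟩
  exact absurd this.2.2 (show ¬ (0 : ZMod 2) = 1 by decide)

theorem RR_child {T : List ℕ → Bool} {t : List ℕ} (h : RR T t) : ∃ m, RR T (m :: t) := by
  obtain ⟨i, j, I, n, w, w', hw, hw', h1, h2, P⟩ := h
  by_contra hno
  push Not at hno
  set z : Q := ⟨fun m => if m < n then w m else 0⟩ with hz
  have hzw : ∀ m < n, z.s m = w m := fun m hm => if_pos hm
  have hz0 : ∀ m, n ≤ m → z.s m = 0 := fun m hm => if_neg (by omega)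
  have hze : ∀ m, z.s m % 2 = 0 := fun m => by
    rcases lt_or_ge m n with hm | hm
    · rw [hzw m hm]; exact hw m hm
    · rw [hz0 m hm]; rfl
  have hst : ∀ k, st i z.s (n + k) = (t, 1, k) := by
    intro k
    induction k with
    | zero => rw [← h1]; exact st_congr fun j hj => hzw j hj
    | succ k ih =>
      show step (st i z.s (n + k)) (z.s (n + k)) = _
      rw [ih, hz0 _ (by omega)]
      unfold step
      simp
  have hV : V i z.s := by
    refine Or.inr ⟨hze, n, fun m hm => ⟨hz0 m hm, ?_⟩⟩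
    obtain ⟨k, rfl⟩ := Nat.exists_eq_add_of_le hm
    rw [hst k]
  have hoff : ¬ on i T z.s := by
    rintro ⟨l, hl, -⟩
    have e1 := hl.2.1
    have e2 := hze l
    omega
  obtain ⟨z', hV', hoff', hcut⟩ := I.cut z hV hoff
  have key : ∀ k, (∀ m < n + k, z'.s m % 2 = 0) ∧
      (∀ g : On i T, ag (n + k) z.s g.1.s ↔ ag (n + k) z'.s (I.φ g).1.s) ∧
      st j z'.s (n + k) = (t, 0, k) := by
    intro k
    induction k with
    | zero =>
      have hag := cut_ag hw P (z := z) (z' := z') hzw (hze n) hcut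
      refine ⟨fun m hm => ?_, fun g => ?_, ?_⟩
      · rw [hag m hm]; exact hw' m hm
      · have e1 : ag (n + 0) z.s g.1.s ↔ ag n w g.1.s :=
          forall_congr' fun m => forall_congr' fun hm => by rw [hzw m hm]
        have e2 : ag (n + 0) z'.s (I.φ g).1.s ↔ ag n w' (I.φ g).1.s :=
          forall_congr' fun m => forall_congr' fun hm => by rw [hag m hm]
        rw [e1, e2]; exact P g
      · rw [← h2]; exact st_congr fun m hm => hag m hm
    | succ k ih =>
      obtain ⟨i1, i2, i3⟩ := ih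
      obtain ⟨s, hs⟩ := shift I.φ (fun m _ => hze m) i1 i2
      set N := n + k with hN
      have hzN : z.s N = 0 := hz0 N (by omega)
      have hP1 := P_succ i2 hs (v := z.s) (v' := Function.update z'.s N (4 * s))
        (fun _ _ => rfl) (fun m hm => Function.update_of_ne (by omega) _ _) (by
          rw [Function.update_self, hzN]; ring)
      have hag := cut_ag (fun m _ => hze m) hP1 (z := z) (z' := z') (fun _ _ => rfl)
        (hze _) hcut
      have hz'N : z'.s N = 4 * s := by
        rw [hag N (by omega), Function.update_self]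
      have hP2 := P_succ i2 hs (v := z.s) (v' := z'.s)
        (fun _ _ => rfl) (fun _ _ => rfl) (by rw [hz'N, hzN]; ring)
      have hcast : ((s : ℤ) : ZMod 2) = 0 ∨ ((s : ℤ) : ZMod 2) = 1 := by
        generalize ((s : ℤ) : ZMod 2) = a
        revert a; decide
      rcases hcast with hc | hc
      · refine ⟨fun m hm => ?_, hP2, ?_⟩
        · rcases (show m ≤ N by omega).lt_or_eq with hm | rfl
          · exact i1 m hm
          · rw [hz'N]; omega
        · show step (st j z'.s N) (z'.s N) = _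
          rw [i3, hz'N]
          unfold step
          rw [if_pos (by omega), show 4 * s / 4 = s by omega, hc]
          rfl
      · exfalso
        refine hno k ⟨j, i, I.symm, N + 1, Function.update z'.s N (2 + 4 * s),
          Function.update z.s N 2, fun m hm => ?_, fun m hm => ?_, ?_, ?_, fun g => ?_⟩
        · rcases (show m ≤ N by omega).lt_or_eq with hm | rfl
          · rw [Function.update_of_ne (by omega)]; exact i1 m hm
          · rw [Function.update_self]; omega
        · rcases (show m ≤ N by omega).lt_or_eq with hm | rfl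
          · rw [Function.update_of_ne (by omega)]; exact hze m
          · rw [Function.update_self]; rfl
        · show step (st j _ N) _ = _
          rw [st_congr (y := z'.s) fun m hm => Function.update_of_ne (by omega) _ _, i3,
            Function.update_self]
          unfold step
          rw [if_neg (by omega), show (2 + 4 * s) / 4 = s by omega, hc]
        · show step (st i _ N) _ = _
          rw [st_congr (y := z.s) fun m hm => Function.update_of_ne (by omega) _ _, hst,
            Function.update_self]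
          unfold step
          rw [if_neg (by norm_num)]
          simp
        · have hP3 := P_succ i2 hs (v := Function.update z.s N 2)
            (v' := Function.update z'.s N (2 + 4 * s))
            (fun m hm => Function.update_of_ne (by omega) _ _)
            (fun m hm => Function.update_of_ne (by omega) _ _) (by
              rw [Function.update_self, Function.update_self])
          have := hP3 (I.φ.symm g)
          rw [OrderIso.apply_symm_apply] at this
          exact this.symm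
  rcases hV' with ⟨l, hl⟩ | ⟨-, N, hN⟩
  · have e1 := hl.2.1
    have e2 := (key (l + 1)).1 l (by omega)
    omega
  · have e1 := (hN (n + N) (by omega)).2
    rw [(key N).2.2] at e1
    exact absurd e1 (show ¬ (0 : ZMod 2) = 1 by decide)

/-- an isomorphism of the patterns gives a branch -/
theorem mem_IF_of_iso {T : List ℕ → Bool} (I : Iso 0 1 T) : T ∈ IF := by
  have h0 : RR T [] := ⟨1, 0, I.symm, 0, fun _ => 0, fun _ => 0, fun _ _ => rfl, fun _ _ => rfl,
    rfl, rfl, fun g => ⟨fun _ m hm => absurd hm (Nat.not_lt_zero m),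
      fun _ m hm => absurd hm (Nat.not_lt_zero m)⟩⟩
  obtain ⟨y, hy⟩ := exists_branch (P := RR T) h0 fun t ht => RR_child ht
  exact ⟨y, fun n => RR_true (hy n)⟩

end Pool.Agent.H50.AXA
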