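import Mathlib
import Pool.Graph.R_seed8.H410R3.AX.Bwd3

/-!
# The skew products over the circle map `g`, with an arbitrary continuous function `δ`

Adaptation of `Pool.Graph.R_seed8.H410R3.AX` (`Lyap`, `Bwd1`, `Bwd2`) to an arbitrary function `δ`.
-/

open Set Filter Topology
open scoped Manifold ContDiff
open Pool.Agent.Helper114.AB
open Pool.Agent.H410R3.AX hiding th A thc Het Sq TT T0 del th_zero A_apply A_coe A_symm_apply
open Pool.Agent.H410R3.KS

namespace Pool.Agent.H50.AXA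

/-- The functions `δ` which are allowed. -/
structure DL where
  f : ℝ → ℝ
  cont : Continuous f
  per : ∀ X, f (X + 1) = f X
  nonneg : ∀ X, 0 ≤ f X
  le : ∀ X, f X ≤ 5 / 8
  half : ∀ X, 0 ≤ X → X ≤ 1 → (X ≤ 9 / 64 ∨ 15 / 64 ≤ X) → f X = 1 / 2
  pos : ∀ X, 0 ≤ X → X ≤ 1 → (X < 5 / 32 ∨ 3 / 16 < X) → 0 < f X
  zero : f (3 / 16) = 0

/-- the function `Θ = 1 / 2 - δ` -/
noncomputable def th (x : DL) (X : ℝ) : ℝ := 1 / 2 - x.f X

theorem th_cont (x : DL) : Continuous (th x) := continuous_const.sub x.cont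

theorem th_per (x : DL) : Function.Periodic (fun X => ((th x X : ℝ) : T1)) 1 := by
  intro X
  simp only [th, x.per]

/-- the function `Θ` on the circle -/
noncomputable def thc (x : DL) : T1 → T1 := (th_per x).lift

theorem thc_coe (x : DL) (X : ℝ) : thc x (X : T1) = ((th x X : ℝ) : T1) := rfl

theorem thc_continuous (x : DL) : Continuous (thc x) := by
  have h1 : Continuous (fun X => ((th x X : ℝ) : T1)) :=
    (AddCircle.continuous_mk' 1).comp (th_cont x)
  exact continuous_coinduced_dom.2 h1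

/-- the torus homeomorphisms -/
noncomputable def A (x : DL) : T2 ≃ₜ T2 where
  toFun z := (gc z.1, gc z.2 + thc x z.1)
  invFun z := (gc.symm z.1, gc.symm (z.2 - thc x (gc.symm z.1)))
  left_inv z := by simp
  right_inv z := by simp
  continuous_toFun := by
    have := thc_continuous x
    fun_prop
  continuous_invFun := by
    have := thc_continuous x
    fun_prop

theorem A_apply (x : DL) (z : T2) : A x z = (gc z.1, gc z.2 + thc x z.1) := rfl

theorem A_symm_apply (x : DL) (z : T2) :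
    (A x).symm z = (gc.symm z.1, gc.symm (z.2 - thc x (gc.symm z.1))) := rfl

theorem A_coe (x : DL) (s t : ℝ) :
    A x ((s : T1), (t : T1)) = (((G s : ℝ) : T1), ((G t + th x s : ℝ) : T1)) := by
  rw [A_apply]
  simp only [gc_coe, thc_coe, AddCircle.coe_add]

theorem th_zero (x : DL) {X : ℝ} (h0 : 0 ≤ X) (h1 : X ≤ 1) (h : X ≤ 9 / 64 ∨ 15 / 64 ≤ X) :
    th x X = 0 := by
  unfold th; rw [x.half X h0 h1 h, sub_self]

theorem thc_zero (x : DL) {X : T1} (h : X ∉ Win) : thc x X = 0 := by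
  obtain ⟨t, ht, rfl⟩ := AddCircle.eq_coe_Ico (p := 1) X
  rw [thc_coe, th_zero x ht.1 ht.2.le]
  · rfl
  · by_contra hc
    push Not at hc
    exact h ⟨t, hc, rfl⟩

theorem A_fix (x : DL) {z : T2} (hz : z ∈ Fx) : A x z = z := by
  obtain ⟨h1, h2⟩ := hz
  have h3 : gc z.1 = z.1 := by
    rcases h1 with h | h
    · rw [h, gc_zero]
    · rw [h, gc_half]
  have h4 : gc z.2 = z.2 := by
    rcases h2 with h | h
    · rw [h, gc_zero]
    · rw [h, gc_half]
  have h5 : thc x z.1 = 0 := by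
    apply thc_zero
    rcases h1 with h | h
    · rw [h]; exact zero_not_win
    · rw [h]; exact half_not_win
  rw [A_apply, h3, h4, h5, add_zero]

theorem LL_lt (x : DL) {z : T2} (hz : z ∉ Fx) : LL z < LL (A x z) := by
  rw [A_apply]
  unfold LL
  simp only
  by_cases hw : z.1 ∈ Win
  · have h1 := Lam_spec hw
    have h2 := c1_le_one z.2
    have h3 := neg_one_le_c1 (gc z.2 + thc x z.1)
    linarith
  · rw [thc_zero x hw, add_zero]
    have h1 := c1_le z.1
    have h2 := c1_le z.2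
    have hL := Lam_pos
    by_cases h3 : z.1 = 0 ∨ z.1 = hf
    · have h4 : z.2 ≠ 0 ∧ z.2 ≠ hf := by
        constructor
        · intro h; exact hz ⟨h3, Or.inl h⟩
        · intro h; exact hz ⟨h3, Or.inr h⟩
      have := c1_lt h4.1 h4.2
      nlinarith
    · push Not at h3
      have := c1_lt h3.1 h3.2
      nlinarith

theorem A_fix_iff (x : DL) (z : T2) : A x z = z ↔ z ∈ Fx := by
  constructor
  · intro h
    by_contra hz
    have := LL_lt x hz
    rw [h] at this
    exact lt_irrefl _ this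
  · exact A_fix x

theorem thc_zero_fx (x : DL) {a : T1} (h : a = 0 ∨ a = hf) : thc x a = 0 := by
  apply thc_zero
  rcases h with h | h
  · rw [h]; exact zero_not_win
  · rw [h]; exact half_not_win

theorem A_iter_fx (x : DL) {a : T1} (h : a = 0 ∨ a = hf) (b : T1) (n : ℕ) :
    (A x)^[n] (a, b) = (a, gc^[n] b) := by
  induction n generalizing b with
  | zero => rfl
  | succ n ih =>
    rw [Function.iterate_succ_apply, A_apply, thc_zero_fx x h, gc_fx h, add_zero, ih,
      Function.iterate_succ_apply]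

theorem As_iter_fx (x : DL) {a : T1} (h : a = 0 ∨ a = hf) (b : T1) (n : ℕ) :
    (A x).symm^[n] (a, b) = (a, gc.symm^[n] b) := by
  induction n generalizing b with
  | zero => rfl
  | succ n ih =>
    rw [Function.iterate_succ_apply, A_symm_apply]
    simp only
    rw [gcs_fx h, thc_zero_fx x h, sub_zero, ih, Function.iterate_succ_apply]

/-- heteroclinic connections -/
def Het (x : DL) (a b : T2) : Prop :=
  ∃ z : T2, z ∉ Fx ∧ Tendsto (fun n => (A x).symm^[n] z) atTop (𝓝 a) ∧
    Tendsto (fun n => (A x)^[n] z) atTop (𝓝 b)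

theorem LL_le (x : DL) (z : T2) : LL z ≤ LL (A x z) := by
  by_cases hz : z ∈ Fx
  · rw [A_fix x hz]
  · exact (LL_lt x hz).le

theorem LL_iter (x : DL) (n : ℕ) (z : T2) : LL z ≤ LL ((A x)^[n] z) := by
  induction n generalizing z with
  | zero => exact le_rfl
  | succ n ih =>
    rw [Function.iterate_succ_apply]
    exact (LL_le x z).trans (ih _)

theorem A_As_iter (x : DL) (n : ℕ) (z : T2) : (A x)^[n] ((A x).symm^[n] z) = z :=
  Function.LeftInverse.iterate (A x).apply_symm_apply n z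

theorem As_A_iter (x : DL) (n : ℕ) (z : T2) : (A x).symm^[n] ((A x)^[n] z) = z :=
  Function.LeftInverse.iterate (A x).symm_apply_apply n z

theorem Het.lt {x : DL} {a b : T2} (h : Het x a b) : LL a < LL b := by
  obtain ⟨z, hz, ha, hb⟩ := h
  have h1 : LL a ≤ LL z := by
    refine le_of_tendsto ((LL_continuous.tendsto a).comp ha) (Eventually.of_forall fun n => ?_)
    have := LL_iter x n ((A x).symm^[n] z)
    rwa [A_As_iter] at this
  have h2 : LL (A x z) ≤ LL b := by
    refine ge_of_tendsto ((LL_continuous.tendsto b).comp (hb.comp (tendsto_add_atTop_nat 1)))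
      (Eventually.of_forall fun n => ?_)
    have := LL_iter x n (A x z)
    rw [← Function.iterate_succ_apply] at this
    exact this
  exact h1.trans_lt ((LL_lt x hz).trans_le h2)

theorem het_fib (x : DL) {a : T1} (h : a = 0 ∨ a = hf) : Het x (a, hf) (a, 0) := by
  have hq := coe_ne (t := 1 / 4) (by norm_num) (by norm_num)
  refine ⟨(a, ((1 / 4 : ℝ) : T1)), ?_, ?_, ?_⟩
  · rintro ⟨-, h2 | h2⟩
    · exact hq.1 h2
    · exact hq.2 h2
  · simp only [As_iter_fx x h, gcs_iter_coe]
    exact tendsto_const_nhds.prodMk_nhds (tends_coe_Gs (by norm_num) (by norm_num))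
  · simp only [A_iter_fx x h, gc_iter_coe]
    exact tendsto_const_nhds.prodMk_nhds (tends_coe_G (by norm_num) (by norm_num))

/-- backward step on the unstable manifold of `p` -/
theorem As_step (x : DL) {W : ℝ} (h0 : 1 / 8 ≤ W) (h1 : W ≤ 7 / 8) (Z : ℝ) :
    (A x).symm ((W : T1), (Z : T1)) = (((Gs W : ℝ) : T1), ((Gs Z : ℝ) : T1)) := by
  have hg : 1 / 4 ≤ Gs W ∧ Gs W ≤ 1 := by
    constructor
    · rw [← Gs_eighth]; exact Gs_strictMono.monotone h0
    · have := Gs_strictMono.monotone (show W ≤ 0 + 1 by linarith)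
      rw [Gs_add_one, show Gs 0 = 0 from Gs_zero] at this
      linarith
  have ht : th x (Gs W) = 0 := th_zero x (by linarith [hg.1]) hg.2 (Or.inr (by linarith [hg.1]))
  rw [A_symm_apply]
  simp only
  rw [gc_symm_coe, show (GH.symm W : ℝ) = Gs W from rfl, thc_coe, ht]
  rw [show ((0:ℝ) : T1) = 0 from rfl, sub_zero, gc_symm_coe]
  rfl

/-- forward step -/
theorem A_step (x : DL) {W : ℝ} (h0 : 0 ≤ W) (h1 : W ≤ 1) (h : W ≤ 9 / 64 ∨ 15 / 64 ≤ W)
    (Z : ℝ) : A x ((W : T1), (Z : T1)) = (((G W : ℝ) : T1), ((G Z : ℝ) : T1)) := by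
  rw [A_coe, th_zero x h0 h1 h, add_zero]

theorem A_back (x : DL) {W : ℝ} (h0 : 1 / 8 ≤ W) (h1 : W ≤ 1 / 2) (n : ℕ) :
    (A x)^[n] (((Gs^[n] W : ℝ) : T1), 0) = ((W : T1), 0) := by
  induction n with
  | zero => rfl
  | succ n ih =>
    have h2 := Gs_iter_mem (by linarith) h1 n
    have h3 := As_step x (h0.trans h2.1) (by linarith [h2.2]) 0
    rw [show Gs 0 = 0 from Gs_zero, ← Function.iterate_succ_apply' Gs,
      Homeomorph.symm_apply_eq] at h3
    rw [Function.iterate_succ_apply]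
    have h4 : A x (((Gs^[n + 1] W : ℝ) : T1), (0 : T1)) = (((Gs^[n] W : ℝ) : T1), (0 : T1)) := h3.symm
    rw [h4, ih]

theorem As_iter' (x : DL) {W : ℝ} (h0 : 1 / 8 ≤ W) (h1 : W ≤ 1 / 2) (n : ℕ) :
    (A x).symm^[n] ((W : T1), 0) = (((Gs^[n] W : ℝ) : T1), 0) := by
  rw [← A_back x h0 h1 n, As_A_iter]

theorem A_small (x : DL) {W : ℝ} (h0 : 0 ≤ W) (h1 : W ≤ 1 / 8) (Z : ℝ) (n : ℕ) :
    (A x)^[n] ((W : T1), (Z : T1)) = (((G^[n] W : ℝ) : T1), ((G^[n] Z : ℝ) : T1)) := by
  induction n generalizing W Z with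
  | zero => rfl
  | succ n ih =>
    have h2 := G_mem h0 (by linarith)
    rw [Function.iterate_succ_apply, A_step x h0 (by linarith) (Or.inl (by linarith)),
      ih h2.1 (h2.2.trans h1), Function.iterate_succ_apply, Function.iterate_succ_apply]

theorem A_thru (x : DL) {W : ℝ} (h0 : 1 / 8 ≤ W) (h1 : W ≤ 1 / 4) (n : ℕ) :
    (A x)^[n + 1] ((W : T1), 0) = (((G^[n + 1] W : ℝ) : T1), ((G^[n] (th x W) : ℝ) : T1)) := by
  have h2 : 0 ≤ G W := G_nonneg (by linarith)
  have h3 : G W ≤ 1 / 8 := by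
    rw [← G_quarter]; exact G_strictMono.monotone h1
  rw [Function.iterate_succ_apply, show ((W : T1), (0 : T1)) = ((W : T1), ((0 : ℝ) : T1)) from rfl,
    A_coe, G_zero, zero_add, A_small x h2 h3, Function.iterate_succ_apply]

theorem het_pq (x : DL) : Het x pp pq := by
  have hq := coe_ne (t := 3 / 16) (by norm_num) (by norm_num)
  have hth : th x (3 / 16) = 1 / 2 := by
    unfold th
    rw [x.zero, sub_zero]
  refine ⟨(((3 / 16 : ℝ) : T1), 0), ?_, ?_, ?_⟩
  · rintro ⟨h1 | h1, -⟩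
    · exact hq.1 h1
    · exact hq.2 h1
  · simp only [As_iter' x (show (1:ℝ) / 8 ≤ 3 / 16 by norm_num) (by norm_num)]
    exact (tends_coe_Gs (by norm_num) (by norm_num)).prodMk_nhds tendsto_const_nhds
  · rw [← tendsto_add_atTop_iff_nat 1]
    simp only [A_thru x (show (1:ℝ) / 8 ≤ 3 / 16 by norm_num) (by norm_num), hth, G_iter_half]
    have := (tendsto_add_atTop_iff_nat 1).2
      (tends_coe_G (t := 3 / 16) (by norm_num) (by norm_num))
    exact this.prodMk_nhds tendsto_const_nhds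

section

variable {x y : DL} {H : T2 ≃ₜ T2} (hH : ∀ q, H (A x q) = A y (H q))

include hH

theorem H_symm (q : T2) : H.symm (A y q) = A x (H.symm q) := by
  rw [Homeomorph.symm_apply_eq, hH, H.apply_symm_apply]

theorem H_As (q : T2) : H ((A x).symm q) = (A y).symm (H q) := by
  rw [Homeomorph.eq_symm_apply, ← hH, (A x).apply_symm_apply]

theorem H_iter (n : ℕ) (q : T2) : H ((A x)^[n] q) = (A y)^[n] (H q) := by
  induction n generalizing q with
  | zero => rfl
  | succ n ih => rw [Function.iterate_succ_apply, ih, hH, Function.iterate_succ_apply]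

theorem H_As_iter (n : ℕ) (q : T2) : H ((A x).symm^[n] q) = (A y).symm^[n] (H q) := by
  induction n generalizing q with
  | zero => rfl
  | succ n ih => rw [Function.iterate_succ_apply, ih, H_As hH, Function.iterate_succ_apply]

theorem H_fx {z : T2} (hz : z ∈ Fx) : H z ∈ Fx := by
  rw [← A_fix_iff y, ← hH, A_fix x hz]

theorem H_fx' {z : T2} (hz : H z ∈ Fx) : z ∈ Fx := by
  rw [← A_fix_iff x]
  apply H.injective
  rw [hH, A_fix y hz]

theorem Het.map {a b : T2} (h : Het x a b) : Het y (H a) (H b) := by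
  obtain ⟨z, hz, h1, h2⟩ := h
  refine ⟨H z, fun hn => hz (H_fx' hH hn), ?_, ?_⟩
  · have := (H.continuous.tendsto a).comp h1
    refine this.congr fun n => ?_
    exact H_As_iter hH n z
  · have := (H.continuous.tendsto b).comp h2
    refine this.congr fun n => ?_
    exact H_iter hH n z

theorem H_fixed : H pp = pp ∧ H pq = pq ∧ H pA = pA := by
  have h1 : LL (H pR) < LL (H pp) := (Het.map hH (het_fib x (Or.inr rfl))).lt
  have h2 : LL (H pp) < LL (H pq) := (Het.map hH (het_pq x)).lt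
  have h3 : LL (H pq) < LL (H pA) := (Het.map hH (het_fib x (Or.inl rfl))).lt
  have vR : LL pR = -Lam - 1 := by unfold LL pR; simp only [c1_half]; ring
  have vp : LL pp = -Lam + 1 := by unfold LL pp; simp only [c1_half, c1_zero]; ring
  have vq : LL pq = Lam - 1 := by unfold LL pq; simp only [c1_half, c1_zero]; ring
  have vA : LL pA = Lam + 1 := by unfold LL pA; simp only [c1_zero]; ring
  have hL := Lam_pos
  have cases' : ∀ z ∈ Fx, z = pR ∨ z = pp ∨ z = pq ∨ z = pA := by
    rintro ⟨a, b⟩ ⟨h1, h2⟩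
    simp only at h1 h2
    rcases h1 with rfl | rfl <;> rcases h2 with rfl | rfl
    · right; right; right; rfl
    · right; right; left; rfl
    · right; left; rfl
    · left; rfl
  have fR : pR ∈ Fx := ⟨Or.inr rfl, Or.inr rfl⟩
  have fp : pp ∈ Fx := ⟨Or.inr rfl, Or.inl rfl⟩
  have fq : pq ∈ Fx := ⟨Or.inl rfl, Or.inr rfl⟩
  have fA : pA ∈ Fx := ⟨Or.inl rfl, Or.inl rfl⟩
  have lR : -Lam - 1 ≤ LL (H pR) := by
    rcases cases' _ (H_fx hH fR) with h | h | h | h <;> rw [h] <;> linarith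
  have lp : -Lam + 1 ≤ LL (H pp) := by
    rcases cases' _ (H_fx hH fp) with h | h | h | h <;> rw [h] at h1 ⊢ <;> linarith
  have lq : Lam - 1 ≤ LL (H pq) := by
    rcases cases' _ (H_fx hH fq) with h | h | h | h <;> rw [h] at h2 ⊢ <;> linarith
  have eA : H pA = pA := by
    rcases cases' _ (H_fx hH fA) with h | h | h | h
    · rw [h] at h3; linarith
    · rw [h] at h3; linarith
    · rw [h] at h3; linarith
    · exact h
  have eq : H pq = pq := by
    rcases cases' _ (H_fx hH fq) with h | h | h | h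
    · rw [h] at h2; linarith
    · rw [h] at h2; linarith
    · exact h
    · rw [h, eA] at h3; linarith
  refine ⟨?_, eq, eA⟩
  rcases cases' _ (H_fx hH fp) with h | h | h | h
  · rw [h] at h1; linarith
  · exact h
  · rw [h, eq] at h2; linarith
  · rw [h, eq] at h2; linarith

end

theorem As_near (y : DL) {z : T2} (h : ‖z.1 - hf‖ ≤ 1 / 8) :
    (A y).symm z = (gc.symm z.1, gc.symm z.2) := by
  obtain ⟨t, ht, h1⟩ := norm_sub_rep h
  obtain ⟨Z, -, hZ⟩ := rep z.2
  rw [abs_le] at ht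
  have e : z = (((1 / 2 + t : ℝ) : T1), (Z : T1)) := Prod.ext h1 hZ.symm
  rw [e, As_step y (by linarith [ht.1]) (by linarith [ht.2])]
  rfl

theorem unst (y : DL) {z : T2}
    (h : ∀ n, ‖((A y).symm^[n] z).1 - hf‖ ≤ 1 / 8 ∧ ‖((A y).symm^[n] z).2‖ ≤ 1 / 4) : z.2 = 0 := by
  have h1 : ∀ n, (A y).symm^[n] z = (gc.symm^[n] z.1, gc.symm^[n] z.2) := by
    intro n
    induction n with
    | zero => rfl
    | succ n ih =>
      rw [Function.iterate_succ_apply', As_near y (h n).1, ih]
      simp only [Function.iterate_succ_apply']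
  have h2 : ∀ n : ℕ, ‖z.2‖ ≤ (3 / 4) ^ n * (1 / 4) := by
    intro n
    have h3 := (h n).2
    rw [h1 n] at h3
    simp only at h3
    have h4 := norm_gc_iter h3 n
    have h5 : gc^[n] (gc.symm^[n] z.2) = z.2 := Function.LeftInverse.iterate gc.apply_symm_apply n z.2
    rw [h5] at h4
    refine h4.trans ?_
    exact mul_le_mul_of_nonneg_left h3 (by positivity)
  have h3 : Tendsto (fun n : ℕ => ((3:ℝ) / 4) ^ n * (1 / 4)) atTop (𝓝 0) := by
    have := (tendsto_pow_atTop_nhds_zero_of_lt_one (r := (3:ℝ) / 4) (by norm_num)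
      (by norm_num)).mul_const (1 / 4)
    simpa using this
  have h4 : ‖z.2‖ ≤ 0 := ge_of_tendsto' h3 h2
  exact norm_le_zero_iff.1 h4

section

variable {x y : DL} {H : T2 ≃ₜ T2} (hH : ∀ q, H (A x q) = A y (H q))

include hH

theorem exists_psi : ∃ (s0 : ℝ) (ψ : ℝ → ℝ), 1 / 4 ≤ s0 ∧ s0 < 1 / 2 ∧
    ContinuousOn ψ (Icc s0 (1 / 2)) ∧
    (∀ s ∈ Icc s0 (1 / 2), H ((s : T1), 0) = ((ψ s : T1), 0) ∧ 3 / 8 ≤ ψ s ∧ ψ s ≤ 5 / 8) ∧
    ψ (1 / 2) = 1 / 2 := by
  have hp := (H_fixed hH).1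
  have hc : Continuous (fun s : ℝ => H ((s : T1), 0)) :=
    H.continuous.comp (coe_cont.prodMk continuous_const)
  have hp' : H (((1 / 2 : ℝ) : T1), 0) = pp := hp
  have hV : ∀ᶠ s : ℝ in 𝓝 (1 / 2 : ℝ), ‖(H ((s : T1), 0)).1 - hf‖ ≤ 1 / 8 ∧
      ‖(H ((s : T1), 0)).2‖ ≤ 1 / 4 := by
    have c1 : Continuous (fun s : ℝ => ‖(H ((s : T1), 0)).1 - hf‖) :=
      ((continuous_fst.comp hc).sub continuous_const).norm
    have c2 : Continuous (fun s : ℝ => ‖(H ((s : T1), 0)).2‖) := (continuous_snd.comp hc).norm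
    have l1 : ‖(H (((1 / 2 : ℝ) : T1), 0)).1 - hf‖ < 1 / 8 := by
      rw [hp']; show ‖hf - hf‖ < 1 / 8; rw [sub_self, norm_zero]; norm_num
    have l2 : ‖(H (((1 / 2 : ℝ) : T1), 0)).2‖ < 1 / 4 := by
      rw [hp']; show ‖(0 : T1)‖ < 1 / 4; rw [norm_zero]; norm_num
    have e1 := c1.continuousAt.eventually (gt_mem_nhds l1)
    have e2 := c2.continuousAt.eventually (gt_mem_nhds l2)
    filter_upwards [e1, e2] with s h1 h2
    exact ⟨h1.le, h2.le⟩
  rw [Metric.eventually_nhds_iff] at hV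
  obtain ⟨ε, hε, hV⟩ := hV
  set s0 : ℝ := 1 / 2 - min (ε / 2) (1 / 4) with hs0
  have hm1 : 0 < min (ε / 2) (1 / 4) := lt_min (by linarith) (by norm_num)
  have hm2 : min (ε / 2) (1 / 4) ≤ 1 / 4 := min_le_right _ _
  have hm3 : min (ε / 2) (1 / 4) ≤ ε / 2 := min_le_left _ _
  have hV' : ∀ s ∈ Icc s0 (1 / 2), ‖(H ((s : T1), 0)).1 - hf‖ ≤ 1 / 8 ∧
      ‖(H ((s : T1), 0)).2‖ ≤ 1 / 4 := by
    intro s hs
    apply hV
    rw [Real.dist_eq, abs_of_nonpos (by linarith [hs.2])]
    linarith [hs.1]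
  set ψ : ℝ → ℝ := fun s => (AddCircle.equivIco 1 0 (H ((s : T1), 0)).1 : ℝ) with hψ
  have hψ1 : ∀ s, (ψ s : T1) = (H ((s : T1), 0)).1 := fun s => AddCircle.coe_equivIco
  have hψ2 : ∀ s, 0 ≤ ψ s ∧ ψ s < 1 := by
    intro s
    have := (AddCircle.equivIco 1 0 (H ((s : T1), 0)).1).2
    exact ⟨this.1, by simpa using this.2⟩
  have hψ3 : ∀ s ∈ Icc s0 (1 / 2), 3 / 8 ≤ ψ s ∧ ψ s ≤ 5 / 8 := by
    intro s hs
    have h1 := (hV' s hs).1
    rw [← hψ1] at h1
    have h2 : (ψ s : T1) - hf = ((ψ s - 1 / 2 : ℝ) : T1) := by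
      rw [AddCircle.coe_sub]; rfl
    rw [h2, norm_coe' (by rw [abs_le]; constructor <;> linarith [(hψ2 s).1, (hψ2 s).2]), abs_le] at h1
    constructor <;> linarith [h1.1, h1.2]
  refine ⟨s0, ψ, by linarith, by linarith, ?_, ?_, ?_⟩
  · intro s hs
    apply ContinuousAt.continuousWithinAt
    have hne : (H ((s : T1), 0)).1 ≠ ((0 : ℝ) : T1) := by
      rw [← hψ1]
      intro h
      have h3 := hψ3 s hs
      have := coe_inj h (by rw [abs_lt]; constructor <;> linarith [h3.1, h3.2])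
      linarith [h3.1]
    have c1 : ContinuousAt (AddCircle.equivIco (1 : ℝ) 0) (H ((s : T1), 0)).1 :=
      AddCircle.continuousAt_equivIco 1 0 hne
    have c2 : ContinuousAt (fun s : ℝ => (H ((s : T1), 0)).1) s :=
      (continuous_fst.comp hc).continuousAt
    have c3 := ContinuousAt.comp (f := fun s : ℝ => (H ((s : T1), 0)).1) (x := s) c1 c2
    exact (continuous_subtype_val.continuousAt).comp c3
  · intro s hs
    refine ⟨?_, hψ3 s hs⟩
    refine Prod.ext (hψ1 s).symm ?_
    simp only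
    apply unst y
    intro n
    rw [← H_As_iter hH, As_iter' x (by linarith [hs.1]) hs.2]
    apply hV'
    have := Gs_iter_mem (show 0 ≤ s by linarith [hs.1]) hs.2 n
    exact ⟨hs.1.trans this.1, this.2⟩
  · have h1 := hψ1 (1 / 2)
    rw [hp'] at h1
    have h2 : (ψ (1 / 2) : T1) = ((1 / 2 : ℝ) : T1) := h1
    refine coe_inj h2 ?_
    rw [abs_lt]
    constructor <;> linarith [(hψ2 (1 / 2)).1, (hψ2 (1 / 2)).2]

end

/-- points of the unstable manifold of `p` in the stable manifold of `q` -/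
def Sq (x : DL) (X : ℝ) : Prop := Tendsto (fun n => (A x)^[n] ((X : T1), 0)) atTop (𝓝 pq)

/-- points of tangency -/
def TT (x : DL) (X : ℝ) : Prop :=
  ∃ m t, 5 / 32 ≤ t ∧ t ≤ 3 / 16 ∧ x.f t = 0 ∧ X = Gs^[m] t

theorem Sq_of_TT (x : DL) {X : ℝ} (h : TT x X) : Sq x X := by
  obtain ⟨m, t, hb1, hb2, ht, rfl⟩ := h
  unfold Sq
  rw [← tendsto_add_atTop_iff_nat (1 + m)]
  have h1 : ∀ n, (A x)^[n + (1 + m)] (((Gs^[m] t : ℝ) : T1), 0) =
      (((G^[n + 1] t : ℝ) : T1), hf) := by
    intro n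
    rw [← add_assoc, Function.iterate_add_apply, A_back x (by linarith) (by linarith),
      A_thru x (by linarith) (by linarith)]
    have hth : th x t = 1 / 2 := by
      unfold th
      rw [ht, sub_zero]
    rw [hth, G_iter_half]
    rfl
  simp only [h1]
  have := (tendsto_add_atTop_iff_nat 1).2
      (tends_coe_G (t := t) (by linarith) (by linarith))
  exact this.prodMk_nhds tendsto_const_nhds

theorem TT_of_Sq (x : DL) {X : ℝ} (h0 : 1 / 8 < X) (h1 : X < 1 / 2) (h : Sq x X) : TT x X := by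
  classical
  have hex : ∃ n, G^[n] X ≤ 1 / 8 := by
    have := (tends_G (by linarith) h1).eventually (gt_mem_nhds (show (0:ℝ) < 1 / 8 by norm_num))
    obtain ⟨n, hn⟩ := this.exists
    exact ⟨n, hn.le⟩
  have hne : Nat.find hex ≠ 0 := by
    intro hz
    have := Nat.find_spec hex
    rw [hz] at this
    simp at this
    linarith
  obtain ⟨k, hk⟩ := Nat.exists_eq_succ_of_ne_zero hne
  set W := G^[k] X with hW
  have hW1 : 1 / 8 < W := by
    by_contra hc
    exact Nat.find_min hex (m := k) (by omega) (not_lt.1 hc)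
  have hW2 : W ≤ 1 / 4 := by
    have h2 := Nat.find_spec hex
    rw [hk, Nat.succ_eq_add_one, Function.iterate_succ_apply', ← G_quarter] at h2
    exact G_strictMono.le_iff_le.1 h2
  have hX : X = Gs^[k] W := (Gs_G_iter k X).symm
  have hth : th x W = 1 / 2 := by
    by_contra hne
    have hb1 : th x W ≤ 1 / 2 := by
      unfold th; linarith [x.nonneg W]
    have hb2 : -(1 / 8) ≤ th x W := by
      unfold th; linarith [x.le W]
    have hlt : th x W < 1 / 2 := lt_of_le_of_ne hb1 hne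
    have hz : Tendsto (fun n => ((G^[n] (th x W) : ℝ) : T1)) atTop (𝓝 0) := by
      rcases le_total 0 (th x W) with h2 | h2
      · exact tends_coe_G h2 hlt
      · have h3 := tends_G (t := -th x W) (by linarith) (by linarith)
        have h4 : Tendsto (fun n => G^[n] (th x W)) atTop (𝓝 0) := by
          have h5 := h3.neg
          simp only [G_iter_neg, neg_neg, neg_zero] at h5
          exact h5
        have h6 := (coe_cont.tendsto 0).comp h4
        exact h6
    unfold Sq at h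
    rw [← tendsto_add_atTop_iff_nat (1 + k)] at h
    have h1 : ∀ n, (A x)^[n + (1 + k)] ((X : T1), 0) =
        (((G^[n + 1] W : ℝ) : T1), ((G^[n] (th x W) : ℝ) : T1)) := by
      intro n
      rw [← add_assoc, Function.iterate_add_apply]
      conv_lhs => rw [hX]
      rw [A_back x hW1.le (by linarith), A_thru x hW1.le hW2]
    simp only [h1] at h
    have h7 := ((continuous_snd (X := T1) (Y := T1)).tendsto pq).comp h
    have h8 : (0 : T1) = hf := tendsto_nhds_unique hz h7
    exact zero_ne_half h8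
  have hd : x.f W = 0 := by
    unfold th at hth
    linarith
  refine ⟨k, W, ?_, ?_, hd, hX⟩
  · by_contra hc
    have := x.pos W (by linarith) (by linarith) (Or.inl (not_le.1 hc))
    linarith
  · by_contra hc
    have := x.pos W (by linarith) (by linarith) (Or.inr (not_le.1 hc))
    linarith

theorem not_Sq (x : DL) {X : ℝ} (h0 : 1 / 2 ≤ X) (h1 : X ≤ 1) : ¬ Sq x X := by
  intro h
  have h2 : ∀ (n : ℕ) (X : ℝ), 1 / 2 ≤ X → X ≤ 1 → ((A x)^[n] ((X : T1), 0)).2 = 0 := by
    intro n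
    induction n with
    | zero => intro X _ _; rfl
    | succ n ih =>
      intro X h0 h1
      rw [Function.iterate_succ_apply, show ((X : T1), (0 : T1)) = ((X : T1), ((0 : ℝ) : T1)) from rfl,
        A_step x (by linarith) h1 (Or.inr (by linarith)), G_zero]
      refine ih (G X) ?_ ?_
      · rw [← G_half]; exact G_strictMono.monotone h0
      · have := G_strictMono.monotone (show X ≤ 0 + 1 by linarith)
        rwa [G_add_one, G_zero, zero_add] at this
  have h7 := ((continuous_snd (X := T1) (Y := T1)).tendsto pq).comp h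
  have h8 : (Prod.snd ∘ fun n => (A x)^[n] ((X : T1), 0)) = fun _ => (0 : T1) :=
    funext fun n => h2 n X h0 h1
  rw [h8] at h7
  have : (0 : T1) = hf := tendsto_nhds_unique tendsto_const_nhds h7
  exact zero_ne_half this

end Pool.Agent.H50.AXA
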