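import Mathlib
import Pool.Agent.H50.AXA.Top

/-!
# Estimates for the fibre maps
-/

open Set Filter Topology
open Pool.Agent.Helper114.AB
open Pool.Agent.H410R3.AX
open Pool.Agent.H410R3.KS

namespace Pool.Agent.H50.AXA

theorem sin_ratio {a b : ℝ} (ha : 0 ≤ a) (hab : a ≤ b) (hb : b ≤ 1 / 2) (hb0 : 0 < b) :
    a * Real.sin (2 * Real.pi * b) ≤ b * Real.sin (2 * Real.pi * a) := by
  have hpi := Real.pi_pos
  have m1 : (0:ℝ) ∈ Icc 0 Real.pi := left_mem_Icc.2 hpi.le
  have m2 : 2 * Real.pi * b ∈ Icc 0 Real.pi := ⟨by positivity, by nlinarith⟩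
  have w1 : 0 ≤ 1 - a / b := by rw [sub_nonneg, div_le_one hb0]; exact hab
  have w2 : 0 ≤ a / b := by positivity
  have h := strictConcaveOn_sin_Icc.concaveOn.2 m1 m2 w1 w2 (by ring)
  simp only [smul_eq_mul, Real.sin_zero, mul_zero, zero_add] at h
  have e : a / b * (2 * Real.pi * b) = 2 * Real.pi * a := by field_simp
  rw [e] at h
  have h2 := mul_le_mul_of_nonneg_left h hb0.le
  have e2 : b * (a / b * Real.sin (2 * Real.pi * b)) = a * Real.sin (2 * Real.pi * b) := by
    field_simp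
  linarith

theorem kap_ratio {a b : ℝ} (ha : 0 ≤ a) (hab : a ≤ b) (hb : b ≤ 1 / 2) :
    a * kap b ≤ b * kap a := by
  rcases (ha.trans hab).lt_or_eq with hb0 | hb0
  · have := sin_ratio ha hab hb hb0
    unfold kap
    nlinarith
  · have : a = 0 := by linarith
    subst this
    rw [← hb0]

theorem kap_iter_ratio {a b : ℝ} (ha : 0 < a) (hab : a ≤ b) (hb : b ≤ 1 / 2) (n : ℕ) :
    a * kap^[n] b ≤ b * kap^[n] a := by
  induction n with
  | zero => simp [mul_comm]
  | succ n ih =>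
    rw [Function.iterate_succ_apply', Function.iterate_succ_apply']
    have h1 := kap_iter_mem ha.le (hab.trans hb) n
    have h2 := kap_iter_mem (ha.le.trans hab) hb n
    have h3 := kap_iter_mono n hab
    have h4 := kap_ratio (ha.le.trans h1.1) h3 h2.2
    have hA : 0 < kap^[n] a := ha.trans_le h1.1
    have h5 : 0 ≤ kap (kap^[n] a) := (hA.le).trans (kap_mem hA.le h1.2).1
    have h6 : kap^[n] a * (a * kap (kap^[n] b)) ≤ kap^[n] a * (b * kap (kap^[n] a)) := by
      nlinarith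
    exact le_of_mul_le_mul_left h6 hA

theorem kap_iter_diff {a b : ℝ} (ha : 0 < a) (hab : a ≤ b) (hb : b ≤ 1 / 2) (n : ℕ) :
    0 ≤ kap^[n] b - kap^[n] a ∧ a * (kap^[n] b - kap^[n] a) ≤ (b - a) / 2 := by
  have h1 := kap_iter_ratio ha hab hb n
  have h2 := kap_iter_mem ha.le (hab.trans hb) n
  have h3 := kap_iter_mono n hab
  refine ⟨by linarith, ?_⟩
  nlinarith

theorem G_ratio {a b : ℝ} (ha : 0 ≤ a) (hab : a ≤ b) (hb : b ≤ 1 / 2) : b * G a ≤ a * G b := by
  rcases (ha.trans hab).lt_or_eq with hb0 | hb0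
  · have := sin_ratio ha hab hb hb0
    unfold G
    nlinarith
  · have : a = 0 := by linarith
    subst this
    rw [← hb0]

theorem Gs_ratio {a b : ℝ} (ha : 0 ≤ a) (hab : a ≤ b) (hb : b ≤ 1 / 2) : a * Gs b ≤ b * Gs a := by
  have h1 := Gs_mem ha (hab.trans hb)
  have h2 := Gs_mem (ha.trans hab) hb
  have h3 := G_ratio (a := Gs a) (b := Gs b) (ha.trans h1.1) (Gs_strictMono.monotone hab) h2.2
  rw [G_Gs, G_Gs] at h3
  linarith

theorem Gs_iter_ratio {a b : ℝ} (ha : 0 < a) (hab : a ≤ b) (hb : b ≤ 1 / 2) (n : ℕ) :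
    a * Gs^[n] b ≤ b * Gs^[n] a := by
  induction n with
  | zero => simp [mul_comm]
  | succ n ih =>
    rw [Function.iterate_succ_apply', Function.iterate_succ_apply']
    have h1 := Gs_iter_mem ha.le (hab.trans hb) n
    have h2 := Gs_iter_mem (ha.le.trans hab) hb n
    have h3 : Gs^[n] a ≤ Gs^[n] b := (Gs_strictMono.iterate n).monotone hab
    have h4 := Gs_ratio (ha.le.trans h1.1) h3 h2.2
    have hA : 0 < Gs^[n] a := ha.trans_le h1.1
    have h5 : 0 ≤ Gs (Gs^[n] a) := (hA.le).trans (Gs_mem hA.le h1.2).1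
    have h6 : Gs^[n] a * (a * Gs (Gs^[n] b)) ≤ Gs^[n] a * (b * Gs (Gs^[n] a)) := by
      nlinarith
    exact le_of_mul_le_mul_left h6 hA

theorem Gs_iter_diff {a b : ℝ} (ha : 0 < a) (hab : a ≤ b) (hb : b ≤ 1 / 2) (n : ℕ) :
    0 ≤ Gs^[n] b - Gs^[n] a ∧ a * (Gs^[n] b - Gs^[n] a) ≤ (b - a) / 2 := by
  have h1 := Gs_iter_ratio ha hab hb n
  have h2 := Gs_iter_mem ha.le (hab.trans hb) n
  have h3 : Gs^[n] a ≤ Gs^[n] b := (Gs_strictMono.iterate n).monotone hab
  refine ⟨by linarith, ?_⟩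
  nlinarith

theorem norm_coe_le (t : ℝ) : ‖(t : T1)‖ ≤ |t| := by
  rw [AddCircle.norm_eq]
  simp only [inv_one, one_mul, mul_one]
  exact round_le t 0 |>.trans (by simp)

/-- points away from the repelling point -/
theorem gc_iter_small {ρ : ℝ} (h0 : 0 ≤ ρ) (h1 : ρ ≤ 1 / 4) {z : T1} (h : ρ ≤ ‖z - hf‖) (n : ℕ) :
    ‖gc^[n] z‖ ≤ (1 - ρ) ^ n / 2 := by
  obtain ⟨t, ht, rfl, hn⟩ := norm_rep z
  have h2 : |t| ≤ 1 / 2 - ρ := by
    rcases le_total 0 t with h3 | h3
    · rw [abs_of_nonneg h3] at ht ⊢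
      have e : (t : T1) - hf = ((t - 1 / 2 : ℝ) : T1) := by rw [AddCircle.coe_sub]; rfl
      rw [e] at h
      have := h.trans (norm_coe_le _)
      rw [abs_of_nonpos (by linarith)] at this
      linarith
    · rw [abs_of_nonpos h3] at ht ⊢
      have e : (t : T1) - hf = ((t + 1 / 2 : ℝ) : T1) := by
        rw [← neg_half, ← AddCircle.coe_sub]; congr 1; ring
      rw [e] at h
      have := h.trans (norm_coe_le _)
      rw [abs_of_nonneg (by linarith)] at this
      linarith
  have h3 := G_iter_le h0 h1 (abs_nonneg t) h2 n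
  have e : ∀ n, |G^[n] t| = G^[n] |t| := by
    intro n
    induction n with
    | zero => rfl
    | succ n ih => rw [Function.iterate_succ_apply', Function.iterate_succ_apply', G_abs, ih]
  rw [gc_iter_coe]
  refine (norm_coe_le _).trans ?_
  rw [e]
  refine h3.2.trans ?_
  have : (0:ℝ) ≤ (1 - ρ) ^ n := pow_nonneg (by linarith) n
  nlinarith

/-- points away from the attracting point, backward -/
theorem gcs_iter_small {ρ : ℝ} (h0 : 0 ≤ ρ) (h1 : ρ ≤ 1 / 4) {z : T1} (h : ρ ≤ ‖z‖) (n : ℕ) :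
    ‖gc.symm^[n] z - hf‖ ≤ 1 / (1 + ρ) ^ n / 2 := by
  obtain ⟨t, ht, h2⟩ : ∃ t : ℝ, |t| ≤ 1 / 2 ∧ z = ((1 / 2 + t : ℝ) : T1) := by
    obtain ⟨t, ht, h3⟩ := norm_rep (z - hf)
    refine ⟨t, ht, ?_⟩
    rw [AddCircle.coe_add, h3.1]
    show z = hf + (z - hf)
    abel
  subst h2
  have h4 : |t| ≤ 1 / 2 - ρ := by
    rcases le_total 0 t with h3 | h3
    · rw [abs_of_nonneg h3] at ht ⊢
      have e : ((1 / 2 + t : ℝ) : T1) = ((t - 1 / 2 : ℝ) : T1) := by
        rw [show 1 / 2 + t = (t - 1 / 2) + 1 by ring, AddCircle.coe_add_period]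
      rw [e] at h
      have := h.trans (norm_coe_le _)
      rw [abs_of_nonpos (by linarith)] at this
      linarith
    · rw [abs_of_nonpos h3] at ht ⊢
      have := h.trans (norm_coe_le _)
      rw [abs_of_nonneg (by linarith)] at this
      linarith
  have h5 := Gs_iter h0 h1 h4 n
  rw [gcs_iter_coe]
  have e : ((Gs^[n] (1 / 2 + t) : ℝ) : T1) - hf = ((Gs^[n] (1 / 2 + t) - 1 / 2 : ℝ) : T1) := by
    rw [AddCircle.coe_sub]; rfl
  rw [e]
  refine (norm_coe_le _).trans (h5.trans ?_)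
  rw [div_div, div_le_div_iff₀ (by have : 0 < 1 + ρ := by linarith
                                   positivity) (by have : 0 < 1 + ρ := by linarith
                                                   positivity)]
  have : (0:ℝ) < (1 + ρ) ^ n := pow_pos (by linarith) n
  nlinarith [abs_nonneg t]

/-- the displacement of the fibre map -/
noncomputable def ud (δ m : ℝ) (z : T1) : ℝ :=
  max (-(max 0 ((3 * δ / 4 - ‖z - (δ : T1)‖) / 4))) (min (max 0 ((3 * δ / 4 - ‖z - (δ : T1)‖) / 4)) m)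

/-- the fibre map -/
noncomputable def uf (δ m : ℝ) (z : T1) : T1 := z + ((ud δ m z : ℝ) : T1)

theorem uf_continuous : Continuous (fun q : ℝ × ℝ × T1 => uf q.1 q.2.1 q.2.2) := by
  unfold uf ud
  have hc : Continuous (fun t : ℝ => (t : T1)) := coe_cont
  have h1 : Continuous (fun q : ℝ × ℝ × T1 => (q.1 : T1)) := hc.comp continuous_fst
  have h2 : Continuous (fun q : ℝ × ℝ × T1 => ‖q.2.2 - (q.1 : T1)‖) :=
    (continuous_snd.snd.sub h1).norm
  refine continuous_snd.snd.add (hc.comp ?_)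
  fun_prop

theorem ud_zero (δ : ℝ) (z : T1) : ud δ 0 z = 0 := by
  unfold ud
  have := le_max_left (0:ℝ) ((3 * δ / 4 - ‖z - (δ : T1)‖) / 4)
  rw [min_eq_right this, max_eq_right (by linarith)]

theorem uf_zero (δ : ℝ) (z : T1) : uf δ 0 z = z := by
  unfold uf
  rw [ud_zero]
  show z + 0 = z
  rw [add_zero]

theorem clamp_lip (B B' m : ℝ) :
    |max (-B) (min B m) - max (-B') (min B' m)| ≤ |B - B'| := by
  refine (abs_max_sub_max_le_max _ _ _ _).trans (max_le ?_ ?_)
  · rw [show -B - -B' = -(B - B') by ring, abs_neg]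
  · refine (abs_min_sub_min_le_max _ _ _ _).trans (max_le le_rfl ?_)
    rw [sub_self, abs_zero]
    exact abs_nonneg _

theorem ud_lip (δ m : ℝ) (z w : T1) : |ud δ m z - ud δ m w| ≤ ‖z - w‖ / 4 := by
  unfold ud
  refine (clamp_lip _ _ m).trans ?_
  refine (abs_max_sub_max_le_max _ _ _ _).trans (max_le ?_ ?_)
  · rw [sub_self, abs_zero]; positivity
  have h1 := abs_norm_sub_norm_le (z - (δ : T1)) (w - (δ : T1))
  have h2 : z - (δ : T1) - (w - (δ : T1)) = z - w := by abel
  rw [h2] at h1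
  rw [show (3 * δ / 4 - ‖z - (δ : T1)‖) / 4 - (3 * δ / 4 - ‖w - (δ : T1)‖) / 4 =
    -((‖z - (δ : T1)‖ - ‖w - (δ : T1)‖) / 4) by ring, abs_neg, abs_div,
    abs_of_pos (show (0:ℝ) < 4 by norm_num)]
  exact div_le_div_of_nonneg_right h1 (by norm_num)

theorem uf_injective (δ m : ℝ) : Function.Injective (uf δ m) := by
  intro z w h
  unfold uf at h
  have h1 : z - w = ((ud δ m w - ud δ m z : ℝ) : T1) := by
    rw [AddCircle.coe_sub]
    rw [sub_eq_sub_iff_add_eq_add, h, add_comm]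
  have h2 : ‖z - w‖ ≤ ‖z - w‖ / 4 := by
    calc ‖z - w‖ = ‖((ud δ m w - ud δ m z : ℝ) : T1)‖ := by rw [← h1]
      _ ≤ |ud δ m w - ud δ m z| := norm_coe_le _
      _ ≤ ‖w - z‖ / 4 := ud_lip _ _ _ _
      _ = _ := by rw [norm_sub_rev]
  have h3 : ‖z - w‖ ≤ 0 := by linarith
  exact sub_eq_zero.1 (norm_le_zero_iff.1 h3)

theorem uf_surjective (δ m : ℝ) : Function.Surjective (uf δ m) := by
  intro t
  have hK : ContractingWith (1 / 2) (fun z : T1 => t - ((ud δ m z : ℝ) : T1)) := by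
    refine ⟨by
      rw [← NNReal.coe_lt_coe]; norm_num, ?_⟩
    apply LipschitzWith.of_dist_le_mul
    intro z w
    rw [dist_eq_norm, dist_eq_norm]
    have e : t - ((ud δ m z : ℝ) : T1) - (t - ((ud δ m w : ℝ) : T1)) =
        ((ud δ m w - ud δ m z : ℝ) : T1) := by
      rw [AddCircle.coe_sub]; abel
    rw [e]
    refine (norm_coe_le _).trans ((ud_lip _ _ _ _).trans ?_)
    rw [norm_sub_rev]
    push_cast
    have := norm_nonneg (z - w)
    linarith
  obtain ⟨z, hz, -⟩ := hK.exists_fixedPoint 0 (edist_ne_top _ _)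
  refine ⟨z, ?_⟩
  have hz' : t - ((ud δ m z : ℝ) : T1) = z := hz
  unfold uf
  nth_rewrite 1 [← hz']
  abel

/-- description of the displacement -/
theorem ud_spec {δ m : ℝ} (h0 : 0 ≤ δ) (hm : |m| ≤ δ / 8) (z : T1) :
    |ud δ m z| ≤ |m| ∧ (3 * δ / 4 ≤ ‖z - (δ : T1)‖ → ud δ m z = 0) ∧
    (‖z - (δ : T1)‖ ≤ δ / 4 → ud δ m z = m) ∧ |ud δ m z - m| ≤ |m| := by
  unfold ud
  set B := max 0 ((3 * δ / 4 - ‖z - (δ : T1)‖) / 4) with hB
  have hB0 : 0 ≤ B := le_max_left _ _
  refine ⟨?_, ?_, ?_, ?_⟩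
  · rw [abs_le]
    rcases le_total 0 m with h | h
    · rw [abs_of_nonneg h]
      constructor
      · exact le_max_of_le_right (le_min (by linarith) (by linarith))
      · exact max_le (by linarith) (min_le_right _ _)
    · rw [abs_of_nonpos h]
      rw [min_eq_right (h.trans hB0)]
      constructor
      · rw [neg_neg]; exact le_max_right _ _
      · exact max_le (by linarith) (by linarith)
  · intro h
    have : B = 0 := max_eq_left (by linarith)
    rw [this, neg_zero]
    rcases le_total 0 m with h | h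
    · rw [min_eq_left h]; simp
    · rw [min_eq_right h]; exact max_eq_left h
  · intro h
    have h1 : |m| ≤ B := by
      refine le_trans ?_ (le_max_right _ _)
      linarith
    rw [abs_le] at h1
    rw [min_eq_right h1.2, max_eq_right h1.1]
  · rcases le_total 0 m with h | h
    · have h2 : min B m ≤ m := min_le_right _ _
      have h3 : 0 ≤ min B m := le_min hB0 h
      rw [max_eq_right (by linarith), abs_of_nonneg h, abs_le]
      constructor <;> linarith
    · rw [min_eq_right (h.trans hB0), abs_of_nonpos h, abs_le]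
      constructor
      · have := le_max_right (-B) m
        linarith
      · have : max (-B) m ≤ 0 := max_le (by linarith) h
        linarith

/-- an admissible family of pairs -/
structure Adm (S : Set (ℝ × ℝ)) : Prop where
  bd : ∀ q ∈ S, 0 ≤ q.1 ∧ q.1 ≤ 1 / 8 ∧ |q.2| ≤ q.1 / 8
  mod : ∀ ε > 0, ∃ r > 0, ∀ q ∈ S, q.1 < r → |q.2| ≤ ε * q.1

theorem K2 {S : Set (ℝ × ℝ)} (hS : Adm S) {ε : ℝ} (hε : 0 < ε) :
    ∃ N : ℕ, ∀ n ≥ N, ∀ q ∈ S, ∀ z : T1,
      ‖gc.symm^[n] (uf q.1 q.2 z) - gc.symm^[n] z‖ ≤ ε := by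
  obtain ⟨r, hr, hmod⟩ := hS.mod (ε / 4) (by linarith)
  set ρ := min (r / 8) (1 / 4) with hρ
  have hρ0 : 0 < ρ := lt_min (by linarith) (by norm_num)
  have hρ1 : ρ ≤ 1 / 4 := min_le_right _ _
  have hρ2 : ρ ≤ r / 8 := min_le_left _ _
  obtain ⟨N, hN⟩ := exists_pow_lt_of_lt_one hε (show 1 / (1 + ρ) < 1 by
    rw [div_lt_one (by linarith)]; linarith)
  refine ⟨N, fun n hn q hq z => ?_⟩
  obtain ⟨hq0, hq1, hq2⟩ := hS.bd q hq
  obtain ⟨δ, m⟩ := q
  simp only at hq0 hq1 hq2 hmod ⊢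
  obtain ⟨u1, u2, u3, u4⟩ := ud_spec hq0 hq2 z
  by_cases hz : 3 * δ / 4 ≤ ‖z - (δ : T1)‖
  · have : uf δ m z = z := by
      unfold uf
      rw [u2 hz]
      show z + 0 = z
      rw [add_zero]
    rw [this, sub_self, norm_zero]
    exact hε.le
  · rw [not_le] at hz
    obtain ⟨τ, hτ, hτe, hτn⟩ := norm_rep (z - (δ : T1))
    rw [hτn, abs_lt] at hz
    set c := ud δ m z with hc
    set s := δ + τ with hs
    have hzs : z = (s : T1) := by
      rw [hs, AddCircle.coe_add, hτe]; abel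
    have hus : uf δ m z = ((s + c : ℝ) : T1) := by
      unfold uf
      rw [AddCircle.coe_add, ← hzs]
    rw [hus, hzs, gcs_iter_coe, gcs_iter_coe, ← AddCircle.coe_sub]
    refine (norm_coe_le _).trans ?_
    have hδ : 0 < δ := by linarith [hz.1, hz.2]
    have hc1 : |c| ≤ δ / 8 := u1.trans hq2
    have hc2 := abs_le.1 hc1
    have hs1 : δ / 4 < s := by linarith [hz.1]
    have hs2 : s < 7 * δ / 4 := by linarith [hz.2]
    by_cases hδr : δ < r
    · have hm' : |c| ≤ ε / 4 * δ := u1.trans (hmod (δ, m) hq hδr)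
      rcases le_total 0 c with h | h
      · have h1 := Gs_iter_diff (a := s) (b := s + c) (by linarith) (by linarith) (by linarith) n
        rw [abs_of_nonneg h1.1]
        rw [abs_of_nonneg h] at hm'
        have h2 : s * (Gs^[n] (s + c) - Gs^[n] s) ≤ ε / 4 * δ / 2 := by linarith [h1.2]
        have h3 : δ / 4 * (Gs^[n] (s + c) - Gs^[n] s) ≤ s * (Gs^[n] (s + c) - Gs^[n] s) :=
          mul_le_mul_of_nonneg_right hs1.le h1.1
        have h4 : δ * (Gs^[n] (s + c) - Gs^[n] s) ≤ δ * ε := by nlinarith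
        exact le_of_mul_le_mul_left h4 hδ
      · have h1 := Gs_iter_diff (a := s + c) (b := s) (by linarith) (by linarith) (by linarith) n
        rw [abs_of_nonpos (by linarith [h1.1])]
        rw [abs_of_nonpos h] at hm'
        have h3 : δ / 8 * (Gs^[n] s - Gs^[n] (s + c)) ≤ (s + c) * (Gs^[n] s - Gs^[n] (s + c)) :=
          mul_le_mul_of_nonneg_right (by linarith) h1.1
        have h4 : δ * (Gs^[n] s - Gs^[n] (s + c)) ≤ δ * ε := by nlinarith [h1.2]
        have h5 := le_of_mul_le_mul_left h4 hδ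
        linarith
    · rw [not_lt] at hδr
      have key : ∀ w : ℝ, ρ ≤ w → w ≤ 1 / 2 → 1 / 2 - ε ≤ Gs^[n] w ∧ Gs^[n] w ≤ 1 / 2 := by
        intro w h1 h2
        refine ⟨?_, (Gs_iter_mem (hρ0.le.trans h1) h2 n).2⟩
        have h3 := Gs_iter (s := w - 1 / 2) hρ0.le hρ1 (by
          rw [abs_of_nonpos (by linarith)]; linarith) n
        rw [show 1 / 2 + (w - 1 / 2) = w by ring] at h3
        have h4 : |w - 1 / 2| / (1 + ρ) ^ n ≤ ε := by
          have h5 : |w - 1 / 2| / (1 + ρ) ^ n ≤ (1 / (1 + ρ)) ^ n := by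
            rw [one_div_pow]
            apply div_le_div_of_nonneg_right _ (by positivity)
            rw [abs_of_nonpos (by linarith)]; linarith
          refine h5.trans ((pow_le_pow_of_le_one (by positivity) ?_ hn).trans hN.le)
          rw [div_le_one (by linarith)]; linarith
        have h6 := (abs_le.1 (h3.trans h4)).1
        have e : Gs^[n] w = GH.symm^[n] w := rfl
        rw [e]; linarith
      have k1 := key (s + c) (by linarith) (by linarith)
      have k2 := key s (by linarith) (by linarith)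
      rw [abs_le]
      constructor <;> linarith [k1.1, k1.2, k2.1, k2.2]

theorem gc_half_add (n : ℕ) (s : ℝ) :
    gc^[n] ((1 / 2 + s : ℝ) : T1) = ((1 / 2 + kap^[n] s : ℝ) : T1) := by
  induction n generalizing s with
  | zero => rfl
  | succ n ih =>
    rw [Function.iterate_succ_apply, gc_coe, G_half_add, ih, Function.iterate_succ_apply]

theorem kap_neg (s : ℝ) : kap (-s) = - kap s := by
  unfold kap
  rw [mul_neg, Real.sin_neg]; ring

theorem kap_iter_neg (n : ℕ) (s : ℝ) : kap^[n] (-s) = - kap^[n] s := by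
  induction n generalizing s with
  | zero => rfl
  | succ n ih => rw [Function.iterate_succ_apply, kap_neg, ih, Function.iterate_succ_apply]

/-- comparison near the repelling point -/
theorem kap_iter_close {δ ε a b : ℝ} (hδ : 0 < δ) (ha : δ / 8 ≤ a) (hb : δ / 8 ≤ b)
    (ha' : a ≤ 1 / 2) (hb' : b ≤ 1 / 2) (h : |a - b| ≤ ε / 4 * δ) (n : ℕ) :
    |kap^[n] a - kap^[n] b| ≤ ε := by
  rcases le_total a b with hab | hab
  · have h1 := kap_iter_diff (a := a) (b := b) (by linarith) hab hb' n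
    rw [abs_of_nonpos (by linarith)] at h
    rw [abs_of_nonpos (by linarith [h1.1])]
    have h3 : δ / 8 * (kap^[n] b - kap^[n] a) ≤ a * (kap^[n] b - kap^[n] a) :=
      mul_le_mul_of_nonneg_right ha h1.1
    have h4 : δ * (kap^[n] b - kap^[n] a) ≤ δ * ε := by nlinarith [h1.2]
    have h5 := le_of_mul_le_mul_left h4 hδ
    linarith
  · have h1 := kap_iter_diff (a := b) (b := a) (by linarith) hab ha' n
    rw [abs_of_nonneg (by linarith)] at h
    rw [abs_of_nonneg (by linarith [h1.1])]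
    have h3 : δ / 8 * (kap^[n] a - kap^[n] b) ≤ b * (kap^[n] a - kap^[n] b) :=
      mul_le_mul_of_nonneg_right hb h1.1
    have h4 : δ * (kap^[n] a - kap^[n] b) ≤ δ * ε := by nlinarith [h1.2]
    exact le_of_mul_le_mul_left h4 hδ

theorem K1 {S : Set (ℝ × ℝ)} (hS : Adm S) {ε : ℝ} (hε : 0 < ε) :
    ∃ N : ℕ, ∀ n ≥ N, ∀ q ∈ S, ∀ z : T1,
      ‖gc^[n] (uf q.1 q.2 z + ((1 / 2 - (q.1 + q.2) : ℝ) : T1)) -
        gc^[n] (z + ((1 / 2 - q.1 : ℝ) : T1))‖ ≤ ε := by
  obtain ⟨r, hr, hmod⟩ := hS.mod (ε / 4) (by linarith)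
  set ρ := min (r / 8) (1 / 4) with hρ
  have hρ0 : 0 < ρ := lt_min (by linarith) (by norm_num)
  have hρ1 : ρ ≤ 1 / 4 := min_le_right _ _
  have hρ2 : ρ ≤ r / 8 := min_le_left _ _
  obtain ⟨N, hN⟩ := exists_pow_lt_of_lt_one hε (show 1 - ρ < 1 by linarith)
  refine ⟨N, fun n hn q hq z => ?_⟩
  obtain ⟨hq0, hq1, hq2⟩ := hS.bd q hq
  obtain ⟨δ, m⟩ := q
  simp only at hq0 hq1 hq2 hmod ⊢
  obtain ⟨u1, u2, u3, u4⟩ := ud_spec hq0 hq2 z
  obtain ⟨τ, hτ, hτe, hτn⟩ := norm_rep (z - (δ : T1))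
  have hz1 : z + ((1 / 2 - δ : ℝ) : T1) = ((1 / 2 + τ : ℝ) : T1) := by
    rw [AddCircle.coe_sub, AddCircle.coe_add, hτe]; abel
  set c := ud δ m z with hc
  have hz2 : uf δ m z + ((1 / 2 - (δ + m) : ℝ) : T1) = ((1 / 2 + (τ + (c - m)) : ℝ) : T1) := by
    unfold uf
    rw [AddCircle.coe_sub, AddCircle.coe_add, AddCircle.coe_add, AddCircle.coe_add,
      AddCircle.coe_sub, hτe]
    abel
  rw [hz1, hz2]
  by_cases hcm0 : c = m
  · rw [hcm0, sub_self, add_zero, sub_self, norm_zero]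
    exact hε.le
  have hs : δ / 4 < |τ| := by
    by_contra hc'
    exact hcm0 (u3 (by rw [hτn]; exact not_lt.1 hc'))
  have hδ : 0 < δ := by
    rcases hq0.lt_or_eq with h | h
    · exact h
    · exfalso
      apply hcm0
      have h1 : |m| ≤ 0 := by rw [← h] at hq2; simpa using hq2
      rw [abs_nonpos_iff.1 h1]
      apply u2
      rw [← h]; simp
  have hcm : |c - m| ≤ δ / 8 := u4.trans hq2
  have hcm' := abs_le.1 hcm
  have hm8 : δ / 8 ≤ |τ + (c - m)| := by
    have := abs_sub_abs_le_abs_sub τ (-(c - m))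
    rw [abs_neg, sub_neg_eq_add] at this
    linarith
  -- both far away
  have far : ρ ≤ |τ| → ρ ≤ |τ + (c - m)| →
      ‖gc^[n] ((1 / 2 + (τ + (c - m)) : ℝ) : T1) - gc^[n] ((1 / 2 + τ : ℝ) : T1)‖ ≤ ε := by
    intro h1 h2
    have key : ∀ w : ℝ, ρ ≤ |w| → |w| ≤ 3 / 4 → ‖gc^[n] ((1 / 2 + w : ℝ) : T1)‖ ≤ ε / 2 := by
      intro w h3 h4
      have h5 : ρ ≤ ‖((1 / 2 + w : ℝ) : T1) - hf‖ := by
        have e : ((1 / 2 + w : ℝ) : T1) - hf = (w : T1) := by
          rw [AddCircle.coe_add]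
          show hf + (w : T1) - hf = _
          abel
        rw [e]
        rcases le_total |w| (1 / 2) with h6 | h6
        · rw [norm_coe' h6]; exact h3
        · rcases le_total 0 w with h7 | h7
          · rw [abs_of_nonneg h7] at h4 h6
            have e2 : (w : T1) = ((w - 1 : ℝ) : T1) := by
              rw [AddCircle.coe_sub, AddCircle.coe_period, sub_zero]
            rw [e2, norm_coe' (by rw [abs_of_nonpos (by linarith)]; linarith),
              abs_of_nonpos (by linarith)]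
            linarith
          · rw [abs_of_nonpos h7] at h4 h6
            have e2 : (w : T1) = ((w + 1 : ℝ) : T1) := by
              rw [AddCircle.coe_add, AddCircle.coe_period, add_zero]
            rw [e2, norm_coe' (by rw [abs_of_nonneg (by linarith)]; linarith),
              abs_of_nonneg (by linarith)]
            linarith
      have h6 := gc_iter_small hρ0.le hρ1 h5 n
      have h7 : (1 - ρ) ^ n ≤ ε :=
        (pow_le_pow_of_le_one (by linarith) (by linarith) hn).trans hN.le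
      linarith
    have k1 := key _ h2 (by
      have := abs_add_le τ (c - m)
      linarith)
    have k2 := key _ h1 (by linarith)
    calc _ ≤ ‖gc^[n] ((1 / 2 + (τ + (c - m)) : ℝ) : T1)‖ + ‖gc^[n] ((1 / 2 + τ : ℝ) : T1)‖ :=
          norm_sub_le _ _
      _ ≤ ε := by linarith
  by_cases hδr : δ < r
  · by_cases h12 : |τ + (c - m)| ≤ 1 / 2
    · have hcm2 : |c - m| ≤ ε / 4 * δ := u4.trans (hmod (δ, m) hq hδr)
      rw [gc_half_add, gc_half_add, ← AddCircle.coe_sub]
      refine (norm_coe_le _).trans ?_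
      rw [show 1 / 2 + kap^[n] (τ + (c - m)) - (1 / 2 + kap^[n] τ) =
        kap^[n] (τ + (c - m)) - kap^[n] τ by ring]
      rcases le_total 0 τ with h | h
      · rw [abs_of_nonneg h] at hs hτ
        have h3 : 0 ≤ τ + (c - m) := by linarith
        rw [abs_of_nonneg h3] at h12 hm8
        refine kap_iter_close hδ (by linarith) (by linarith) h12 hτ ?_ n
        rw [show τ + (c - m) - τ = c - m by ring]
        exact hcm2
      · rw [abs_of_nonpos h] at hs hτ
        have h3 : τ + (c - m) ≤ 0 := by linarith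
        rw [abs_of_nonpos h3] at h12 hm8
        have h4 := kap_iter_close (ε := ε) (a := -(τ + (c - m))) (b := -τ) hδ (by linarith)
          (by linarith) h12 hτ (by
            rw [show -(τ + (c - m)) - -τ = -(c - m) by ring, abs_neg]
            exact hcm2) n
        rw [kap_iter_neg, kap_iter_neg] at h4
        rw [show kap^[n] (τ + (c - m)) - kap^[n] τ = -(-kap^[n] (τ + (c - m)) - -kap^[n] τ) by ring,
          abs_neg]
        exact h4
    · rw [not_le] at h12
      apply far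
      · have := abs_add_le τ (c - m)
        linarith
      · linarith
  · rw [not_lt] at hδr
    exact far (by linarith) (by linarith)

end Pool.Agent.H50.AXA
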