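import Mathlib

/-!
# Gluing a conjugacy along the orbit of a wandering set
-/

set_option linter.unusedSectionVars false

open Set Filter Topology

namespace Pool.Agent.H50.AXA

section

variable {M : Type*} [MetricSpace M] [CompactSpace M]

theorem zpow_add_apply (f : M ≃ₜ M) (m n : ℤ) (z : M) : (f ^ (m + n)) z = (f ^ m) ((f ^ n) z) := by
  rw [zpow_add]; rfl

theorem zpow_zero_apply (f : M ≃ₜ M) (z : M) : (f ^ (0:ℤ)) z = z := rfl

theorem zpow_one_apply (f : M ≃ₜ M) (z : M) : (f ^ (1:ℤ)) z = f z := by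
  rw [zpow_one]

theorem zpow_neg_self (f : M ≃ₜ M) (n : ℤ) (z : M) : (f ^ (-n)) ((f ^ n) z) = z := by
  rw [← zpow_add_apply, neg_add_cancel, zpow_zero_apply]

theorem zpow_self_neg (f : M ≃ₜ M) (n : ℤ) (z : M) : (f ^ n) ((f ^ (-n)) z) = z := by
  rw [← zpow_add_apply, add_neg_cancel, zpow_zero_apply]

theorem zpow_natCast_apply (f : M ≃ₜ M) (n : ℕ) (z : M) : (f ^ (n:ℤ)) z = f^[n] z := by
  induction n with
  | zero => rfl
  | succ n ih =>
    push_cast
    rw [add_comm, zpow_add_apply, zpow_one_apply, ih, Function.iterate_succ_apply']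

theorem zpow_neg_natCast_apply (f : M ≃ₜ M) (n : ℕ) (z : M) :
    (f ^ (-(n:ℤ))) z = f.symm^[n] z := by
  induction n with
  | zero => rfl
  | succ n ih =>
    push_cast
    rw [neg_add, add_comm, zpow_add_apply, zpow_neg_one, ih, Function.iterate_succ_apply']
    rfl

theorem zpow_succ_apply (f : M ≃ₜ M) (n : ℤ) (z : M) : (f ^ (n + 1)) z = f ((f ^ n) z) := by
  rw [add_comm, zpow_add_apply, zpow_one_apply]

variable (f f' : M ≃ₜ M) (W : Set M) (H0 : M → M)

/-- the data of a gluing -/
structure GlueData : Prop where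
  closed : IsClosed W
  disj : ∀ n : ℤ, n ≠ 0 → ∀ z ∈ W, (f ^ n) z ∉ W
  img : ∀ (n : ℤ) (z : M), (f ^ n) z ∈ W ↔ (f' ^ n) z ∈ W
  off : ∀ z, z ∉ W → f z = f' z
  cont : Continuous H0
  bij : BijOn H0 W W
  offH : ∀ z, z ∉ W → H0 z = z
  unif : ∀ ε > 0, ∃ N : ℕ, ∀ n : ℤ, (N : ℤ) ≤ |n| → ∀ z ∈ W, dist ((f' ^ n) (H0 z)) ((f ^ n) z) ≤ ε

/-- the pieces -/
def cn (n : ℤ) (z : M) : M := (f' ^ n) (H0 ((f ^ (-n)) z))

/-- membership in the orbit -/
def inW (n : ℤ) (z : M) : Prop := (f ^ (-n)) z ∈ W

open Classical in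
/-- partial gluing -/
noncomputable def HS (S : Finset ℤ) (z : M) : M :=
  if h : ∃ n ∈ S, inW f W n z then cn f f' H0 h.choose z else z

open Classical in
/-- the conjugacy -/
noncomputable def HG (z : M) : M :=
  if h : ∃ n, inW f W n z then cn f f' H0 h.choose z else z

variable {f f' W H0}

theorem GlueData.frH (D : GlueData f f' W H0) {z : M} (hz : z ∈ frontier W) : H0 z = z := by
  have h1 : IsClosed {z | H0 z = z} := isClosed_eq D.cont continuous_id
  have h2 : closure Wᶜ ⊆ {z | H0 z = z} := closure_minimal D.offH h1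
  refine h2 ?_
  rw [frontier_eq_closure_inter_closure] at hz
  exact hz.2

theorem GlueData.frf (D : GlueData f f' W H0) {z : M} (hz : z ∈ frontier W) : f z = f' z := by
  have h1 : IsClosed {z | f z = f' z} := isClosed_eq f.continuous f'.continuous
  have h2 : closure Wᶜ ⊆ {z | f z = f' z} := closure_minimal D.off h1
  refine h2 ?_
  rw [frontier_eq_closure_inter_closure] at hz
  exact hz.2

theorem GlueData.fr (D : GlueData f f' W H0) {z : M} (hz : z ∈ frontier W) (n : ℤ) :
    (f' ^ n) (H0 z) = (f ^ n) z := by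
  rw [D.frH hz]
  have hzW : z ∈ W := D.closed.frontier_subset hz
  have key : ∀ n : ℤ, (f ^ n) z ∉ W ∨ n = 0 := by
    intro n
    by_cases h : n = 0
    · exact Or.inr h
    · exact Or.inl (D.disj n h z hzW)
  have hstep : ∀ n : ℤ, f ((f ^ n) z) = f' ((f ^ n) z) := by
    intro n
    rcases key n with h | h
    · exact D.off _ h
    · subst h; exact D.frf hz
  induction n using Int.induction_on with
  | zero => rfl
  | succ n ih => rw [zpow_succ_apply, zpow_succ_apply, ih, hstep]
  | pred n ih =>
    apply f'.injective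
    rw [← zpow_succ_apply, ← hstep, ← zpow_succ_apply]
    simpa using ih

theorem inW_unique (D : GlueData f f' W H0) {m n : ℤ} {z : M} (h1 : inW f W m z)
    (h2 : inW f W n z) : m = n := by
  by_contra hne
  unfold inW at h1 h2
  have h3 : (f ^ (-n)) z = (f ^ (m - n)) ((f ^ (-m)) z) := by
    rw [← zpow_add_apply]; congr 2; ring
  rw [h3] at h2
  exact D.disj (m - n) (sub_ne_zero.2 hne) _ h1 h2

theorem HS_of (D : GlueData f f' W H0) {S : Finset ℤ} {n : ℤ} (hn : n ∈ S) {z : M}
    (h : inW f W n z) : HS f f' W H0 S z = cn f f' H0 n z := by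
  have hex : ∃ n ∈ S, inW f W n z := ⟨n, hn, h⟩
  unfold HS
  rw [dif_pos hex, inW_unique D hex.choose_spec.2 h]

theorem HS_not {S : Finset ℤ} {z : M} (h : ∀ n ∈ S, ¬ inW f W n z) : HS f f' W H0 S z = z := by
  unfold HS
  rw [dif_neg]
  push Not
  exact h

theorem HG_of (D : GlueData f f' W H0) {n : ℤ} {z : M}
    (h : inW f W n z) : HG f f' W H0 z = cn f f' H0 n z := by
  have hex : ∃ n, inW f W n z := ⟨n, h⟩
  unfold HG
  rw [dif_pos hex, inW_unique D hex.choose_spec h]

theorem HG_not {z : M} (h : ∀ n, ¬ inW f W n z) : HG f f' W H0 z = z := by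
  unfold HG
  rw [dif_neg]
  push Not
  exact h

theorem cn_cont (D : GlueData f f' W H0) (n : ℤ) : Continuous (cn f f' H0 n) :=
  (f' ^ n).continuous.comp (D.cont.comp (f ^ (-n)).continuous)

theorem HS_cont (D : GlueData f f' W H0) (S : Finset ℤ) : Continuous (HS f f' W H0 S) := by
  classical
  induction S using Finset.induction_on with
  | empty =>
    have : HS f f' W H0 ∅ = fun z => z := by
      funext z
      exact HS_not (by simp)
    rw [this]
    exact continuous_id
  | insert n S hn ih =>
    have e : HS f f' W H0 (insert n S) =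
        fun z => if z ∈ (f ^ (-n)) ⁻¹' W then cn f f' H0 n z else HS f f' W H0 S z := by
      funext z
      by_cases h : z ∈ (f ^ (-n)) ⁻¹' W
      · rw [if_pos h]
        exact HS_of D (Finset.mem_insert_self n S) h
      · rw [if_neg h]
        by_cases h2 : ∃ m ∈ S, inW f W m z
        · obtain ⟨m, hm, h3⟩ := h2
          rw [HS_of D hm h3, HS_of D (Finset.mem_insert_of_mem hm) h3]
        · push Not at h2
          rw [HS_not h2, HS_not]
          intro m hm
          rcases Finset.mem_insert.1 hm with rfl | hm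
          · exact h
          · exact h2 m hm
    rw [e]
    refine Continuous.if (p := fun z => z ∈ (f ^ (-n)) ⁻¹' W) ?_ (cn_cont D n) ih
    intro z hz
    have hz1 : z ∈ frontier ((f ^ (-n)) ⁻¹' W) := hz
    rw [← (f ^ (-n)).preimage_frontier] at hz1
    have hz2 : (f ^ (-n)) z ∈ frontier W := hz1
    have hz3 : (f ^ (-n)) z ∈ W := D.closed.frontier_subset hz2
    have h1 : cn f f' H0 n z = z := by
      unfold cn
      rw [D.fr hz2 n, zpow_self_neg]
    rw [h1, HS_not]
    intro m hm h4
    apply hn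
    rw [← inW_unique D h4 hz3]
    exact hm

theorem HG_cont (D : GlueData f f' W H0) : Continuous (HG f f' W H0) := by
  refine TendstoUniformly.continuous (F := fun S : Finset ℤ => HS f f' W H0 S) (p := atTop) ?_
    (Eventually.frequently (Eventually.of_forall fun S => HS_cont D S))
  rw [Metric.tendstoUniformly_iff]
  intro ε hε
  obtain ⟨N, hN⟩ := D.unif (ε / 2) (by linarith)
  filter_upwards [eventually_ge_atTop (Finset.Icc (-(N:ℤ)) N)] with S hS z
  by_cases h : ∃ n, inW f W n z
  · obtain ⟨n, hn⟩ := h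
    rw [HG_of D hn]
    by_cases hnS : n ∈ S
    · rw [HS_of D hnS hn, dist_self]; exact hε
    · have h1 : HS f f' W H0 S z = z := by
        apply HS_not
        intro m hm hm'
        apply hnS
        rw [inW_unique D hn hm']
        exact hm
      have h2 : (N : ℤ) ≤ |n| := by
        by_contra hc
        apply hnS
        apply hS
        rw [Finset.mem_Icc]
        exact abs_le.1 (not_le.1 hc).le
      have h3 := hN n h2 _ hn
      rw [zpow_self_neg] at h3
      rw [h1]
      exact h3.trans_lt (by linarith)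
  · push Not at h
    rw [HG_not h, HS_not (fun n _ => h n), dist_self]
    exact hε

theorem inW_succ (n : ℤ) (z : M) : inW f W (n + 1) (f z) ↔ inW f W n z := by
  unfold inW
  have : (f ^ (-(n + 1))) (f z) = (f ^ (-n)) z := by
    conv_lhs => rw [← zpow_one_apply f z]
    rw [← zpow_add_apply]; congr 2; ring
  rw [this]

theorem HG_conj (D : GlueData f f' W H0) (z : M) :
    HG f f' W H0 (f z) = f' (HG f f' W H0 z) := by
  by_cases h : ∃ n, inW f W n z
  · obtain ⟨n, hn⟩ := h
    rw [HG_of D hn, HG_of D ((inW_succ n z).2 hn)]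
    unfold cn
    have : (f ^ (-(n + 1))) (f z) = (f ^ (-n)) z := by
      conv_lhs => rw [← zpow_one_apply f z]
      rw [← zpow_add_apply]; congr 2; ring
    rw [this, zpow_succ_apply]
  · push Not at h
    rw [HG_not h, HG_not]
    · refine D.off z ?_
      exact h 0
    · intro n hn
      apply h (n - 1)
      rw [← inW_succ]
      simpa using hn

theorem inW_HG (D : GlueData f f' W H0) (n : ℤ) (z : M) :
    inW f W n (HG f f' W H0 z) ↔ inW f W n z := by
  have key : ∀ z n, inW f W n z → inW f W n (HG f f' W H0 z) := by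
    intro z n h
    rw [HG_of D h]
    unfold inW
    rw [D.img]
    unfold cn
    rw [zpow_neg_self]
    exact D.bij.mapsTo h
  constructor
  · intro h
    by_cases h2 : ∃ m, inW f W m z
    · obtain ⟨m, hm⟩ := h2
      rw [inW_unique D h (key z m hm)]
      exact hm
    · push Not at h2
      rwa [HG_not h2] at h
  · exact key z n

theorem HG_bij (D : GlueData f f' W H0) : Function.Bijective (HG f f' W H0) := by
  constructor
  · intro z z' h
    by_cases h1 : ∃ n, inW f W n z
    · obtain ⟨n, hn⟩ := h1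
      have hn' : inW f W n z' := by
        rw [← inW_HG D, ← h, inW_HG D]; exact hn
      rw [HG_of D hn, HG_of D hn'] at h
      unfold cn at h
      have h2 := D.bij.injOn hn hn' ((f' ^ n).injective h)
      exact (f ^ (-n)).injective h2
    · push Not at h1
      have h1' : ∀ n, ¬ inW f W n z' := by
        intro n hn
        apply h1 n
        rw [← inW_HG D, h, inW_HG D]; exact hn
      rwa [HG_not h1, HG_not h1'] at h
  · intro z
    by_cases h1 : ∃ n, inW f W n z
    · obtain ⟨n, hn⟩ := h1
      have h2 : (f' ^ (-n)) z ∈ W := (D.img _ _).1 hn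
      obtain ⟨w, hw, hwe⟩ := D.bij.surjOn h2
      refine ⟨(f ^ n) w, ?_⟩
      have h3 : inW f W n ((f ^ n) w) := by
        unfold inW; rw [zpow_neg_self]; exact hw
      rw [HG_of D h3]
      unfold cn
      rw [zpow_neg_self, hwe, zpow_self_neg]
    · push Not at h1
      exact ⟨z, HG_not h1⟩

theorem exists_conj_of_glue (D : GlueData f f' W H0) : ∃ H : M ≃ₜ M, ∀ z, H (f z) = f' (H z) :=
  ⟨Continuous.homeoOfEquivCompactToT2 (f := Equiv.ofBijective _ (HG_bij D)) (HG_cont D),
    HG_conj D⟩

end

end Pool.Agent.H50.AXA
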