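import Mathlib
import Pool.Agent.H50.AXA.Glue
import Pool.Agent.H50.AXA.Est

/-!
# Construction of conjugacies
-/

open Set Filter Topology
open Pool.Agent.Helper114.AB
open Pool.Agent.H410R3.AX hiding th A thc Het Sq TT T0 del th_zero A_apply A_coe A_symm_apply
  A_fix LL_lt A_fix_iff thc_zero thc_coe A_iter_fx As_iter_fx LL_le LL_iter A_As_iter As_A_iter
  Het.lt het_fib As_step A_step A_back As_iter' A_small A_thru het_pq H_symm H_As H_iter H_As_iter
  H_fx H_fx' Het.map H_fixed As_near unst exists_psi Sq_of_TT TT_of_Sq not_Sq thc_zero_fx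
open Pool.Agent.H410R3.KS

namespace Pool.Agent.H50.AXA

/-- `δ` on the circle -/
noncomputable def dc (x : DL) : T1 → ℝ := Function.Periodic.lift (f := x.f) (c := (1:ℝ)) x.per

theorem dc_coe (x : DL) (X : ℝ) : dc x (X : T1) = x.f X := rfl

theorem dc_continuous (x : DL) : Continuous (dc x) := continuous_coinduced_dom.2 x.cont

theorem thc_eq (x : DL) (z : T1) : thc x z = ((1 / 2 - dc x z : ℝ) : T1) := by
  induction z using QuotientAddGroup.induction_on with
  | H X => rfl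

/-- the window, closed -/
def Wc : Set T1 := (fun t : ℝ => (t : T1)) '' Icc (5 / 32) (3 / 16)

theorem Wc_closed : IsClosed Wc := (isCompact_Icc.image coe_cont).isClosed

theorem mem_Wc {t : ℝ} (h0 : 0 ≤ t) (h1 : t < 1) : (t : T1) ∈ Wc ↔ t ∈ Icc (5 / 32 : ℝ) (3 / 16) := by
  constructor
  · rintro ⟨s, hs, he⟩
    have he' : (s : T1) = (t : T1) := he
    have := coe_inj he' (by rw [abs_lt]; constructor <;> linarith [hs.1, hs.2])
    rw [← this]; exact hs
  · intro h
    exact ⟨t, h, rfl⟩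

/-- The data of a homeomorphism of the window which almost respects `δ`. -/
structure WData (x y : DL) (h : ℝ → ℝ) : Prop where
  cont : Continuous h
  mono : StrictMono h
  low : ∀ t, t ≤ 5 / 32 → h t = t
  high : ∀ t, 3 / 16 ≤ t → h t = t
  out : ∀ t, 0 ≤ t → t ≤ 1 → (t < 5 / 32 ∨ 3 / 16 < t) → x.f t = y.f t
  bd : ∀ t, 5 / 32 ≤ t → t ≤ 3 / 16 → x.f t ≤ 1 / 8
  ratio : ∀ t, 5 / 32 ≤ t → t ≤ 3 / 16 → |y.f (h t) - x.f t| ≤ x.f t / 8
  mod : ∀ ε > 0, ∃ r > 0, ∀ t, 5 / 32 ≤ t → t ≤ 3 / 16 → x.f t < r →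
    |y.f (h t) - x.f t| ≤ ε * x.f t

section

variable {x y : DL} {h : ℝ → ℝ}

/-- the map of the circle -/
noncomputable def hc (h : ℝ → ℝ) : T1 → T1 := AddCircle.liftIco 1 0 (fun t : ℝ => ((h t : ℝ) : T1))

theorem hc_coe {t : ℝ} (h0 : 0 ≤ t) (h1 : t < 1) : hc h (t : T1) = ((h t : ℝ) : T1) :=
  AddCircle.liftIco_coe_apply (p := 1) (a := 0) ⟨h0, by simpa using h1⟩

theorem hc_continuous (D : WData x y h) : Continuous (hc h) := by
  refine AddCircle.liftIco_continuous ?_ ?_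
  · show ((h 0 : ℝ) : T1) = ((h (0 + 1) : ℝ) : T1)
    rw [D.low 0 (by norm_num), D.high (0 + 1) (by norm_num), AddCircle.coe_add_period]
  · exact (coe_cont.comp D.cont).continuousOn

theorem WData.mem (D : WData x y h) {t : ℝ} (ht : t ∈ Icc (5 / 32 : ℝ) (3 / 16)) :
    h t ∈ Icc (5 / 32 : ℝ) (3 / 16) := by
  constructor
  · rw [← D.low (5 / 32) le_rfl]; exact D.mono.monotone ht.1
  · rw [← D.high (3 / 16) le_rfl]; exact D.mono.monotone ht.2

theorem WData.surj (D : WData x y h) {t : ℝ} (ht : t ∈ Icc (5 / 32 : ℝ) (3 / 16)) :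
    ∃ s ∈ Icc (5 / 32 : ℝ) (3 / 16), h s = t := by
  have h1 := intermediate_value_Icc (show (5 / 32 : ℝ) ≤ 3 / 16 by norm_num) D.cont.continuousOn
  rw [D.low (5 / 32) le_rfl, D.high (3 / 16) le_rfl] at h1
  exact h1 ht

variable (x y h) in
/-- the local conjugacy -/
noncomputable def H0 (z : T2) : T2 :=
  (hc h z.1, gc.symm (uf (dc x z.1) (dc y (hc h z.1) - dc x z.1) (gc z.2)))

theorem H0_continuous (D : WData x y h) : Continuous (H0 x y h) := by
  unfold H0
  have c1 := hc_continuous D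
  have c2 := dc_continuous x
  have c3 := dc_continuous y
  have c4 : Continuous (fun z : T2 => ((dc x z.1 : ℝ), (dc y (hc h z.1) - dc x z.1 : ℝ), gc z.2)) := by
    fun_prop
  exact (c1.comp continuous_fst).prodMk (gc.symm.continuous.comp (uf_continuous.comp c4))

theorem A_zpow_fst (x : DL) (n : ℤ) (z : T2) : (((A x) ^ n) z).1 = (gc ^ n) z.1 := by
  have h1 : ∀ (n : ℕ) (z : T2), ((A x)^[n] z).1 = gc^[n] z.1 := by
    intro n
    induction n with
    | zero => intro z; rfl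
    | succ n ih => intro z; rw [Function.iterate_succ_apply, ih, Function.iterate_succ_apply]; rfl
  have h2 : ∀ (n : ℕ) (z : T2), ((A x).symm^[n] z).1 = gc.symm^[n] z.1 := by
    intro n
    induction n with
    | zero => intro z; rfl
    | succ n ih => intro z; rw [Function.iterate_succ_apply, ih, Function.iterate_succ_apply]; rfl
  rcases Int.eq_nat_or_neg n with ⟨k, rfl | rfl⟩
  · rw [zpow_natCast_apply, zpow_natCast_apply, h1]
  · rw [zpow_neg_natCast_apply, zpow_neg_natCast_apply, h2]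

theorem gc_zpow_not_mem {n : ℤ} (hn : n ≠ 0) {z : T1} (hz : z ∈ Wc) : (gc ^ n) z ∉ Wc := by
  obtain ⟨t, ht, rfl⟩ := hz
  show (gc ^ n) (t : T1) ∉ Wc
  rcases Int.eq_nat_or_neg n with ⟨k, rfl | rfl⟩
  · rw [zpow_natCast_apply, gc_iter_coe]
    have hk : k ≠ 0 := by rintro rfl; exact hn rfl
    obtain ⟨j, rfl⟩ := Nat.exists_eq_succ_of_ne_zero hk
    have h1 : G t < 1 / 8 := (G_strictMono.monotone ht.2).trans_lt G_316
    have h2 := G_mem (show 0 ≤ t by linarith [ht.1]) (by linarith [ht.2])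
    have h3 := G_iter_mem h2.1 (by linarith) j
    rw [Nat.succ_eq_add_one, Function.iterate_succ_apply, mem_Wc h3.1 (by linarith [h3.2])]
    intro h4
    linarith [h4.1, h3.2]
  · rw [zpow_neg_natCast_apply, gcs_iter_coe]
    have hk : k ≠ 0 := by rintro rfl; exact hn rfl
    obtain ⟨j, rfl⟩ := Nat.exists_eq_succ_of_ne_zero hk
    have h1 : 1 / 4 ≤ Gs t := by
      rw [← Gs_eighth]; exact Gs_strictMono.monotone (by linarith [ht.1])
    have h2 := Gs_mem (show 0 ≤ t by linarith [ht.1]) (by linarith [ht.2])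
    have h3 := Gs_iter_mem (show 0 ≤ Gs t by linarith) h2.2 j
    rw [Nat.succ_eq_add_one, Function.iterate_succ_apply,
      mem_Wc (by linarith [h3.1]) (by linarith [h3.2])]
    intro h4
    linarith [h4.2, h3.1]

theorem A_fwd (x : DL) {t : ℝ} (ht : t ∈ Icc (5 / 32 : ℝ) (3 / 16)) (Y : T1) (k : ℕ) :
    (A x)^[k + 1] ((t : T1), Y) =
      (gc^[k + 1] (t : T1), gc^[k] (gc Y + ((1 / 2 - x.f t : ℝ) : T1))) := by
  have h1 : G t < 1 / 8 := (G_strictMono.monotone ht.2).trans_lt G_316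
  have h2 := G_mem (show 0 ≤ t by linarith [ht.1]) (by linarith [ht.2])
  rw [Function.iterate_succ_apply, A_apply]
  simp only
  obtain ⟨Z, -, hZ⟩ := rep (gc Y + thc x (t : T1))
  have e : thc x (t : T1) = ((1 / 2 - x.f t : ℝ) : T1) := rfl
  rw [← e, ← hZ, gc_coe, A_small x h2.1 h1.le, gc_iter_coe, gc_iter_coe,
    Function.iterate_succ_apply]

theorem A_bwd (x : DL) {t : ℝ} (ht : t ∈ Icc (5 / 32 : ℝ) (3 / 16)) (Y : T1) (k : ℕ) :
    (A x).symm^[k] ((t : T1), Y) = (gc.symm^[k] (t : T1), gc.symm^[k] Y) := by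
  obtain ⟨Z, -, rfl⟩ := rep Y
  have h3 : ∀ k, Gs^[k] t ∈ Icc (1 / 8 : ℝ) (1 / 2) := fun k =>
    ⟨(show (1 / 8 : ℝ) ≤ t by linarith [ht.1]).trans
      (Gs_iter_mem (show 0 ≤ t by linarith [ht.1]) (by linarith [ht.2]) k).1,
      (Gs_iter_mem (show 0 ≤ t by linarith [ht.1]) (by linarith [ht.2]) k).2⟩
  induction k with
  | zero => rfl
  | succ k ih =>
    rw [Function.iterate_succ_apply', ih, gcs_iter_coe, gcs_iter_coe,
      As_step x (h3 k).1 (by linarith [(h3 k).2]), gcs_iter_coe, gcs_iter_coe,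
      Function.iterate_succ_apply', Function.iterate_succ_apply']

theorem base_fwd {t : ℝ} (ht : t ∈ Icc (5 / 32 : ℝ) (3 / 16)) (n : ℕ) :
    ‖gc^[n] (t : T1)‖ ≤ (3 / 4) ^ n / 2 := by
  have h1 : (1:ℝ) / 4 ≤ ‖(t : T1) - hf‖ := by
    have e : (t : T1) - hf = ((t - 1 / 2 : ℝ) : T1) := by rw [AddCircle.coe_sub]; rfl
    rw [e, norm_coe' (by rw [abs_of_nonpos (by linarith [ht.2])]; linarith [ht.1]),
      abs_of_nonpos (by linarith [ht.2])]
    linarith [ht.2]
  have := gc_iter_small (by norm_num) le_rfl h1 n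
  norm_num at this ⊢
  exact this

theorem base_bwd {t : ℝ} (ht : t ∈ Icc (5 / 32 : ℝ) (3 / 16)) (n : ℕ) :
    ‖gc.symm^[n] (t : T1) - hf‖ ≤ (8 / 9) ^ n / 2 := by
  have h1 : (1:ℝ) / 8 ≤ ‖(t : T1)‖ := by
    rw [norm_coe' (by rw [abs_of_nonneg (by linarith [ht.1])]; linarith [ht.2]),
      abs_of_nonneg (by linarith [ht.1])]
    linarith [ht.1]
  have := gcs_iter_small (by norm_num) (by norm_num) h1 n
  refine this.trans (le_of_eq ?_)
  rw [← one_div_pow]
  norm_num

/-- the set of the pairs `(δ, δ' ∘ h - δ)` -/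
def SS (x y : DL) (h : ℝ → ℝ) : Set (ℝ × ℝ) :=
  (fun t => (x.f t, y.f (h t) - x.f t)) '' Icc (5 / 32) (3 / 16)

theorem SS_adm (D : WData x y h) : Adm (SS x y h) where
  bd := by
    rintro _ ⟨t, ht, rfl⟩
    exact ⟨x.nonneg t, D.bd t ht.1 ht.2, D.ratio t ht.1 ht.2⟩
  mod := by
    intro ε hε
    obtain ⟨r, hr, hmod⟩ := D.mod ε hε
    refine ⟨r, hr, ?_⟩
    rintro _ ⟨t, ht, rfl⟩ hlt
    exact hmod t ht.1 ht.2 hlt

theorem H0_win (_D : WData x y h) {t : ℝ} (ht : t ∈ Icc (5 / 32 : ℝ) (3 / 16)) (Y : T1) :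
    H0 x y h ((t : T1), Y) =
      (((h t : ℝ) : T1), gc.symm (uf (x.f t) (y.f (h t) - x.f t) (gc Y))) := by
  unfold H0
  simp only
  rw [hc_coe (by linarith [ht.1]) (by linarith [ht.2]), dc_coe, dc_coe]

theorem glueData (D : WData x y h) :
    GlueData (A x) (A y) {z : T2 | z.1 ∈ Wc} (H0 x y h) where
  closed := Wc_closed.preimage continuous_fst
  disj n hn z hz := by
    show (((A x) ^ n) z).1 ∉ Wc
    rw [A_zpow_fst]
    exact gc_zpow_not_mem hn hz
  img n z := by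
    show (((A x) ^ n) z).1 ∈ Wc ↔ (((A y) ^ n) z).1 ∈ Wc
    rw [A_zpow_fst, A_zpow_fst]
  off z hz := by
    obtain ⟨t, ht, hte⟩ := AddCircle.eq_coe_Ico (p := 1) z.1
    have hz' : ¬ (z.1 ∈ Wc) := hz
    rw [← hte, mem_Wc ht.1 ht.2] at hz'
    have h1 : x.f t = y.f t := by
      refine D.out t ht.1 ht.2.le ?_
      by_contra hc
      push Not at hc
      exact hz' hc
    rw [A_apply, A_apply, ← hte, thc_coe, thc_coe]
    unfold th
    rw [h1]
  cont := H0_continuous D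
  bij := by
    refine ⟨?_, ?_, ?_⟩
    · rintro ⟨a, Y⟩ ⟨t, ht, (rfl : (t : T1) = a)⟩
      rw [H0_win D ht]
      exact ⟨h t, D.mem ht, rfl⟩
    · rintro ⟨a, Y⟩ ⟨t, ht, (rfl : (t : T1) = a)⟩ ⟨b, Z⟩ ⟨s, hs, (rfl : (s : T1) = b)⟩ he
      rw [H0_win D ht, H0_win D hs] at he
      have he1 : ((h t : ℝ) : T1) = ((h s : ℝ) : T1) := congrArg Prod.fst he
      have he2 := congrArg Prod.snd he
      simp only at he2
      have m1 := D.mem ht
      have m2 := D.mem hs
      have h3 := coe_inj he1 (by rw [abs_lt]; constructor <;> linarith [m1.1, m1.2, m2.1, m2.2])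
      have h4 := D.mono.injective h3
      subst h4
      have h5 := gc.injective (uf_injective _ _ (gc.symm.injective he2))
      rw [h5]
    · rintro ⟨a, Y⟩ ⟨t, ht, (rfl : (t : T1) = a)⟩
      obtain ⟨s, hs, rfl⟩ := D.surj ht
      obtain ⟨Z, hZ⟩ := uf_surjective (x.f s) (y.f (h s) - x.f s) (gc Y)
      refine ⟨((s : T1), gc.symm Z), ⟨s, hs, rfl⟩, ?_⟩
      rw [H0_win D hs, gc.apply_symm_apply, hZ, gc.symm_apply_apply]
  offH z hz := by
    obtain ⟨t, ht, hte⟩ := AddCircle.eq_coe_Ico (p := 1) z.1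
    have hz' : ¬ (z.1 ∈ Wc) := hz
    rw [← hte, mem_Wc ht.1 ht.2] at hz'
    have h0 : t < 5 / 32 ∨ 3 / 16 < t := by
      by_contra hc
      push Not at hc
      exact hz' hc
    have h1 : x.f t = y.f t := D.out t ht.1 ht.2.le h0
    have h2 : h t = t := by
      rcases h0 with h0 | h0
      · exact D.low t h0.le
      · exact D.high t h0.le
    unfold H0
    rw [← hte, hc_coe ht.1 ht.2, h2, dc_coe, dc_coe, h1, sub_self, uf_zero, gc.symm_apply_apply]
    exact Prod.ext hte rfl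
  unif ε hε := by
    obtain ⟨N1, hN1⟩ := K1 (SS_adm D) hε
    obtain ⟨N2, hN2⟩ := K2 (SS_adm D) hε
    obtain ⟨N3, hN3⟩ := exists_pow_lt_of_lt_one hε (show (3:ℝ) / 4 < 1 by norm_num)
    obtain ⟨N4, hN4⟩ := exists_pow_lt_of_lt_one hε (show (8:ℝ) / 9 < 1 by norm_num)
    refine ⟨N1 + N2 + N3 + N4 + 1, ?_⟩
    rintro n hn ⟨a, Y⟩ ⟨t, ht, (rfl : (t : T1) = a)⟩
    have hm := D.mem ht
    rcases Int.eq_nat_or_neg n with ⟨k, rfl | rfl⟩
    · have hk : N1 + N2 + N3 + N4 + 1 ≤ k := by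
        rw [Nat.abs_cast] at hn
        exact_mod_cast hn
      obtain ⟨j, rfl⟩ : ∃ j, k = j + 1 := ⟨k - 1, by omega⟩
      rw [zpow_natCast_apply, zpow_natCast_apply, H0_win D ht, A_fwd x ht, A_fwd y hm,
        gc.apply_symm_apply, Prod.dist_eq]
      refine max_le ?_ ?_
      · rw [dist_eq_norm]
        have b1 := base_fwd ht (j + 1)
        have b2 := base_fwd hm (j + 1)
        have b3 : ((3:ℝ) / 4) ^ (j + 1) ≤ ε :=
          (pow_le_pow_of_le_one (by norm_num) (by norm_num) (by omega)).trans hN3.le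
        refine (norm_sub_le _ _).trans ?_
        linarith
      · rw [dist_eq_norm]
        have := hN1 j (by omega) _ ⟨t, ht, rfl⟩ (gc Y)
        simp only at this
        rw [show x.f t + (y.f (h t) - x.f t) = y.f (h t) by ring] at this
        exact this
    · have hk : N1 + N2 + N3 + N4 + 1 ≤ k := by
        rw [abs_neg, Nat.abs_cast] at hn
        exact_mod_cast hn
      rw [zpow_neg_natCast_apply, zpow_neg_natCast_apply, H0_win D ht, A_bwd x ht, A_bwd y hm,
        Prod.dist_eq]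
      refine max_le ?_ ?_
      · rw [dist_eq_norm]
        have b1 := base_bwd ht k
        have b2 := base_bwd hm k
        have b3 : ((8:ℝ) / 9) ^ k ≤ ε :=
          (pow_le_pow_of_le_one (by norm_num) (by norm_num) (by omega)).trans hN4.le
        have e : gc.symm^[k] ((h t : ℝ) : T1) - gc.symm^[k] (t : T1) =
            (gc.symm^[k] ((h t : ℝ) : T1) - hf) - (gc.symm^[k] (t : T1) - hf) := by abel
        rw [e]
        refine (norm_sub_le _ _).trans ?_
        linarith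
      · rw [dist_eq_norm]
        have := hN2 (k + 1) (by omega) _ ⟨t, ht, rfl⟩ (gc Y)
        simp only at this
        rw [Function.iterate_succ_apply, Function.iterate_succ_apply, gc.symm_apply_apply] at this
        exact this

theorem exists_conj (D : WData x y h) : ∃ H : T2 ≃ₜ T2, ∀ q, H (A x q) = A y (H q) :=
  exists_conj_of_glue (glueData D)

end

end Pool.Agent.H50.AXA
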