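import Mathlib
import Pool.Agent.H50.AXA.Top

/-!
# A conjugacy induces a homeomorphism of the window which preserves the zero sets
-/

open Set Filter Topology
open Pool.Agent.Helper114.AB
open Pool.Agent.H410R3.AX hiding th A thc Het Sq TT T0 del th_zero A_apply A_coe A_symm_apply
  A_fix LL_lt A_fix_iff thc_zero thc_coe A_iter_fx As_iter_fx LL_le LL_iter A_As_iter As_A_iter
  Het.lt het_fib As_step A_step A_back As_iter' A_small A_thru het_pq H_symm H_As H_iter H_As_iter
  H_fx H_fx' Het.map H_fixed As_near unst exists_psi Sq_of_TT TT_of_Sq not_Sq thc_zero_fx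
open Pool.Agent.H410R3.KS

namespace Pool.Agent.H50.AXA

/-- left ends of the copies of the window -/
noncomputable def wa (m : ℕ) : ℝ := Gs^[m] (5 / 32)
/-- right ends of the copies of the window -/
noncomputable def wb (m : ℕ) : ℝ := Gs^[m] (3 / 16)

theorem wa_lt_wb (m : ℕ) : wa m < wb m := (Gs_strictMono.iterate m) (by norm_num)

theorem wb_lt_wa (m : ℕ) : wb m < wa (m + 1) := aa_lt_of le_rfl

theorem wa_strictMono : StrictMono wa :=
  strictMono_nat_of_lt_succ fun n => (wa_lt_wb n).trans (wb_lt_wa n)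

theorem wb_strictMono : StrictMono wb := aa_strictMono

theorem wb_lt_wa' {m n : ℕ} (h : m < n) : wb m < wa n :=
  (wb_lt_wa m).trans_le (wa_strictMono.monotone h)

theorem wa_le_it {m : ℕ} {t : ℝ} (h : 5 / 32 ≤ t) : wa m ≤ Gs^[m] t :=
  (Gs_strictMono.iterate m).monotone h

theorem it_le_wb {m : ℕ} {t : ℝ} (h : t ≤ 3 / 16) : Gs^[m] t ≤ wb m :=
  (Gs_strictMono.iterate m).monotone h

theorem wa_bd (m : ℕ) : 5 / 32 ≤ wa m ∧ wa m < 1 / 2 :=
  ⟨(Gs_iter_mem (by norm_num) (by norm_num) m).1, (wa_lt_wb m).trans (aa_bd m).2⟩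

theorem level_eq {k j : ℕ} {t t' : ℝ} (h1 : 5 / 32 ≤ t) (h2 : t ≤ 3 / 16) (h1' : 5 / 32 ≤ t')
    (h2' : t' ≤ 3 / 16) (h : Gs^[k] t = Gs^[j] t') : k = j := by
  rcases lt_trichotomy k j with hlt | heq | hlt
  · have := wb_lt_wa' hlt
    linarith [it_le_wb (m := k) h2, wa_le_it (m := j) h1']
  · exact heq
  · have := wb_lt_wa' hlt
    linarith [it_le_wb (m := j) h2', wa_le_it (m := k) h1]

theorem TT_iff (x : DL) {k : ℕ} {t : ℝ} (h1 : 5 / 32 ≤ t) (h2 : t ≤ 3 / 16) :
    TT x (Gs^[k] t) ↔ x.f t = 0 := by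
  constructor
  · rintro ⟨j, t', a1, a2, a3, a4⟩
    have := level_eq h1 h2 a1 a2 a4
    subst this
    rw [(Gs_strictMono.iterate k).injective a4]
    exact a3
  · intro h
    exact ⟨k, t, h1, h2, h, rfl⟩

/-- the zero set contains intervals at both ends of the window -/
def J1 (x : DL) : Prop := ∃ η > 0, η < 1 / 64 ∧ (∀ t, 5 / 32 ≤ t → t ≤ 5 / 32 + η → x.f t = 0) ∧
  (∀ t, 3 / 16 - η ≤ t → t ≤ 3 / 16 → x.f t = 0)

/-- no gap of the zero set inside the window has intervals of the zero set on both sides -/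
def J2 (x : DL) : Prop := ∀ l u v r, 5 / 32 ≤ l → l < u → u < v → v < r → r ≤ 3 / 16 →
  (∀ t, l ≤ t → t ≤ u → x.f t = 0) → (∀ t, v ≤ t → t ≤ r → x.f t = 0) →
  (∀ t, u < t → t < v → x.f t ≠ 0) → False

theorem J1.left {x : DL} (h : J1 x) : x.f (5 / 32) = 0 := by
  obtain ⟨η, h0, -, h1, -⟩ := h
  exact h1 _ le_rfl (by linarith)

theorem outer_gap {y : DL} (hy1 : J1 y) (hy : J2 y) {l u v r : ℝ} (hlu : l < u) (huv : u < v)
    (hvr : v < r)
    (h1 : ∀ X, l ≤ X → X ≤ u → TT y X) (h2 : ∀ X, v ≤ X → X ≤ r → TT y X)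
    (h3 : ∀ X, u < X → X < v → ¬ TT y X) : ∃ m, u = wb m ∧ v = wa (m + 1) := by
  obtain ⟨k, t, t1, t2, t3, t4⟩ := h1 u hlu.le le_rfl
  obtain ⟨j, s, s1, s2, s3, s4⟩ := h2 v le_rfl hvr.le
  have hb : ∀ m, TT y (wb m) := fun m => ⟨m, 3 / 16, by norm_num, le_rfl, y.zero, rfl⟩
  have ha : ∀ m, TT y (wa m) := fun m => ⟨m, 5 / 32, le_rfl, by norm_num, hy1.left, rfl⟩
  have hkj : k ≤ j := by
    by_contra hc
    have := wb_lt_wa' (not_le.1 hc)
    rw [t4, s4] at huv
    linarith [it_le_wb (m := j) s2, wa_le_it (m := k) t1]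
  have hub : u ≤ wb k := by rw [t4]; exact it_le_wb t2
  have hav : wa j ≤ v := by rw [s4]; exact wa_le_it s1
  rcases hkj.lt_or_eq with hlt | heq
  · have hbv : wb k < v := (wb_lt_wa' hlt).trans_le hav
    have e1 : u = wb k := by
      by_contra hne
      exact h3 _ (lt_of_le_of_ne hub hne) hbv (hb k)
    have e2 : v = wa (k + 1) := by
      by_contra hne
      have h4 : wa (k + 1) ≤ v := (wa_strictMono.monotone hlt).trans hav
      refine h3 _ ?_ (lt_of_le_of_ne h4 (Ne.symm hne)) (ha (k + 1))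
      rw [e1]; exact wb_lt_wa k
    exact ⟨k, e1, e2⟩
  · exfalso
    subst heq
    -- the point `t` is not the left end
    have ht : 5 / 32 < t := by
      rcases t1.lt_or_eq with h | h
      · exact h
      · exfalso
        have hu : u = wa k := by rw [t4, ← h]; rfl
        -- a point of `[l, u)` above `wb (k - 1)`
        obtain ⟨X, hX1, hX2, hX3⟩ : ∃ X, l ≤ X ∧ X < u ∧ ∀ j < k, wb j < X := by
          rcases Nat.eq_zero_or_pos k with h0 | h0
          · refine ⟨l, le_rfl, hlu, fun j hj => ?_⟩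
            omega
          · have h4 : wb (k - 1) < u := by
              rw [hu]; exact wb_lt_wa' (by omega)
            obtain ⟨X, hX1, hX2⟩ := exists_between (max_lt hlu h4)
            refine ⟨X, (le_max_left _ _).trans hX1.le, hX2, fun j hj => ?_⟩
            exact (wb_strictMono.monotone (by omega)).trans_lt ((le_max_right _ _).trans_lt hX1)
        obtain ⟨j, t', a1, a2, a3, rfl⟩ := h1 X hX1 hX2.le
        rw [hu] at hX2
        have h5 : j < k := by
          by_contra hc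
          have := wa_strictMono.monotone (not_lt.1 hc)
          linarith [wa_le_it (m := j) a1]
        linarith [hX3 j h5, it_le_wb (m := j) a2]
    have hs : s < 3 / 16 := by
      rcases s2.lt_or_eq with h | h
      · exact h
      · exfalso
        have hv : v = wb k := by rw [s4, h]; rfl
        obtain ⟨X, hX1, hX2⟩ := exists_between (lt_min hvr (show v < wa (k + 1) by
          rw [hv]; exact wb_lt_wa k))
        obtain ⟨j, t', a1, a2, a3, rfl⟩ := h2 X hX1.le (hX2.le.trans (min_le_left _ _))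
        rw [hv] at hX1
        have hX2' := hX2.trans_le (min_le_right _ _)
        rcases lt_or_ge k j with hc | hc
        · have := wa_strictMono.monotone (show k + 1 ≤ j from hc)
          linarith [wa_le_it (m := j) a1]
        · have := wb_strictMono.monotone hc
          linarith [it_le_wb (m := j) a2]
    have hGm : StrictMono (G^[k]) := G_iter_mono k
    have hu : u = Gs^[k] t := t4
    have hv : v = Gs^[k] s := s4
    have hau : wa k < u := by rw [hu]; exact (Gs_strictMono.iterate k) ht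
    have hvb : v < wb k := by rw [hv]; exact (Gs_strictMono.iterate k) hs
    have ew : G^[k] (wa k) = 5 / 32 := G_Gs_iter k _
    have ew' : G^[k] (wb k) = 3 / 16 := G_Gs_iter k _
    have eu : G^[k] u = t := by rw [hu]; exact G_Gs_iter k _
    have ev : G^[k] v = s := by rw [hv]; exact G_Gs_iter k _
    refine hy (G^[k] (max l (wa k))) t s (G^[k] (min r (wb k))) ?_ ?_ ?_ ?_ ?_ ?_ ?_ ?_
    · rw [← ew]; exact hGm.monotone (le_max_right _ _)
    · rw [← eu]; exact hGm (max_lt hlu hau)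
    · rw [← eu, ← ev]; exact hGm huv
    · rw [← ev]; exact hGm (lt_min hvr hvb)
    · rw [← ew']; exact hGm.monotone (min_le_right _ _)
    · intro z hz1 hz2
      have h4 : max l (wa k) ≤ Gs^[k] z := by
        have := (Gs_strictMono.iterate k).monotone hz1
        rwa [Gs_G_iter] at this
      have h5 : Gs^[k] z ≤ u := by
        rw [hu]; exact (Gs_strictMono.iterate k).monotone hz2
      have h6 := h1 _ ((le_max_left _ _).trans h4) h5
      refine (TT_iff y ?_ (hz2.trans t2)).1 h6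
      refine le_trans ?_ hz1
      rw [← ew]; exact hGm.monotone (le_max_right _ _)
    · intro z hz1 hz2
      have h4 : Gs^[k] z ≤ min r (wb k) := by
        have := (Gs_strictMono.iterate k).monotone hz2
        rwa [Gs_G_iter] at this
      have h5 : v ≤ Gs^[k] z := by
        rw [hv]; exact (Gs_strictMono.iterate k).monotone hz1
      have h6 := h2 _ h5 (h4.trans (min_le_left _ _))
      refine (TT_iff y (s1.trans hz1) ?_).1 h6
      refine hz2.trans ?_
      rw [← ew']; exact hGm.monotone (min_le_right _ _)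
    · intro z hz1 hz2 hz3
      refine h3 (Gs^[k] z) ?_ ?_ ⟨k, z, by linarith, by linarith, hz3, rfl⟩
      · rw [hu]; exact (Gs_strictMono.iterate k) hz1
      · rw [hv]; exact (Gs_strictMono.iterate k) hz2

section

variable {x y : DL} {H : T2 ≃ₜ T2} (hH : ∀ q, H (A x q) = A y (H q))

include hH

/-- A conjugacy induces an increasing bijection of the window which preserves the zeros. -/
theorem exists_window (hx1 : J1 x) (hy1 : J1 y) (hy2 : J2 y) :
    ∃ ψ : ℝ → ℝ, StrictMonoOn ψ (Icc (5 / 32) (3 / 16)) ∧ ContinuousOn ψ (Icc (5 / 32) (3 / 16)) ∧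
      ψ (5 / 32) = 5 / 32 ∧ ψ (3 / 16) = 3 / 16 ∧
      ∀ t, 5 / 32 ≤ t → t ≤ 3 / 16 → (x.f t = 0 ↔ y.f (ψ t) = 0) := by
  obtain ⟨s0, ψ, hs1, hs2, hψc, hψ, hψh⟩ := exists_psi hH
  have hq := (H_fixed hH).2.1
  have hS : ∀ s ∈ Icc s0 (1 / 2), (Sq x s ↔ Sq y (ψ s)) := by
    intro s hs
    have e1 : ∀ n, (A y)^[n] ((ψ s : T1), 0) = H ((A x)^[n] ((s : T1), 0)) := by
      intro n
      rw [H_iter hH, (hψ s hs).1]
    constructor
    · intro h
      have h2 := (H.continuous.tendsto pq).comp h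
      rw [hq] at h2
      unfold Sq
      simp only [e1]
      exact h2
    · intro h
      unfold Sq at h
      simp only [e1] at h
      have h2 := (H.symm.continuous.tendsto pq).comp h
      have h3 : H.symm pq = pq := by rw [Homeomorph.symm_apply_eq, hq]
      rw [h3] at h2
      refine h2.congr fun n => ?_
      exact H.symm_apply_apply _
  have hT : ∀ s ∈ Icc s0 (1 / 2), TT x s → ψ s < 1 / 2 ∧ TT y (ψ s) := by
    intro s hs h
    have h2 := (hS s hs).1 (Sq_of_TT x h)
    have h3 : ψ s < 1 / 2 := by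
      by_contra hc
      exact not_Sq y (not_lt.1 hc) (by linarith [(hψ s hs).2.2]) h2
    exact ⟨h3, TT_of_Sq y (by linarith [(hψ s hs).2.1]) h3 h2⟩
  have hT' : ∀ s ∈ Icc s0 (1 / 2), TT y (ψ s) → TT x s := by
    intro s hs h
    have h2 := (hS s hs).2 (Sq_of_TT y h)
    have h3 : s < 1 / 2 := by
      by_contra hc
      exact not_Sq x (not_lt.1 hc) (by linarith [hs.2]) h2
    exact TT_of_Sq x (by linarith [hs.1]) h3 h2
  obtain ⟨K, hK⟩ : ∃ K, s0 < wa K := by
    have := (tends_Gs (t := 5 / 32) (by norm_num) (by norm_num)).eventually (lt_mem_nhds hs2)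
    exact this.exists
  have hinj : InjOn ψ (Icc s0 (1 / 2)) := by
    intro s hs t ht he
    have h1 := (hψ s hs).1
    have h2 := (hψ t ht).1
    rw [he, ← h2] at h1
    have h3 := congrArg Prod.fst (H.injective h1)
    exact coe_inj h3 (by rw [abs_lt]; constructor <;> linarith [hs.1, hs.2, ht.1, ht.2])
  have haI : ∀ k, K ≤ k → wa k ∈ Icc s0 (1 / 2) := fun k hk =>
    ⟨(hK.trans_le (wa_strictMono.monotone hk)).le, (wa_bd k).2.le⟩
  have hbI : ∀ k, K ≤ k → wb k ∈ Icc s0 (1 / 2) := fun k hk =>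
    ⟨(haI k hk).1.trans (wa_lt_wb k).le, (aa_bd k).2.le⟩
  have hTa : ∀ k, TT x (wa k) := fun k => ⟨k, 5 / 32, le_rfl, by norm_num, hx1.left, rfl⟩
  have hmono : StrictMonoOn ψ (Icc s0 (1 / 2)) := by
    rcases ContinuousOn.strictMonoOn_of_injOn_Icc' hs2.le hψc hinj with h | h
    · exact h
    · exfalso
      have h1 := h (haI K le_rfl) (right_mem_Icc.2 hs2.le) (wa_bd K).2
      rw [hψh] at h1
      have h2 := (hT _ (haI K le_rfl) (hTa K)).1
      linarith
  have heq : ∀ s ∈ Icc s0 (1 / 2), ψ (Gs s) = Gs (ψ s) := by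
    intro s hs
    have hGs := Gs_mem (show 0 ≤ s by linarith [hs.1]) hs.2
    have hs' : Gs s ∈ Icc s0 (1 / 2) := ⟨hs.1.trans hGs.1, hGs.2⟩
    have h1 := H_As hH ((s : T1), ((0 : ℝ) : T1))
    rw [As_step x (by linarith [hs.1]) (by linarith [hs.2]), show Gs 0 = 0 from Gs_zero] at h1
    have h2 : H (((Gs s : ℝ) : T1), ((0 : ℝ) : T1)) = ((ψ (Gs s) : T1), 0) := (hψ _ hs').1
    have h3 : H ((s : T1), ((0 : ℝ) : T1)) = ((ψ s : T1), ((0:ℝ) : T1)) := (hψ s hs).1
    rw [h2, h3, As_step y (by linarith [(hψ s hs).2.1]) (by linarith [(hψ s hs).2.2])] at h1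
    have h4 := congrArg Prod.fst h1
    simp only at h4
    have h5 : 0 ≤ Gs (ψ s) ∧ Gs (ψ s) ≤ 1 := by
      constructor
      · have := Gs_strictMono.monotone (show 0 ≤ ψ s by linarith [(hψ s hs).2.1])
        rwa [show Gs 0 = 0 from Gs_zero] at this
      · have := Gs_strictMono.monotone (show ψ s ≤ 0 + 1 by linarith [(hψ s hs).2.2])
        rw [Gs_add_one, show Gs 0 = 0 from Gs_zero] at this
        linarith
    have h6 := (hψ _ hs').2
    exact coe_inj h4 (by rw [abs_lt]; constructor <;> linarith [h5.1, h5.2, h6.1, h6.2])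
  -- intermediate values
  have hiv : ∀ l ∈ Icc s0 (1 / 2), ∀ u ∈ Icc s0 (1 / 2), l ≤ u → ∀ X, ψ l ≤ X → X ≤ ψ u →
      ∃ s ∈ Icc s0 (1 / 2), l ≤ s ∧ s ≤ u ∧ ψ s = X := by
    intro l hl u hu hlu X h1 h2
    obtain ⟨s, hs, hse⟩ := intermediate_value_Icc hlu (hψc.mono (Icc_subset_Icc hl.1 hu.2))
      ⟨h1, h2⟩
    exact ⟨s, ⟨hl.1.trans hs.1, hs.2.trans hu.2⟩, hs.1, hs.2, hse⟩
  -- outer gaps are mapped to outer gaps
  obtain ⟨η, hη0, hη1, hJa, hJb⟩ := hx1
  have claim : ∀ j, K ≤ j → ∃ m, ψ (wb j) = wb m ∧ ψ (wa (j + 1)) = wa (m + 1) := by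
    intro j hj
    have hbj := hbI j hj
    have haj := haI (j + 1) (by omega)
    -- the left interval
    set l := max (wa j) (Gs^[j] (3 / 16 - η)) with hl
    have hl1 : l < wb j := max_lt (wa_lt_wb j) ((Gs_strictMono.iterate j) (by linarith))
    have hlI : l ∈ Icc s0 (1 / 2) := ⟨(haI j hj).1.trans (le_max_left _ _), hl1.le.trans hbj.2⟩
    have hlT : ∀ s, l ≤ s → s ≤ wb j → TT x s := by
      intro s h1 h2
      have h3 : Gs^[j] (3 / 16 - η) ≤ s := (le_max_right _ _).trans h1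
      have h4 : 3 / 16 - η ≤ G^[j] s := by
        have := (G_iter_mono j).monotone h3
        rwa [G_Gs_iter] at this
      have h5 : G^[j] s ≤ 3 / 16 := by
        have := (G_iter_mono j).monotone h2
        rwa [show G^[j] (wb j) = 3 / 16 from G_Gs_iter j _] at this
      exact ⟨j, G^[j] s, by linarith, h5, hJb _ h4 h5, (Gs_G_iter j s).symm⟩
    set r := min (wb (j + 1)) (Gs^[j + 1] (5 / 32 + η)) with hr
    have hr1 : wa (j + 1) < r := lt_min (wa_lt_wb _) ((Gs_strictMono.iterate _) (by linarith))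
    have hrI : r ∈ Icc s0 (1 / 2) :=
      ⟨haj.1.trans hr1.le, (min_le_left _ _).trans (hbI (j + 1) (by omega)).2⟩
    have hrT : ∀ s, wa (j + 1) ≤ s → s ≤ r → TT x s := by
      intro s h1 h2
      have h3 : s ≤ Gs^[j + 1] (5 / 32 + η) := h2.trans (min_le_right _ _)
      have h4 : G^[j + 1] s ≤ 5 / 32 + η := by
        have := (G_iter_mono (j + 1)).monotone h3
        rwa [G_Gs_iter] at this
      have h5 : 5 / 32 ≤ G^[j + 1] s := by
        have := (G_iter_mono (j + 1)).monotone h1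
        rwa [show G^[j + 1] (wa (j + 1)) = 5 / 32 from G_Gs_iter (j + 1) _] at this
      exact ⟨j + 1, G^[j + 1] s, h5, by linarith, hJa _ h5 h4, (Gs_G_iter (j + 1) s).symm⟩
    refine outer_gap hy1 hy2 (hmono hlI hbj hl1) (hmono hbj haj (wb_lt_wa j))
      (hmono haj hrI hr1) ?_ ?_ ?_
    · intro X h1 h2
      obtain ⟨s, hs, h3, h4, rfl⟩ := hiv l hlI _ hbj hl1.le X h1 h2
      exact (hT s hs (hlT s h3 h4)).2
    · intro X h1 h2
      obtain ⟨s, hs, h3, h4, rfl⟩ := hiv _ haj r hrI hr1.le X h1 h2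
      exact (hT s hs (hrT s h3 h4)).2
    · intro X h1 h2 h3
      obtain ⟨s, hs, h4, h5, rfl⟩ := hiv _ hbj _ haj (wb_lt_wa j).le X h1.le h2.le
      obtain ⟨k, t, t1, t2, t3, rfl⟩ := hT' s hs h3
      have h6 : wb j < Gs^[k] t := (hmono.lt_iff_lt hbj hs).1 h1
      have h7 : Gs^[k] t < wa (j + 1) := (hmono.lt_iff_lt hs haj).1 h2
      have h8 : j < k := by
        by_contra hc
        have := wb_strictMono.monotone (not_lt.1 hc)
        linarith [it_le_wb (m := k) t2]
      have h9 := wa_strictMono.monotone (show j + 1 ≤ k from h8)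
      linarith [wa_le_it (m := k) t1]
  obtain ⟨m, hm1, hm2⟩ := claim K le_rfl
  have hm3 : ψ (wb (K + 1)) = wb (m + 1) := by
    have h1 : wb (K + 1) = Gs (wb K) := Function.iterate_succ_apply' Gs K _
    have h2 : wb (m + 1) = Gs (wb m) := Function.iterate_succ_apply' Gs m _
    rw [h1, heq _ (hbI K le_rfl), hm1, h2]
  have hI : ∀ t ∈ Icc (5 / 32 : ℝ) (3 / 16), Gs^[K + 1] t ∈ Icc s0 (1 / 2) := by
    intro t ht
    exact ⟨(haI (K + 1) (by omega)).1.trans (wa_le_it ht.1),
      (it_le_wb ht.2).trans (hbI (K + 1) (by omega)).2⟩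
  refine ⟨fun t => G^[m + 1] (ψ (Gs^[K + 1] t)), ?_, ?_, ?_, ?_, ?_⟩
  · intro a ha b hb hab
    exact (G_iter_mono (m + 1)) (hmono (hI a ha) (hI b hb) ((Gs_strictMono.iterate _) hab))
  · refine (G_continuous.iterate (m + 1)).comp_continuousOn ?_
    exact hψc.comp (Gs_continuous.iterate (K + 1)).continuousOn hI
  · show G^[m + 1] (ψ (wa (K + 1))) = _
    rw [hm2]
    exact G_Gs_iter (m + 1) _
  · show G^[m + 1] (ψ (wb (K + 1))) = _
    rw [hm3]
    exact G_Gs_iter (m + 1) _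
  · intro t h1 h2
    have hIt := hI t ⟨h1, h2⟩
    rw [← TT_iff x (k := K + 1) h1 h2]
    have e1 : ψ (Gs^[K + 1] t) = Gs^[m + 1] (G^[m + 1] (ψ (Gs^[K + 1] t))) :=
      (Gs_G_iter (m + 1) _).symm
    have b1 : wa (m + 1) ≤ ψ (Gs^[K + 1] t) := by
      rw [← hm2]
      exact hmono.monotoneOn (haI (K + 1) (by omega)) hIt (wa_le_it h1)
    have b2 : ψ (Gs^[K + 1] t) ≤ wb (m + 1) := by
      rw [← hm3]
      exact hmono.monotoneOn hIt (hbI (K + 1) (by omega)) (it_le_wb h2)
    have c1 : 5 / 32 ≤ G^[m + 1] (ψ (Gs^[K + 1] t)) := by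
      have := (G_iter_mono (m + 1)).monotone b1
      rwa [show G^[m + 1] (wa (m + 1)) = 5 / 32 from G_Gs_iter (m + 1) _] at this
    have c2 : G^[m + 1] (ψ (Gs^[K + 1] t)) ≤ 3 / 16 := by
      have := (G_iter_mono (m + 1)).monotone b2
      rwa [show G^[m + 1] (wb (m + 1)) = 3 / 16 from G_Gs_iter (m + 1) _] at this
    rw [← TT_iff y (k := m + 1) c1 c2, ← e1]
    exact ⟨fun h => (hT _ hIt h).2, hT' _ hIt⟩

end

end Pool.Agent.H50.AXA
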