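import Mathlib

/-!
# Systems of intervals indexed by a linear order
-/

open Set Filter Topology
open scoped ContDiff

namespace Pool.Agent.H50.AXA

/-- the bump -/
noncomputable def Bp (s : ℝ) : ℝ := Real.exp 4 * (expNegInvGlue s * expNegInvGlue (1 - s))

theorem Bp_contDiff : ContDiff ℝ ∞ Bp := by
  unfold Bp
  exact contDiff_const.mul (expNegInvGlue.contDiff.mul
    (expNegInvGlue.contDiff.comp (contDiff_const.sub contDiff_id)))

theorem Bp_nonneg (s : ℝ) : 0 ≤ Bp s :=
  mul_nonneg (Real.exp_pos _).le (mul_nonneg (expNegInvGlue.nonneg _) (expNegInvGlue.nonneg _))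

theorem Bp_pos {s : ℝ} (h0 : 0 < s) (h1 : s < 1) : 0 < Bp s :=
  mul_pos (Real.exp_pos _) (mul_pos (expNegInvGlue.pos_of_pos h0)
    (expNegInvGlue.pos_of_pos (by linarith)))

theorem Bp_zero_left {s : ℝ} (h : s ≤ 0) : Bp s = 0 := by
  unfold Bp
  rw [expNegInvGlue.zero_of_nonpos h, zero_mul, mul_zero]

theorem Bp_zero_right {s : ℝ} (h : 1 ≤ s) : Bp s = 0 := by
  unfold Bp
  rw [expNegInvGlue.zero_of_nonpos (x := 1 - s) (by linarith), mul_zero, mul_zero]

theorem Bp_le_one (s : ℝ) : Bp s ≤ 1 := by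
  rcases le_or_gt s 0 with h | h
  · rw [Bp_zero_left h]; exact zero_le_one
  rcases le_or_gt 1 s with h1 | h1
  · rw [Bp_zero_right h1]; exact zero_le_one
  · unfold Bp expNegInvGlue
    rw [if_neg (not_le.2 h), if_neg (by linarith), ← Real.exp_add, ← Real.exp_add,
      Real.exp_le_one_iff]
    have h2 : 0 < 1 - s := by linarith
    have h3 : (4:ℝ) ≤ s⁻¹ + (1 - s)⁻¹ := by
      rw [inv_eq_one_div, inv_eq_one_div, div_add_div _ _ h.ne' h2.ne', le_div_iff₀ (by positivity)]
      nlinarith [sq_nonneg (s - 1 / 2)]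
    linarith

theorem Bp_half : Bp (1 / 2) = 1 := by
  unfold Bp expNegInvGlue
  rw [if_neg (by norm_num), if_neg (by norm_num), ← Real.exp_add, ← Real.exp_add]
  norm_num

/-- lengths indexed by a linear order, of sum `1 / 2` -/
structure Sys (P : Type) [LinearOrder P] where
  l : P → ℝ
  pos : ∀ g, 0 < l g
  sum : HasSum l (1 / 2)

section

variable {P : Type} [LinearOrder P] (S : Sys P)

/-- the sum of the lengths over a set -/
noncomputable def Sys.on (s : Set P) : ℝ := ∑' g, s.indicator S.l g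

theorem Sys.summable_on (s : Set P) : Summable (s.indicator S.l) := S.sum.summable.indicator s

theorem Sys.ind_nonneg (s : Set P) (g : P) : 0 ≤ s.indicator S.l g :=
  Set.indicator_nonneg (fun g _ => (S.pos g).le) g

theorem Sys.on_nonneg (s : Set P) : 0 ≤ S.on s := tsum_nonneg (S.ind_nonneg s)

theorem Sys.on_mono {s t : Set P} (h : s ⊆ t) : S.on s ≤ S.on t :=
  (S.summable_on s).tsum_le_tsum
    (fun g => Set.indicator_le_indicator_of_subset h (fun g => (S.pos g).le) g) (S.summable_on t)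

theorem Sys.on_univ : S.on univ = 1 / 2 := by
  unfold Sys.on
  rw [indicator_univ]
  exact S.sum.tsum_eq

theorem Sys.on_union {s t : Set P} (h : Disjoint s t) : S.on (s ∪ t) = S.on s + S.on t := by
  unfold Sys.on
  rw [← (S.summable_on s).tsum_add (S.summable_on t)]
  congr 1
  funext g
  rw [Set.indicator_union_of_disjoint h]

theorem Sys.on_singleton (g : P) : S.on {g} = S.l g := by
  unfold Sys.on
  rw [tsum_eq_single g]
  · simp
  · intro g' hg'
    simp [hg']

/-- left ends -/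
noncomputable def Sys.a (g : P) : ℝ := 1 / 4 + S.on (Iio g)
/-- right ends -/
noncomputable def Sys.b (g : P) : ℝ := S.a g + S.l g

theorem Sys.a_lt_b (g : P) : S.a g < S.b g := by
  unfold Sys.b; linarith [S.pos g]

theorem Sys.b_eq (g : P) : S.b g = 1 / 4 + S.on (Iic g) := by
  unfold Sys.b Sys.a
  have : Iic g = Iio g ∪ {g} := by
    ext x
    simp [le_iff_lt_or_eq]
  rw [this, S.on_union (by simp), S.on_singleton]
  ring

theorem Sys.b_le_a {g g' : P} (h : g < g') : S.b g ≤ S.a g' := by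
  rw [S.b_eq]
  unfold Sys.a
  have := S.on_mono (show Iic g ⊆ Iio g' from fun x hx => lt_of_le_of_lt hx h)
  linarith

theorem Sys.b_eq_a {g g' : P} (h : g ⋖ g') : S.b g = S.a g' := by
  rw [S.b_eq]
  unfold Sys.a
  have : Iic g = Iio g' := by
    ext x
    simp only [mem_Iic, mem_Iio]
    exact ⟨fun hx => hx.trans_lt h.lt, fun hx => not_lt.1 fun hx' => h.2 hx' hx⟩
  rw [this]

theorem Sys.a_strictMono : StrictMono S.a := fun _ _ h => (S.a_lt_b _).trans_le (S.b_le_a h)

theorem Sys.a_ge (g : P) : 1 / 4 ≤ S.a g := by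
  unfold Sys.a; linarith [S.on_nonneg (Iio g)]

theorem Sys.b_le (g : P) : S.b g ≤ 3 / 4 := by
  rw [S.b_eq]
  have := S.on_mono (subset_univ (Iic g))
  rw [S.on_univ] at this
  linarith

theorem Sys.on_Ici (g : P) : S.on (Ici g) = 3 / 4 - S.a g := by
  have h : (univ : Set P) = Iio g ∪ Ici g := by
    ext x; simp [lt_or_ge]
  have h2 := S.on_union (s := Iio g) (t := Ici g) (by
    rw [Set.disjoint_left]
    intro x hx hx'
    exact absurd hx (not_lt.2 hx'))
  rw [← h, S.on_univ] at h2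
  unfold Sys.a
  linarith

theorem Sys.sum_le_on (s : Finset P) (t : Set P) (h : ∀ g ∈ s, g ∈ t) : ∑ g ∈ s, S.l g ≤ S.on t := by
  unfold Sys.on
  have h1 : ∑ g ∈ s, S.l g = ∑ g ∈ s, t.indicator S.l g :=
    Finset.sum_congr rfl fun g hg => (Set.indicator_of_mem (h g hg) _).symm
  rw [h1]
  exact (S.summable_on t).sum_le_tsum s fun g _ => S.ind_nonneg t g

/-- the intervals are dense in `[1/4, 3/4]` -/
theorem Sys.dense {x y : ℝ} (hx : 1 / 4 ≤ x) (hxy : x < y) (hy : y ≤ 3 / 4) :
    ∃ g, x < S.b g ∧ S.a g < y := by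
  classical
  by_contra hc
  push Not at hc
  have key : ∀ s : Finset P, ∑ g ∈ s, S.l g ≤ 1 / 2 - (y - x) := by
    intro s
    have h1 : ∑ g ∈ s.filter (fun g => S.b g ≤ x), S.l g ≤ x - 1 / 4 := by
      rcases (s.filter (fun g => S.b g ≤ x)).eq_empty_or_nonempty with h | h
      · rw [h, Finset.sum_empty]; linarith
      · set m := (s.filter (fun g => S.b g ≤ x)).max' h with hm
        have hm1 := Finset.max'_mem _ h
        have h2 := S.sum_le_on (s.filter (fun g => S.b g ≤ x)) (Iic m) fun g hg =>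
          Finset.le_max' _ g hg
        have h3 : S.b m ≤ x := (Finset.mem_filter.1 hm1).2
        rw [S.b_eq] at h3
        linarith
    have h2 : ∑ g ∈ s.filter (fun g => ¬ S.b g ≤ x), S.l g ≤ 3 / 4 - y := by
      rcases (s.filter (fun g => ¬ S.b g ≤ x)).eq_empty_or_nonempty with h | h
      · rw [h, Finset.sum_empty]; linarith
      · set m := (s.filter (fun g => ¬ S.b g ≤ x)).min' h with hm
        have hm1 := Finset.min'_mem _ h
        have h2 := S.sum_le_on (s.filter (fun g => ¬ S.b g ≤ x)) (Ici m) fun g hg =>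
          Finset.min'_le _ g hg
        have h3 : y ≤ S.a m := hc m (not_le.1 (Finset.mem_filter.1 hm1).2)
        rw [S.on_Ici] at h2
        linarith
    rw [← Finset.sum_filter_add_sum_filter_not s (fun g => S.b g ≤ x)]
    linarith
  have h3 : (1:ℝ) / 2 ≤ 1 / 2 - (y - x) := hasSum_le_of_sum_le S.sum key
  linarith

variable (Ht : P → ℝ)

/-- the sum of the bumps -/
noncomputable def Sys.D (s : ℝ) : ℝ := ∑' g, Ht g * Bp ((s - S.a g) / S.l g)

theorem Sys.bump_zero {g : P} {s : ℝ} (h : s ≤ S.a g ∨ S.b g ≤ s) : Bp ((s - S.a g) / S.l g) = 0 := by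
  have hp := S.pos g
  rcases h with h | h
  · exact Bp_zero_left (div_nonpos_of_nonpos_of_nonneg (by linarith) hp.le)
  · apply Bp_zero_right
    rw [le_div_iff₀ hp]
    unfold Sys.b at h
    linarith

theorem Sys.bump_pos {g : P} {s : ℝ} (h : S.a g < s) (h' : s < S.b g) :
    0 < Bp ((s - S.a g) / S.l g) := by
  have hp := S.pos g
  apply Bp_pos
  · exact div_pos (by linarith) hp
  · rw [div_lt_one hp]
    unfold Sys.b at h'
    linarith

theorem Sys.off_of_mem {g g' : P} {s : ℝ} (h : S.a g ≤ s) (h' : s ≤ S.b g) (hne : g' ≠ g) :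
    s ≤ S.a g' ∨ S.b g' ≤ s := by
  rcases lt_or_gt_of_ne hne with h1 | h1
  · right; exact (S.b_le_a h1).trans h
  · left; exact h'.trans (S.b_le_a h1)

theorem Sys.D_of_mem {g : P} {s : ℝ} (h : S.a g ≤ s) (h' : s ≤ S.b g) :
    S.D Ht s = Ht g * Bp ((s - S.a g) / S.l g) := by
  unfold Sys.D
  rw [tsum_eq_single g]
  intro g' hg'
  rw [S.bump_zero (S.off_of_mem h h' hg'), mul_zero]

theorem Sys.D_of_not {s : ℝ} (h : ∀ g, s ≤ S.a g ∨ S.b g ≤ s) : S.D Ht s = 0 := by
  unfold Sys.D
  have : (fun g => Ht g * Bp ((s - S.a g) / S.l g)) = fun _ => 0 := by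
    funext g
    rw [S.bump_zero (h g), mul_zero]
  rw [this, tsum_zero]

theorem Sys.cases (s : ℝ) : (∃ g, S.a g < s ∧ s < S.b g) ∨ ∀ g, s ≤ S.a g ∨ S.b g ≤ s := by
  by_cases h : ∃ g, S.a g < s ∧ s < S.b g
  · exact Or.inl h
  · right
    push Not at h
    intro g
    rcases le_or_gt s (S.a g) with h1 | h1
    · exact Or.inl h1
    · exact Or.inr (h g h1)

theorem Sys.D_ne_zero_iff {s : ℝ} : S.D Ht s ≠ 0 ↔ ∃ g, Ht g ≠ 0 ∧ S.a g < s ∧ s < S.b g := by
  constructor
  · intro h
    rcases S.cases s with ⟨g, h1, h2⟩ | h1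
    · refine ⟨g, ?_, h1, h2⟩
      rintro h3
      apply h
      rw [S.D_of_mem Ht h1.le h2.le, h3, zero_mul]
    · exact absurd (S.D_of_not Ht h1) h
  · rintro ⟨g, h1, h2, h3⟩
    rw [S.D_of_mem Ht h2.le h3.le]
    exact mul_ne_zero h1 (S.bump_pos h2 h3).ne'

theorem Sys.D_nonneg (hH : ∀ g, 0 ≤ Ht g) (s : ℝ) : 0 ≤ S.D Ht s :=
  tsum_nonneg fun g => mul_nonneg (hH g) (Bp_nonneg _)

theorem Sys.D_le {c : ℝ} (hc : 0 ≤ c) (hH : ∀ g, 0 ≤ Ht g) (hH' : ∀ g, Ht g ≤ c) (s : ℝ) :
    S.D Ht s ≤ c := by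
  rcases S.cases s with ⟨g, h1, h2⟩ | h1
  · rw [S.D_of_mem Ht h1.le h2.le]
    calc Ht g * Bp ((s - S.a g) / S.l g) ≤ Ht g * 1 :=
          mul_le_mul_of_nonneg_left (Bp_le_one _) (hH g)
      _ ≤ c := by rw [mul_one]; exact hH' g
  · rw [S.D_of_not Ht h1]; exact hc

theorem Sys.D_left {s : ℝ} (h : s ≤ 1 / 4) : S.D Ht s = 0 :=
  S.D_of_not Ht fun g => Or.inl (h.trans (S.a_ge g))

theorem Sys.D_right {s : ℝ} (h : 3 / 4 ≤ s) : S.D Ht s = 0 :=
  S.D_of_not Ht fun g => Or.inr ((S.b_le g).trans h)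

end

/-! ### The map induced by an isomorphism -/

/-- clamp -/
noncomputable def cl (u : ℝ) : ℝ := max 0 (min 1 u)

theorem cl_nonneg (u : ℝ) : 0 ≤ cl u := le_max_left _ _
theorem cl_le_one (u : ℝ) : cl u ≤ 1 := max_le zero_le_one (min_le_left _ _)
theorem cl_mono : Monotone cl := fun u v h => max_le_max le_rfl (min_le_min le_rfl h)
theorem cl_zero {u : ℝ} (h : u ≤ 0) : cl u = 0 := max_eq_left ((min_le_right _ _).trans h)
theorem cl_one {u : ℝ} (h : 1 ≤ u) : cl u = 1 := by
  unfold cl; rw [min_eq_left h]; norm_num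
theorem cl_mid {u : ℝ} (h : 0 ≤ u) (h' : u ≤ 1) : cl u = u := by
  unfold cl; rw [min_eq_right h', max_eq_right h]
theorem cl_lt {u v : ℝ} (huv : u < v) (hu : u < 1) (hv : 0 < v) : cl u < cl v := by
  unfold cl
  rcases le_total u 0 with h | h
  · rw [min_eq_right hu.le, max_eq_left h]
    exact lt_max_of_lt_right (lt_min one_pos hv)
  · rw [min_eq_right hu.le, max_eq_right h]
    exact lt_max_of_lt_right (lt_min hu huv)
theorem cl_continuous : Continuous cl := by unfold cl; fun_prop

/-- a family of changes of variables of the unit interval -/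
structure Rep {P : Type} (β : P → ℝ → ℝ) : Prop where
  cont : ∀ g, Continuous (β g)
  mono : ∀ g, StrictMono (β g)
  zero : ∀ g, β g 0 = 0
  one : ∀ g, β g 1 = 1

section

variable {P : Type} {β : P → ℝ → ℝ} (R : Rep β)

include R

theorem Rep.nonneg (g : P) (u : ℝ) : 0 ≤ β g (cl u) := by
  rw [← R.zero g]; exact (R.mono g).monotone (cl_nonneg u)
theorem Rep.le_one (g : P) (u : ℝ) : β g (cl u) ≤ 1 := by
  rw [← R.one g]; exact (R.mono g).monotone (cl_le_one u)
theorem Rep.eq_zero (g : P) {u : ℝ} (h : u ≤ 0) : β g (cl u) = 0 := by rw [cl_zero h, R.zero]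
theorem Rep.eq_one (g : P) {u : ℝ} (h : 1 ≤ u) : β g (cl u) = 1 := by rw [cl_one h, R.one]

end

section

variable {P P' : Type} [LinearOrder P] [LinearOrder P'] (S : Sys P) (S' : Sys P') (F : P ≃o P')
  (β : P → ℝ → ℝ)

/-- the induced map -/
noncomputable def hh (s : ℝ) : ℝ :=
  min s (1 / 4) + (∑' g, S'.l (F g) * β g (cl ((s - S.a g) / S.l g))) + max (s - 3 / 4) 0

theorem sumF : HasSum (fun g => S'.l (F g)) (1 / 2) :=
  (F.toEquiv.hasSum_iff (f := S'.l)).2 S'.sum

variable {β} (R : Rep β)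

include R

theorem hh_summable (s : ℝ) : Summable fun g => S'.l (F g) * β g (cl ((s - S.a g) / S.l g)) :=
  Summable.of_nonneg_of_le (fun g => mul_nonneg (S'.pos _).le (R.nonneg g _))
    (fun g => by
      have := mul_le_mul_of_nonneg_left (R.le_one g ((s - S.a g) / S.l g)) (S'.pos (F g)).le
      rwa [mul_one] at this) (sumF S' F).summable

theorem hh_continuous : Continuous (hh S S' F β) := by
  unfold hh
  refine (Continuous.add (by fun_prop) ?_).add (by fun_prop)
  refine continuous_tsum (u := fun g => S'.l (F g)) (fun g => ?_) (sumF S' F).summable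
    (fun g s => ?_)
  · exact continuous_const.mul ((R.cont g).comp (cl_continuous.comp (by fun_prop)))
  · rw [Real.norm_of_nonneg (mul_nonneg (S'.pos _).le (R.nonneg g _))]
    have := mul_le_mul_of_nonneg_left (R.le_one g ((s - S.a g) / S.l g)) (S'.pos (F g)).le
    rwa [mul_one] at this

omit R in
theorem arg_le_zero {g : P} {s : ℝ} (h : s ≤ S.a g) : (s - S.a g) / S.l g ≤ 0 :=
  div_nonpos_of_nonpos_of_nonneg (by linarith) (S.pos g).le

omit R in
theorem one_le_arg {g : P} {s : ℝ} (h : S.b g ≤ s) : 1 ≤ (s - S.a g) / S.l g := by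
  rw [le_div_iff₀ (S.pos g)]
  unfold Sys.b at h
  linarith

theorem hh_low {s : ℝ} (h : s ≤ 1 / 4) : hh S S' F β s = s := by
  unfold hh
  have : (fun g => S'.l (F g) * β g (cl ((s - S.a g) / S.l g))) = fun _ => 0 := by
    funext g
    rw [R.eq_zero g (arg_le_zero S (h.trans (S.a_ge g))), mul_zero]
  rw [this, tsum_zero, min_eq_left h, max_eq_right (by linarith)]
  ring

theorem hh_high {s : ℝ} (h : 3 / 4 ≤ s) : hh S S' F β s = s := by
  unfold hh
  have : (fun g => S'.l (F g) * β g (cl ((s - S.a g) / S.l g))) = fun g => S'.l (F g) := by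
    funext g
    rw [R.eq_one g (one_le_arg S ((S.b_le g).trans h)), mul_one]
  rw [this, (sumF S' F).tsum_eq, min_eq_right (by linarith), max_eq_left (by linarith)]
  ring

theorem hh_strictMono : StrictMono (hh S S' F β) := by
  intro s t hst
  unfold hh
  have h1 : min s (1 / 4) ≤ min t (1 / 4) := min_le_min hst.le le_rfl
  have h3 : max (s - 3 / 4) 0 ≤ max (t - 3 / 4) 0 := max_le_max (by linarith) le_rfl
  have hle : ∀ g, S'.l (F g) * β g (cl ((s - S.a g) / S.l g)) ≤
      S'.l (F g) * β g (cl ((t - S.a g) / S.l g)) :=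
    fun g => mul_le_mul_of_nonneg_left ((R.mono g).monotone
      (cl_mono (div_le_div_of_nonneg_right (by linarith) (S.pos g).le))) (S'.pos _).le
  have h2 := (hh_summable S S' F R s).tsum_le_tsum hle (hh_summable S S' F R t)
  rcases lt_or_ge s (1 / 4) with hs | hs
  · have : min s (1 / 4) < min t (1 / 4) := by
      rw [min_eq_left hs.le]; exact lt_min hst hs
    linarith
  rcases lt_or_ge (3 / 4) t with ht | ht
  · have : max (s - 3 / 4) 0 < max (t - 3 / 4) 0 :=
      max_lt (lt_max_of_lt_left (by linarith)) (lt_max_of_lt_left (by linarith))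
    linarith
  obtain ⟨g, hg1, hg2⟩ := S.dense hs hst ht
  have hlt : S'.l (F g) * β g (cl ((s - S.a g) / S.l g)) <
      S'.l (F g) * β g (cl ((t - S.a g) / S.l g)) := by
    apply mul_lt_mul_of_pos_left _ (S'.pos _)
    have hp := S.pos g
    apply R.mono g
    apply cl_lt
    · exact div_lt_div_of_pos_right (by linarith) hp
    · rw [div_lt_one hp]; unfold Sys.b at hg1; linarith
    · exact div_pos (by linarith) hp
  have h4 := (hh_summable S S' F R s).tsum_lt_tsum hle hlt (hh_summable S S' F R t)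
  linarith

omit R in
theorem on_F (g : P) : (∑' g', (Iio g).indicator (fun g => S'.l (F g)) g') = S'.on (Iio (F g)) := by
  unfold Sys.on
  rw [← F.toEquiv.tsum_eq]
  congr 1
  funext g'
  by_cases h : g' < g
  · rw [Set.indicator_of_mem (show g' ∈ Iio g from h), Set.indicator_of_mem]
    · rfl
    · exact F.lt_iff_lt.2 h
  · rw [Set.indicator_of_notMem (show g' ∉ Iio g from h), Set.indicator_of_notMem]
    intro h'
    exact h (F.lt_iff_lt.1 h')

theorem hh_mem {g : P} {s : ℝ} (h : S.a g ≤ s) (h' : s ≤ S.b g) :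
    hh S S' F β s = S'.a (F g) + S'.l (F g) * β g ((s - S.a g) / S.l g) := by
  have hp := S.pos g
  have hs1 := S.a_ge g
  have hs2 := S.b_le g
  have e : (fun g' => S'.l (F g') * β g' (cl ((s - S.a g') / S.l g'))) =
      fun g' => (Iio g).indicator (fun g => S'.l (F g)) g' +
        ({g} : Set P).indicator (fun _ => S'.l (F g) * β g ((s - S.a g) / S.l g)) g' := by
    funext g'
    rcases lt_trichotomy g' g with h1 | h1 | h1
    · rw [Set.indicator_of_mem (show g' ∈ Iio g from h1), Set.indicator_of_notMem (by simp [h1.ne]),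
        R.eq_one g' (one_le_arg S ((S.b_le_a h1).trans h)), mul_one, add_zero]
    · subst h1
      rw [Set.indicator_of_notMem (by simp), Set.indicator_of_mem (by simp), zero_add, cl_mid]
      · exact div_nonneg (by linarith) hp.le
      · rw [div_le_one hp]; unfold Sys.b at h'; linarith
    · rw [Set.indicator_of_notMem (by simp [h1.le]), Set.indicator_of_notMem (by simp [h1.ne']),
        R.eq_zero g' (arg_le_zero S (h'.trans (S.b_le_a h1))), mul_zero, add_zero]
  unfold hh
  rw [e, Summable.tsum_add ((sumF S' F).summable.indicator _), on_F, tsum_eq_single g,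
    Set.indicator_of_mem (by simp), min_eq_right (by linarith), max_eq_right (by linarith)]
  · unfold Sys.a; ring
  · intro g' hg'
    exact Set.indicator_of_notMem (by simp [hg']) _
  · exact (hasSum_ite_eq g (S'.l (F g) * β g ((s - S.a g) / S.l g))).summable.congr fun g' => by
      by_cases h1 : g' = g
      · subst h1; simp
      · simp [h1]

theorem hh_surj_mem {g : P} {s : ℝ} (h : S'.a (F g) < hh S S' F β s)
    (h' : hh S S' F β s < S'.b (F g)) : S.a g < s ∧ s < S.b g := by
  have hm := hh_strictMono S S' F R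
  have e1 : hh S S' F β (S.a g) = S'.a (F g) := by
    rw [hh_mem S S' F R le_rfl (S.a_lt_b g).le]; simp [R.zero]
  have e2 : hh S S' F β (S.b g) = S'.b (F g) := by
    rw [hh_mem S S' F R (S.a_lt_b g).le le_rfl]
    unfold Sys.b
    rw [add_sub_cancel_left, div_self (S.pos g).ne', R.one, mul_one]
  rw [← e1] at h
  rw [← e2] at h'
  exact ⟨hm.lt_iff_lt.1 h, hm.lt_iff_lt.1 h'⟩

/-- the relation between the sums of bumps -/
theorem D_hh (Ht' : P' → ℝ) {g : P} {s : ℝ} (h : S.a g ≤ s) (h' : s ≤ S.b g) :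
    S'.D Ht' (hh S S' F β s) = Ht' (F g) * Bp (β g ((s - S.a g) / S.l g)) := by
  have hp := S.pos g
  have hp' := S'.pos (F g)
  have e := hh_mem S S' F R h h'
  have q0 : 0 ≤ β g ((s - S.a g) / S.l g) := by
    rw [← R.zero g]; exact (R.mono g).monotone (div_nonneg (by linarith) hp.le)
  have q1 : β g ((s - S.a g) / S.l g) ≤ 1 := by
    rw [← R.one g]
    apply (R.mono g).monotone
    rw [div_le_one hp]; unfold Sys.b at h'; linarith
  rw [S'.D_of_mem Ht' (g := F g)]
  · rw [e, add_sub_cancel_left, mul_div_cancel_left₀ _ hp'.ne']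
  · rw [e]
    have := mul_nonneg hp'.le q0
    linarith
  · rw [e]
    unfold Sys.b
    have := mul_le_mul_of_nonneg_left q1 hp'.le
    linarith

theorem D_hh_not (Ht' : P' → ℝ) {s : ℝ} (h : ∀ g, s ≤ S.a g ∨ S.b g ≤ s) :
    S'.D Ht' (hh S S' F β s) = 0 := by
  apply S'.D_of_not
  intro g'
  obtain ⟨g, rfl⟩ := F.surjective g'
  by_contra hc
  push Not at hc
  have := hh_surj_mem S S' F R hc.1 hc.2
  rcases h g with h1 | h1
  · linarith [this.1]
  · linarith [this.2]

end

end Pool.Agent.H50.AXA
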