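import Mathlib
import Pool.Agent.H50.AXA.Seq
import Pool.Agent.H50.AXA.Geo

/-!
# Weights and heights
-/

open Set Filter Topology
open Pool.Agent.H39.NonBorel

namespace Pool.Agent.H50.AXA

/-- eventually zero sequences -/
def EZ (x : ℕ → ℤ) : Prop := ∃ N, ∀ j ≥ N, x j = 0

theorem V.ez {i : ZMod 2} {x : ℕ → ℤ} (h : V i x) : EZ x := by
  rcases h with ⟨l, h⟩ | ⟨-, N, h⟩
  · exact ⟨l + 2, fun j hj => h.2.2.2.2 j (by omega)⟩
  · exact ⟨N, fun j hj => (h j hj).1⟩

/-- the length -/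
noncomputable def len (x : ℕ → ℤ) : ℕ := sInf {N | ∀ j ≥ N, x j = 0}

theorem len_spec {x : ℕ → ℤ} (h : EZ x) : ∀ j ≥ len x, x j = 0 := Nat.sInf_mem h

/-- code of a letter -/
def zc (c : ℤ) : ℕ := 2 * c.natAbs + (if c < 0 then 1 else 0)

theorem zc_inj {c d : ℤ} (h : zc c = zc d) : c = d := by
  unfold zc at h
  split_ifs at h <;> omega

/-- the list of the codes -/
noncomputable def lst (x : ℕ → ℤ) : List ℕ := (List.range (len x)).map fun j => zc (x j)

theorem lst_inj {x y : ℕ → ℤ} (hx : EZ x) (hy : EZ y) (h : lst x = lst y) : x = y := by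
  unfold lst at h
  have hl : len x = len y := by
    have := congrArg List.length h
    simpa using this
  rw [hl] at h
  have h2 := List.map_inj_left.1 h
  funext j
  rcases lt_or_ge j (len y) with hj | hj
  · exact zc_inj (h2 j (List.mem_range.2 hj))
  · rw [len_spec hy j hj, len_spec hx j (by omega)]

/-- the code -/
noncomputable def enc (x : ℕ → ℤ) : ℕ := Encodable.encode (lst x)

theorem enc_inj {x y : ℕ → ℤ} (hx : EZ x) (hy : EZ y) (h : enc x = enc y) : x = y :=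
  lst_inj hx hy (Encodable.encode_injective h)

theorem encode_le (m : ℕ) (L : List ℕ) : (∀ a ∈ L, a ≤ m) →
    Encodable.encode L + 2 ≤ (m + 3) ^ (2 ^ L.length) := by
  induction L with
  | nil =>
    intro _
    simp
  | cons a L ih =>
    intro h
    have h1 := ih fun b hb => h b (List.mem_cons_of_mem _ hb)
    have h2 := h a List.mem_cons_self
    set E := Encodable.encode L with hE
    have h3 : Encodable.encode (a :: L) = Nat.pair a E + 1 := by
      rw [Encodable.encode_list_cons]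
      rfl
    have h4 := Nat.pair_lt_max_add_one_sq a E
    set R := (m + 3) ^ (2 ^ L.length) with hR
    have h5 : m + 3 ≤ R := by
      calc m + 3 = (m + 3) ^ 1 := (pow_one _).symm
        _ ≤ R := Nat.pow_le_pow_right (by omega) Nat.one_le_two_pow
    have h6 : (m + 3) ^ (2 ^ (a :: L).length) = R ^ 2 := by
      rw [hR, ← pow_mul, List.length_cons, pow_succ]
    rw [h6, h3]
    have h7 : max a E + 1 ≤ R - 1 := by
      have : max a E ≤ R - 2 := max_le (by omega) (by omega)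
      omega
    obtain ⟨S, hS⟩ : ∃ S, R = S + 1 := ⟨R - 1, by omega⟩
    rw [hS] at h7 ⊢
    have h8 : (max a E + 1) ^ 2 ≤ S ^ 2 := Nat.pow_le_pow_left (by omega) 2
    have h9 : 2 ≤ S := by omega
    nlinarith

/-- the norm -/
noncomputable def nm (x : ℕ → ℤ) : ℝ :=
  ((∑ j ∈ Finset.range (len x), (x j).natAbs : ℕ) : ℝ) + 65536 ^ (len x + 1)

theorem nm_ge (x : ℕ → ℤ) : (65536:ℝ) ^ (len x + 1) ≤ nm x := by
  unfold nm
  have : (0:ℝ) ≤ ((∑ j ∈ Finset.range (len x), (x j).natAbs : ℕ) : ℝ) := Nat.cast_nonneg _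
  linarith

theorem nm_pos (x : ℕ → ℤ) : 0 < nm x := lt_of_lt_of_le (by positivity) (nm_ge x)

/-- fourth root of the norm -/
noncomputable def n4 (x : ℕ → ℤ) : ℝ := √(√(nm x))
/-- eighth root of the norm -/
noncomputable def n8 (x : ℕ → ℤ) : ℝ := √(n4 x)

theorem sqrt_ge {a b : ℝ} (ha : 0 ≤ a) {n : ℕ} (h : (a * a) ^ n ≤ b) : a ^ n ≤ √b := by
  rw [← Real.sqrt_sq (pow_nonneg ha n)]
  apply Real.sqrt_le_sqrt
  calc (a ^ n) ^ 2 = (a * a) ^ n := by rw [mul_pow]; ring
    _ ≤ b := h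

theorem sq_ge (x : ℕ → ℤ) : (256:ℝ) ^ (len x + 1) ≤ √(nm x) :=
  sqrt_ge (by norm_num) (by
    norm_num
    exact nm_ge x)

theorem n4_ge (x : ℕ → ℤ) : (16:ℝ) ^ (len x + 1) ≤ n4 x :=
  sqrt_ge (by norm_num) (by
    norm_num
    exact sq_ge x)

theorem n8_ge (x : ℕ → ℤ) : (4:ℝ) ^ (len x + 1) ≤ n8 x :=
  sqrt_ge (by norm_num) (by
    norm_num
    exact n4_ge x)

theorem n8_sq (x : ℕ → ℤ) : n8 x ^ 2 = n4 x := Real.sq_sqrt (Real.sqrt_nonneg _)
theorem n4_sq (x : ℕ → ℤ) : n4 x ^ 2 = √(nm x) := Real.sq_sqrt (Real.sqrt_nonneg _)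
theorem n8_4 (x : ℕ → ℤ) : n8 x ^ 4 = √(nm x) := by
  rw [← n4_sq, ← n8_sq]; ring
theorem n8_8 (x : ℕ → ℤ) : n8 x ^ 8 = nm x := by
  rw [show n8 x ^ 8 = (n8 x ^ 4) ^ 2 by ring, n8_4, Real.sq_sqrt (nm_pos x).le]

theorem four_le_n8 (x : ℕ → ℤ) : 4 ≤ n8 x := by
  refine le_trans ?_ (n8_ge x)
  calc (4:ℝ) = 4 ^ 1 := by norm_num
    _ ≤ _ := pow_le_pow_right₀ (by norm_num) (by omega)

theorem two_pow_le (x : ℕ → ℤ) : (2:ℝ) ^ len x ≤ n8 x := by
  refine le_trans ?_ (n8_ge x)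
  calc (2:ℝ) ^ len x ≤ 4 ^ len x := pow_le_pow_left₀ (by norm_num) (by norm_num) _
    _ ≤ _ := pow_le_pow_right₀ (by norm_num) (by omega)

theorem enc_le (x : ℕ → ℤ) : ((enc x : ℝ) + 2) ≤ (3 * nm x) ^ (2 ^ len x) := by
  set S : ℕ := ∑ j ∈ Finset.range (len x), (x j).natAbs with hS
  have h1 := encode_le (2 * S + 1) (lst x) (by
    intro a ha
    unfold lst at ha
    rw [List.mem_map] at ha
    obtain ⟨j, hj, rfl⟩ := ha
    rw [List.mem_range] at hj
    have h2 : (x j).natAbs ≤ S :=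
      Finset.single_le_sum (f := fun j => (x j).natAbs) (fun _ _ => Nat.zero_le _)
        (Finset.mem_range.2 hj)
    unfold zc
    split_ifs <;> omega)
  have hl : (lst x).length = len x := by unfold lst; simp
  rw [hl] at h1
  have h2 : ((enc x : ℝ) + 2) ≤ ((2 * (S:ℝ) + 1) + 3) ^ (2 ^ len x) := by
    have : ((enc x + 2 : ℕ) : ℝ) ≤ (((2 * S + 1 + 3) ^ (2 ^ len x) : ℕ) : ℝ) := by exact_mod_cast h1
    push_cast at this
    exact this
  refine h2.trans (pow_le_pow_left₀ (by positivity) ?_ _)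
  have h3 : nm x = (S : ℝ) + 65536 ^ (len x + 1) := rfl
  have h4 : (65536:ℝ) ≤ 65536 ^ (len x + 1) := by
    calc (65536:ℝ) = 65536 ^ 1 := by norm_num
      _ ≤ _ := pow_le_pow_right₀ (by norm_num) (by omega)
  have h5 : (0:ℝ) ≤ S := Nat.cast_nonneg _
  rw [h3]; linarith

theorem log_enc_le (x : ℕ → ℤ) : Real.log ((enc x : ℝ) + 2) ≤ 10 * n8 x ^ 2 := by
  have h8 := four_le_n8 x
  have hn := nm_pos x
  have h1 : Real.log ((enc x : ℝ) + 2) ≤ Real.log ((3 * nm x) ^ (2 ^ len x)) :=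
    Real.log_le_log (by positivity) (enc_le x)
  rw [Real.log_pow, Real.log_mul (by norm_num) hn.ne', ← n8_8, Real.log_pow] at h1
  have h2 : Real.log (n8 x) ≤ n8 x := (Real.log_le_sub_one_of_pos (by linarith)).trans (by linarith)
  have h3 : Real.log 3 ≤ 2 := by
    have := Real.log_le_sub_one_of_pos (show (0:ℝ) < 3 by norm_num)
    linarith
  have h4 := two_pow_le x
  have h5 : (0:ℝ) ≤ 2 ^ len x := by positivity
  push_cast at h1
  have h6 : Real.log 3 + 8 * Real.log (n8 x) ≤ 10 * n8 x := by linarith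
  have h7 : (0:ℝ) ≤ 10 * n8 x := by linarith
  calc Real.log ((enc x : ℝ) + 2) ≤ 2 ^ len x * (Real.log 3 + 8 * Real.log (n8 x)) := h1
    _ ≤ 2 ^ len x * (10 * n8 x) := mul_le_mul_of_nonneg_left h6 h5
    _ ≤ n8 x * (10 * n8 x) := mul_le_mul_of_nonneg_right h4 h7
    _ = _ := by ring

/-- the heights -/
noncomputable def Hg (x : ℕ → ℤ) : ℝ := Real.exp (-√(nm x)) / 8

theorem Hg_pos (x : ℕ → ℤ) : 0 < Hg x := div_pos (Real.exp_pos _) (by norm_num)

theorem Hg_le (x : ℕ → ℤ) : Hg x ≤ 1 / 8 := by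
  unfold Hg
  have : Real.exp (-√(nm x)) ≤ 1 := by
    rw [Real.exp_le_one_iff, neg_nonpos]; exact Real.sqrt_nonneg _
  linarith

/-- flatness -/
theorem flat (x : ℕ → ℤ) (k : ℕ) : Hg x * ((enc x : ℝ) + 2) ^ k ≤ Real.exp (25 * k ^ 2) := by
  have h1 := log_enc_le x
  have hpos : (0:ℝ) < (enc x : ℝ) + 2 := by positivity
  have h2 : ((enc x : ℝ) + 2) ^ k = Real.exp (k * Real.log ((enc x : ℝ) + 2)) := by
    rw [← Real.log_pow, Real.exp_log (by positivity)]
  have h3 : Hg x ≤ Real.exp (-√(nm x)) := by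
    unfold Hg
    have := Real.exp_pos (-√(nm x))
    linarith
  calc Hg x * ((enc x : ℝ) + 2) ^ k ≤ Real.exp (-√(nm x)) * Real.exp (k * Real.log ((enc x : ℝ) + 2)) := by
        rw [h2]
        exact mul_le_mul_of_nonneg_right h3 (Real.exp_pos _).le
    _ = Real.exp (-√(nm x) + k * Real.log ((enc x : ℝ) + 2)) := (Real.exp_add _ _).symm
    _ ≤ _ := by
        apply Real.exp_le_exp.2
        rw [← n8_4]
        have hk : (0:ℝ) ≤ k := Nat.cast_nonneg _
        have h4 := mul_le_mul_of_nonneg_left h1 hk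
        nlinarith [sq_nonneg (n8 x ^ 2 - 5 * k)]

/-! ### The systems of lengths -/

/-- weight -/
noncomputable def lw (n : ℕ) : ℝ := 1 / ((n : ℝ) + 2) ^ 2

theorem lw_pos (n : ℕ) : 0 < lw n := by unfold lw; positivity

theorem lw_summable : Summable lw := by
  have h := (Real.summable_one_div_nat_pow (p := 2)).2 (by norm_num)
  have h2 := (summable_nat_add_iff (f := fun n : ℕ => 1 / (n : ℝ) ^ 2) 2).2 h
  refine h2.congr fun n => ?_
  unfold lw
  push_cast
  rfl

/-- the code on the indices -/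
noncomputable def ePI {i : ZMod 2} (x : PI i) : ℕ := enc x.1.s

theorem ePI_inj (i : ZMod 2) : Function.Injective (ePI (i := i)) := by
  intro x y h
  apply Subtype.ext
  apply Q.ext'
  intro n
  rw [enc_inj x.2.ez y.2.ez h]

theorem lw_PI_summable (i : ZMod 2) : Summable fun x : PI i => lw (ePI x) :=
  lw_summable.comp_injective (ePI_inj i)

/-- the normalisation -/
noncomputable def Zi (i : ZMod 2) : ℝ := ∑' x : PI i, lw (ePI x)

/-- a sequence -/
def e0 : ℕ → ℤ := fun j => if j = 0 then 1 else 0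

theorem isG_e0 : isG 0 e0 := by
  have h := sz_ge 0 (e0 0)
  refine ⟨fun j hj => absurd hj (Nat.not_lt_zero j), rfl, le_rfl, ?_, fun j hj => ?_⟩
  · have : e0 (0 + 1) = 0 := rfl
    omega
  · exact if_neg (by omega)

/-- an index -/
def pi0 (i : ZMod 2) : PI i := ⟨⟨e0⟩, Or.inl ⟨0, isG_e0⟩⟩

theorem Zi_pos (i : ZMod 2) : 0 < Zi i :=
  (lw_PI_summable i).tsum_pos (fun _ => (lw_pos _).le) (pi0 i) (lw_pos _)

/-- the system of lengths -/
noncomputable def SY (i : ZMod 2) : Sys (PI i) where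
  l := fun x => lw (ePI x) * (1 / (2 * Zi i))
  pos := fun x => mul_pos (lw_pos _) (by have := Zi_pos i; positivity)
  sum := by
    have h := (lw_PI_summable i).hasSum.mul_right (1 / (2 * Zi i))
    have e : Zi i * (1 / (2 * Zi i)) = 1 / 2 := by
      have := (Zi_pos i).ne'
      field_simp
    rw [← e]
    exact h

theorem SY_l (i : ZMod 2) (x : PI i) : (SY i).l x = lw (ePI x) * (1 / (2 * Zi i)) := rfl

theorem SY_inv (i : ZMod 2) (x : PI i) : ((SY i).l x)⁻¹ = 2 * Zi i * ((ePI x : ℝ) + 2) ^ 2 := by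
  have := (Zi_pos i).ne'
  rw [SY_l]
  unfold lw
  field_simp

/-! ### The ratio of the heights -/

section

variable {l : ℕ} {x : ℕ → ℤ} (h : isG l x) (y : ℕ → ℕ)

include h

theorem len_gt : l < len x := by
  by_contra hcon
  push Not at hcon
  have h1 := len_spec (V.ez (i := 0) (Or.inl ⟨l, h⟩)) l hcon
  have := h.2.1
  omega

theorem len_Fm : len (Fm y x) = len x := by
  unfold len
  congr 1
  ext N
  have ho := h.2.1
  have ho' : Fm y x l % 2 = 1 := by rw [Fm_mod2]; exact ho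
  constructor
  · intro hN
    have hlN : l < N := by
      by_contra hcon
      have := hN l (by omega)
      omega
    intro j hj
    rw [← Fm_after (y := y) ho (show l < j by omega)]
    exact hN j hj
  · intro hN
    have hlN : l < N := by
      by_contra hcon
      have := hN l (by omega)
      omega
    intro j hj
    rw [Fm_after ho (show l < j by omega)]
    exact hN j hj

theorem nm_Fm : |nm (Fm y x) - nm x| ≤ 4 * len x := by
  unfold nm
  rw [len_Fm h y]
  rw [add_sub_add_right_eq_sub, Nat.cast_sum, Nat.cast_sum, ← Finset.sum_sub_distrib]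
  refine (Finset.abs_sum_le_sum_abs _ _).trans ?_
  calc ∑ j ∈ Finset.range (len x), |((Fm y x j).natAbs : ℝ) - ((x j).natAbs : ℝ)|
      ≤ ∑ j ∈ Finset.range (len x), (4:ℝ) := by
        refine Finset.sum_le_sum fun j _ => ?_
        have e : ∀ c : ℤ, ((c.natAbs : ℕ) : ℝ) = |(c : ℝ)| := fun c => by
          rw [Nat.cast_natAbs, Int.cast_abs]
        rw [e, e]
        refine (abs_abs_sub_abs_le _ _).trans ?_
        have : Fm y x j = x j + sh y (ac y x j) := rfl
        rw [this]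
        push_cast
        rw [add_sub_cancel_left]
        rcases sh_cases y (ac y x j) with h0 | h0 <;> rw [h0] <;> norm_num
    _ = 4 * len x := by
        rw [Finset.sum_const, Finset.card_range, nsmul_eq_mul, mul_comm]

theorem sqrt_Fm : |√(nm (Fm y x)) - √(nm x)| ≤ 1 / (4 * n4 x) := by
  have h1 := nm_Fm h y
  set n := nm x with hn
  set n' := nm (Fm y x) with hn'
  have hnpos : 0 < n := nm_pos x
  have hn'pos : 0 < n' := nm_pos _
  have hs := Real.sqrt_pos.2 hnpos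
  have hs' := Real.sqrt_pos.2 hn'pos
  have h4 := n4_ge x
  have h4pos : 0 < n4 x := lt_of_lt_of_le (by positivity) h4
  have e1 : (√n' - √n) * (√n' + √n) = n' - n := by
    have := Real.mul_self_sqrt hnpos.le
    have := Real.mul_self_sqrt hn'pos.le
    ring_nf
    rw [Real.sq_sqrt hnpos.le, Real.sq_sqrt hn'pos.le]
  have h5 : |√n' - √n| * √n ≤ 4 * len x := by
    calc |√n' - √n| * √n ≤ |√n' - √n| * (√n' + √n) :=
          mul_le_mul_of_nonneg_left (by linarith) (abs_nonneg _)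
      _ = |n' - n| := by rw [← e1, abs_mul, abs_of_pos (add_pos hs' hs)]
      _ ≤ _ := h1
  have h6 : (16:ℝ) * len x ≤ n4 x := by
    refine le_trans ?_ h4
    have : ((len x : ℕ) : ℝ) ≤ 16 ^ len x := by
      have := (Nat.lt_pow_self (n := len x) (show 1 < 16 by norm_num)).le
      exact_mod_cast this
    rw [pow_succ]
    linarith
  rw [le_div_iff₀ (by positivity)]
  have h8 : |√n' - √n| * n4 x * n4 x ≤ (1 / 4) * n4 x := by
    calc |√n' - √n| * n4 x * n4 x = |√n' - √n| * √n := by rw [mul_assoc, ← sq, n4_sq]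
      _ ≤ 4 * len x := h5
      _ ≤ _ := by linarith
  have h9 := le_of_mul_le_mul_right h8 h4pos
  linarith

theorem Hg_Fm : |Hg (Fm y x) - Hg x| ≤ Hg x * (1 / (2 * n4 x)) := by
  have h1 := sqrt_Fm h y
  have h4 := n4_ge x
  have h44 : (16:ℝ) ≤ n4 x := by
    refine le_trans ?_ h4
    calc (16:ℝ) = 16 ^ 1 := by norm_num
      _ ≤ _ := pow_le_pow_right₀ (by norm_num) (by omega)
  have h2 : 1 / (4 * n4 x) ≤ 1 := by
    rw [div_le_one (by linarith)]; linarith
  have h3 := Real.abs_exp_sub_one_le (x := -(√(nm (Fm y x)) - √(nm x))) (by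
    rw [abs_neg]; exact h1.trans h2)
  have e : Hg (Fm y x) - Hg x = Hg x * (Real.exp (-(√(nm (Fm y x)) - √(nm x))) - 1) := by
    unfold Hg
    rw [show -(√(nm (Fm y x)) - √(nm x)) = -√(nm (Fm y x)) + √(nm x) by ring, Real.exp_add,
      mul_sub, mul_one, div_mul_eq_mul_div, mul_comm (Real.exp (-√(nm (Fm y x)))), ← mul_assoc,
      ← Real.exp_add]
    simp
  rw [e, abs_mul, abs_of_pos (Hg_pos x)]
  refine mul_le_mul_of_nonneg_left (h3.trans ?_) (Hg_pos x).le
  rw [abs_neg]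
  calc 2 * |√(nm (Fm y x)) - √(nm x)| ≤ 2 * (1 / (4 * n4 x)) := by linarith
    _ = 1 / (2 * n4 x) := by
        have : n4 x ≠ 0 := by linarith
        field_simp
        norm_num

theorem Hg_ratio : |Hg (Fm y x) - Hg x| ≤ Hg x / 8 := by
  have h1 := Hg_Fm h y
  have h4 := n4_ge x
  have h44 : (16:ℝ) ≤ n4 x := by
    refine le_trans ?_ h4
    calc (16:ℝ) = 16 ^ 1 := by norm_num
      _ ≤ _ := pow_le_pow_right₀ (by norm_num) (by omega)
  have h2 : 1 / (2 * n4 x) ≤ 1 / 8 := one_div_le_one_div_of_le (by norm_num) (by linarith)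
  have := mul_le_mul_of_nonneg_left h2 (Hg_pos x).le
  linarith

end

theorem Hg_mod {ε : ℝ} (hε : 0 < ε) : ∃ r > 0, ∀ (l : ℕ) (x : ℕ → ℤ) (y : ℕ → ℕ), isG l x →
    Hg x < r → |Hg (Fm y x) - Hg x| ≤ ε * Hg x := by
  refine ⟨Real.exp (-(1 / (2 * ε)) ^ 2) / 8, by positivity, fun l x y h hr => ?_⟩
  have h1 := Hg_Fm h y
  have h2 : (1 / (2 * ε)) ^ 2 < √(nm x) := by
    unfold Hg at hr
    have h3 : Real.exp (-√(nm x)) < Real.exp (-(1 / (2 * ε)) ^ 2) := by linarith
    rw [Real.exp_lt_exp] at h3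
    linarith
  have h3 : 1 / (2 * ε) ≤ n4 x := by
    unfold n4
    exact Real.le_sqrt_of_sq_le h2.le
  have hpos : 0 < 1 / (2 * ε) := by positivity
  have h4 : 1 / (2 * n4 x) ≤ ε := by
    rw [div_le_iff₀ (by linarith)]
    rw [div_le_iff₀ (by positivity)] at h3
    linarith
  calc _ ≤ Hg x * (1 / (2 * n4 x)) := h1
    _ ≤ Hg x * ε := mul_le_mul_of_nonneg_left h4 (Hg_pos x).le
    _ = _ := mul_comm _ _

end Pool.Agent.H50.AXA
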