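import Mathlib
import Pool.Agent.H50.AXA.Wt
import Pool.Agent.H50.AXA.Win

/-!
# The smooth family of functions
-/

open Set Filter Topology
open scoped ContDiff
open Pool.Agent.H39.NonBorel
open Pool.Agent.H410R3.KS (PP)
open Pool.Agent.H410R3.AX (Sf Sf_contDiff Sf_periodic Sf_nonneg Sf_le_one Sf_zero Sf_pos Sf_one)

namespace Pool.Agent.H50.AXA

/-- product of bumps -/
noncomputable def BB (z : ℝ × ℝ) : ℝ := Bp z.1 * Bp z.2

theorem BB_contDiff : ContDiff ℝ ∞ BB :=
  (Bp_contDiff.comp contDiff_fst).mul (Bp_contDiff.comp contDiff_snd)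

theorem BB_supp : HasCompactSupport BB := by
  refine HasCompactSupport.intro (K := Icc 0 1 ×ˢ Icc 0 1) (isCompact_Icc.prod isCompact_Icc)
    (fun z hz => ?_)
  unfold BB
  have key : ∀ s : ℝ, s ∉ Icc (0:ℝ) 1 → Bp s = 0 := by
    intro s hs
    rcases lt_or_ge s 0 with h | h
    · exact Bp_zero_left h.le
    · apply Bp_zero_right
      by_contra hc
      exact hs ⟨h, (not_le.1 hc).le⟩
  by_cases h1 : z.1 ∈ Icc (0:ℝ) 1
  · rw [key z.2 fun h2 => hz ⟨h1, h2⟩, mul_zero]
  · rw [key z.1 h1, zero_mul]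

theorem BB_bdd (k : ℕ) : ∃ C, 0 ≤ C ∧ ∀ z, ‖iteratedFDeriv ℝ k BB z‖ ≤ C := by
  have hc : Continuous (iteratedFDeriv ℝ k BB) :=
    BB_contDiff.continuous_iteratedFDeriv (by exact_mod_cast le_top)
  obtain ⟨C, hC⟩ := hc.bounded_above_of_compact_support (BB_supp.iteratedFDeriv k)
  exact ⟨max C 0, le_max_right _ _, fun z => (hC z).trans (le_max_left _ _)⟩

/-- bounds -/
noncomputable def CB (k : ℕ) : ℝ := (BB_bdd k).choose
theorem CB_nonneg (k : ℕ) : 0 ≤ CB k := (BB_bdd k).choose_spec.1
theorem le_CB (k : ℕ) (z : ℝ × ℝ) : ‖iteratedFDeriv ℝ k BB z‖ ≤ CB k := (BB_bdd k).choose_spec.2 z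

/-- the linear map -/
noncomputable def MM (α β : ℝ) (n : ℕ) : (PP × ℝ) →L[ℝ] (ℝ × ℝ) :=
  (α • ((BoundedContinuousFunction.evalCLM ℝ n).comp (ContinuousLinearMap.fst ℝ PP ℝ))).prod
    (β • ContinuousLinearMap.snd ℝ PP ℝ)

theorem MM_apply (α β : ℝ) (n : ℕ) (q : PP × ℝ) : MM α β n q = (α * q.1 n, β * q.2) := by
  simp [MM]

theorem norm_MM_le {α β : ℝ} (hα : 0 ≤ α) (hβ : 0 ≤ β) (n : ℕ) : ‖MM α β n‖ ≤ α + β := by
  refine ContinuousLinearMap.opNorm_le_bound _ (by positivity) (fun q => ?_)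
  rw [MM_apply]
  have h1 : ‖q.2‖ ≤ ‖q‖ := norm_snd_le q
  have h2 : ‖q.1 n‖ ≤ ‖q‖ := (q.1.norm_coe_le_norm n).trans (norm_fst_le q)
  have h0 : 0 ≤ ‖q‖ := norm_nonneg q
  refine max_le ?_ ?_
  · rw [norm_mul, Real.norm_of_nonneg hα]
    have := mul_le_mul_of_nonneg_left h2 hα
    have := mul_nonneg hβ h0
    linarith
  · rw [norm_mul, Real.norm_of_nonneg hβ]
    have := mul_le_mul_of_nonneg_left h1 hβ
    have := mul_nonneg hα h0
    linarith

section

variable (i : ZMod 2)

/-- coefficients -/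
noncomputable def al (x : PI i) : ℝ := (lw (ePI x))⁻¹ / 2
/-- coefficients -/
noncomputable def be (x : PI i) : ℝ := ((SY i).l x)⁻¹

theorem al_nonneg (x : PI i) : 0 ≤ al i x := by
  unfold al; have := lw_pos (ePI x); positivity

theorem be_nonneg (x : PI i) : 0 ≤ be i x := by
  unfold be; have := (SY i).pos x; positivity

theorem al_be (x : PI i) : al i x + be i x = (1 / 2 + 2 * Zi i) * ((enc x.1.s : ℝ) + 2) ^ 2 := by
  unfold al be
  rw [SY_inv]
  have : (lw (ePI x))⁻¹ = ((enc x.1.s : ℝ) + 2) ^ 2 := by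
    unfold lw ePI
    rw [one_div, inv_inv]
  rw [this]
  unfold ePI
  ring

/-- the terms -/
noncomputable def tr (x : PI i) (q : PP × ℝ) : ℝ :=
  Hg x.1.s * BB (MM (al i x) (be i x) (ePI x) q + (0, -(be i x * (SY i).a x)))

theorem BBt_contDiff (c : ℝ) : ContDiff ℝ ∞ (fun z : ℝ × ℝ => BB (z + (0, -c))) :=
  BB_contDiff.comp (contDiff_id.add contDiff_const)

theorem tr_contDiff (x : PI i) : ContDiff ℝ ∞ (tr i x) :=
  contDiff_const.mul ((BBt_contDiff _).comp (MM (al i x) (be i x) (ePI x)).contDiff)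

theorem tr_bound (x : PI i) (k : ℕ) (q : PP × ℝ) :
    ‖iteratedFDeriv ℝ k (tr i x) q‖ ≤ Hg x.1.s * CB k * (al i x + be i x) ^ k := by
  set c := be i x * (SY i).a x with hc
  have h0 : ContDiff ℝ ∞ (Hg x.1.s • fun z : ℝ × ℝ => BB (z + (0, -c))) :=
    contDiff_const.smul (BBt_contDiff c)
  have h1 : tr i x = (Hg x.1.s • fun z : ℝ × ℝ => BB (z + (0, -c))) ∘
      MM (al i x) (be i x) (ePI x) := by
    funext q; rfl
  rw [h1, (MM (al i x) (be i x) (ePI x)).iteratedFDeriv_comp_right h0 q (i := k)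
    (by exact_mod_cast le_top)]
  refine (ContinuousMultilinearMap.norm_compContinuousLinearMap_le _ _).trans ?_
  rw [Finset.prod_const, Finset.card_univ, Fintype.card_fin]
  have h2 : ‖iteratedFDeriv ℝ k (Hg x.1.s • fun z : ℝ × ℝ => BB (z + (0, -c)))
      (MM (al i x) (be i x) (ePI x) q)‖ ≤ Hg x.1.s * CB k := by
    rw [iteratedFDeriv_const_smul_apply
      ((BBt_contDiff c).of_le (by exact_mod_cast le_top)).contDiffAt,
      norm_smul, Real.norm_of_nonneg (Hg_pos _).le, iteratedFDeriv_comp_add_right]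
    exact mul_le_mul_of_nonneg_left (le_CB k _) (Hg_pos _).le
  exact mul_le_mul h2 (pow_le_pow_left₀ (norm_nonneg _)
    (norm_MM_le (al_nonneg i x) (be_nonneg i x) _) k)
    (by positivity) (mul_nonneg (Hg_pos _).le (CB_nonneg k))

theorem tr_summable (k : ℕ) : Summable fun x : PI i => Hg x.1.s * CB k * (al i x + be i x) ^ k := by
  set K := 1 / 2 + 2 * Zi i with hK
  have hKpos : 0 ≤ K := by have := Zi_pos i; positivity
  have h1 : Summable fun x : PI i =>
      (CB k * K ^ k * Real.exp (25 * ((2 * k + 2 : ℕ) : ℝ) ^ 2)) * lw (ePI x) :=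
    (lw_PI_summable i).mul_left _
  refine Summable.of_nonneg_of_le (fun x => ?_) (fun x => ?_) h1
  · have := Hg_pos x.1.s
    have := CB_nonneg k
    have := al_nonneg i x
    have := be_nonneg i x
    positivity
  · rw [al_be, ← hK, mul_pow, ← pow_mul]
    have hf := flat x.1.s (2 * k + 2)
    have hpos : (0:ℝ) < (enc x.1.s : ℝ) + 2 := by positivity
    have h2 : Hg x.1.s * ((enc x.1.s : ℝ) + 2) ^ (2 * k) ≤
        Real.exp (25 * ((2 * k + 2 : ℕ) : ℝ) ^ 2) * lw (ePI x) := by
      unfold lw ePI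
      rw [mul_one_div, le_div_iff₀ (by positivity), mul_assoc, ← pow_add]
      exact hf
    calc Hg x.1.s * CB k * (K ^ k * ((enc x.1.s : ℝ) + 2) ^ (2 * k))
        = (CB k * K ^ k) * (Hg x.1.s * ((enc x.1.s : ℝ) + 2) ^ (2 * k)) := by ring
      _ ≤ (CB k * K ^ k) * (Real.exp (25 * ((2 * k + 2 : ℕ) : ℝ) ^ 2) * lw (ePI x)) :=
          mul_le_mul_of_nonneg_left h2 (mul_nonneg (CB_nonneg k) (pow_nonneg hKpos k))
      _ = _ := by ring

/-- the sum -/
noncomputable def Df (q : PP × ℝ) : ℝ := ∑' x, tr i x q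

theorem Df_contDiff : ContDiff ℝ ∞ (Df i) :=
  contDiff_tsum (v := fun k x => Hg x.1.s * CB k * (al i x + be i x) ^ k)
    (fun x => tr_contDiff i x) (fun k _ => tr_summable i k) (fun k x q _ => tr_bound i x k q)

/-- the heights, with a parameter -/
noncomputable def Ht (p : PP) (x : PI i) : ℝ := Hg x.1.s * Bp (al i x * p (ePI x))

theorem Ht_nonneg (p : PP) (x : PI i) : 0 ≤ Ht i p x := mul_nonneg (Hg_pos _).le (Bp_nonneg _)

theorem Ht_le (p : PP) (x : PI i) : Ht i p x ≤ 1 / 8 := by
  unfold Ht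
  calc Hg x.1.s * Bp (al i x * p (ePI x)) ≤ Hg x.1.s * 1 :=
        mul_le_mul_of_nonneg_left (Bp_le_one _) (Hg_pos _).le
    _ ≤ _ := by rw [mul_one]; exact Hg_le _

theorem Df_eq (p : PP) (s : ℝ) : Df i (p, s) = (SY i).D (Ht i p) s := by
  unfold Df Sys.D
  congr 1
  funext x
  unfold tr Ht BB
  rw [MM_apply]
  simp only [Prod.mk_add_mk, add_zero]
  rw [mul_assoc]
  congr 3
  unfold be
  rw [div_eq_inv_mul]
  ring

/-- the affine change of variables -/
noncomputable def ka (X : ℝ) : ℝ := 32 * X - 5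

/-- the functions `δ` -/
noncomputable def dlf (p : PP) (X : ℝ) : ℝ := 1 / 2 * Sf X + Df i (p, ka (Int.fract X))

theorem Df_zero (p : PP) {s : ℝ} (h : s ≤ 1 / 4 ∨ 3 / 4 ≤ s) : Df i (p, s) = 0 := by
  rw [Df_eq]
  rcases h with h | h
  · exact (SY i).D_left _ h
  · exact (SY i).D_right _ h

theorem dlf_contDiff : ContDiff ℝ ∞ (fun q : PP × ℝ => dlf i q.1 q.2) := by
  unfold dlf
  refine (contDiff_const.mul (Sf_contDiff.comp contDiff_snd)).add ?_
  rw [contDiff_iff_contDiffAt]
  rintro ⟨p0, X0⟩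
  set n := ⌊X0⌋ with hn
  have hsm : ContDiff ℝ ∞ (fun q : PP × ℝ => Df i (q.1, ka (q.2 - n))) := by
    refine (Df_contDiff i).comp (contDiff_fst.prodMk ?_)
    unfold ka
    exact (contDiff_const.mul (contDiff_snd.sub contDiff_const)).sub contDiff_const
  refine hsm.contDiffAt.congr_of_eventuallyEq ?_
  have h1 : (n : ℝ) ≤ X0 := Int.floor_le X0
  have h2 : X0 < n + 1 := Int.lt_floor_add_one X0
  have hopen : IsOpen {q : PP × ℝ | (n : ℝ) - 1 / 2 < q.2 ∧ q.2 < n + 1} :=
    (isOpen_lt continuous_const continuous_snd).inter (isOpen_lt continuous_snd continuous_const)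
  filter_upwards [hopen.mem_nhds (show (p0, X0) ∈ _ from ⟨by linarith, h2⟩)] with q hq
  obtain ⟨hq1, hq2⟩ := hq
  rcases le_or_gt (n : ℝ) q.2 with h | h
  · have : ⌊q.2⌋ = n := Int.floor_eq_iff.2 ⟨h, hq2⟩
    rw [Int.fract, this]
  · have : ⌊q.2⌋ = n - 1 := Int.floor_eq_iff.2 ⟨by push_cast; linarith, by push_cast; linarith⟩
    rw [Df_zero, Df_zero]
    · left; unfold ka; linarith
    · right
      rw [Int.fract, this]
      unfold ka
      push_cast
      linarith

theorem dlf_eq (p : PP) {X : ℝ} (h0 : 0 ≤ X) (h1 : X ≤ 1) :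
    dlf i p X = 1 / 2 * Sf X + Df i (p, ka X) := by
  unfold dlf
  rcases h1.lt_or_eq with h | h
  · rw [Int.fract_eq_self.2 ⟨h0, h⟩]
  · subst h
    rw [Int.fract_one, Df_zero i p (s := ka 0), Df_zero i p (s := ka 1)]
    · right; unfold ka; norm_num
    · left; unfold ka; norm_num

theorem dlf_win (p : PP) {X : ℝ} (h0 : 5 / 32 ≤ X) (h1 : X ≤ 3 / 16) :
    dlf i p X = Df i (p, ka X) := by
  rw [dlf_eq i p (by linarith) (by linarith), Sf_zero h0 h1]
  ring

theorem dlf_out (p : PP) {X : ℝ} (h0 : 0 ≤ X) (h1 : X ≤ 1) (h : X < 5 / 32 ∨ 3 / 16 < X) :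
    dlf i p X = 1 / 2 * Sf X := by
  rw [dlf_eq i p h0 h1, Df_zero, add_zero]
  unfold ka
  rcases h with h | h
  · left; linarith
  · right; linarith

theorem Df_nonneg (p : PP) (s : ℝ) : 0 ≤ Df i (p, s) := by
  rw [Df_eq]; exact (SY i).D_nonneg _ (Ht_nonneg i p) s

theorem Df_le (p : PP) (s : ℝ) : Df i (p, s) ≤ 1 / 8 := by
  rw [Df_eq]; exact (SY i).D_le _ (by norm_num) (Ht_nonneg i p) (Ht_le i p) s

theorem dlf_contDiff' (p : PP) : ContDiff ℝ ∞ (dlf i p) := by
  have h1 : ContDiff ℝ ∞ (fun x : ℝ => (p, x)) := contDiff_const.prodMk contDiff_id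
  have h2 := ContDiff.comp (g := fun q : PP × ℝ => dlf i q.1 q.2) (f := fun x : ℝ => (p, x))
    (dlf_contDiff i) h1
  exact h2

theorem dlf_cont (p : PP) : Continuous (dlf i p) := (dlf_contDiff' i p).continuous

/-- the functions `δ` as elements of `DL` -/
noncomputable def dl (p : PP) : DL where
  f := dlf i p
  cont := dlf_cont i p
  per X := by
    unfold dlf
    rw [Sf_periodic, Int.fract_add_one]
  nonneg X := by
    unfold dlf
    have := Sf_nonneg X
    have := Df_nonneg i p (ka (Int.fract X))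
    linarith
  le X := by
    unfold dlf
    have := Sf_le_one X
    have := Df_le i p (ka (Int.fract X))
    linarith
  half X h0 h1 h := by
    rw [dlf_out i p h0 h1 (by rcases h with h | h; left; linarith; right; linarith),
      Sf_one h0 h1 h, mul_one]
  pos X h0 h1 h := by
    rw [dlf_out i p h0 h1 h]
    have := Sf_pos h0 h1 h
    linarith
  zero := by
    rw [dlf_win i p (by norm_num) le_rfl]
    apply Df_zero
    right; unfold ka; norm_num

theorem dl_f (p : PP) (X : ℝ) : (dl i p).f X = dlf i p X := rfl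

theorem dl_J1 (p : PP) : J1 (dl i p) := by
  refine ⟨1 / 256, by norm_num, by norm_num, fun t h0 h1 => ?_, fun t h0 h1 => ?_⟩
  · rw [dl_f, dlf_win i p h0 (by linarith)]
    apply Df_zero
    left; unfold ka; linarith
  · rw [dl_f, dlf_win i p (by linarith) h1]
    apply Df_zero
    right; unfold ka; linarith

end

/-! ### The parameter -/

/-- the parameter in the Banach space -/
noncomputable def embB (b : ℕ → Bool) : PP :=
  BoundedContinuousFunction.ofNormedAddCommGroupDiscrete
    (fun n => lw n * (if b n = true then 1 else 0)) 1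
    (fun n => by
      have h2 : lw n ≤ 1 := by
        unfold lw
        rw [div_le_one (by positivity)]
        have : (0:ℝ) ≤ n := Nat.cast_nonneg n
        nlinarith
      have h1 := lw_pos n
      split_ifs
      · rw [mul_one, Real.norm_of_nonneg h1.le]; exact h2
      · simp)

theorem embB_apply (b : ℕ → Bool) (n : ℕ) : embB b n = lw n * (if b n = true then 1 else 0) := rfl

theorem embB_continuous : Continuous embB := by
  let dv : ℕ → PP := fun n => BoundedContinuousFunction.ofNormedAddCommGroupDiscrete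
    (fun m => if m = n then 1 else 0) 1 (fun m => by split_ifs <;> simp)
  have hdv : ∀ n, ‖dv n‖ ≤ 1 := fun n =>
    BoundedContinuousFunction.norm_ofNormedAddCommGroup_le _ zero_le_one _
  have hb : ∀ (b : ℕ → Bool) n, ‖(lw n * (if b n = true then (1:ℝ) else 0)) • dv n‖ ≤ lw n := by
    intro b n
    have h1 := lw_pos n
    have h2 : ‖lw n * (if b n = true then (1:ℝ) else 0)‖ ≤ lw n := by
      split_ifs
      · rw [mul_one, Real.norm_of_nonneg h1.le]
      · rw [mul_zero, norm_zero]; exact h1.le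
    rw [norm_smul]
    calc _ ≤ lw n * 1 := mul_le_mul h2 (hdv n) (norm_nonneg _) h1.le
      _ = _ := mul_one _
  have h1 : ∀ b, HasSum (fun n => (lw n * (if b n = true then (1:ℝ) else 0)) • dv n) (embB b) := by
    intro b
    have hs : Summable (fun n => (lw n * (if b n = true then (1:ℝ) else 0)) • dv n) :=
      Summable.of_norm_bounded lw_summable fun n => hb b n
    have he : ∑' n, (lw n * (if b n = true then (1:ℝ) else 0)) • dv n = embB b := by
      ext m
      have h2 := (BoundedContinuousFunction.evalCLM ℝ m : PP →L[ℝ] ℝ).map_tsum hs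
      simp only [BoundedContinuousFunction.evalCLM_apply] at h2
      rw [h2, tsum_eq_single m]
      · show (lw m * (if b m = true then (1:ℝ) else 0)) * (if m = m then (1:ℝ) else 0) = _
        rw [if_pos rfl, mul_one, embB_apply]
      · intro n hn
        show (lw n * (if b n = true then (1:ℝ) else 0)) * (if m = n then (1:ℝ) else 0) = 0
        rw [if_neg (Ne.symm hn), mul_zero]
    rw [← he]
    exact hs.hasSum
  have h2 : embB = fun b => ∑' n, (lw n * (if b n = true then (1:ℝ) else 0)) • dv n := by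
    funext b
    exact (h1 b).tsum_eq.symm
  rw [h2]
  refine continuous_tsum (u := lw) (fun n => ?_) lw_summable (fun n b => hb b n)
  have h3 : Continuous fun b : ℕ → Bool => (if b n = true then (1:ℝ) else 0) := by
    have : Continuous fun c : Bool => (if c = true then (1:ℝ) else 0) :=
      continuous_of_discreteTopology
    exact this.comp (continuous_apply n)
  exact (h3.const_mul (lw n)).smul continuous_const

section

variable (i : ZMod 2)

/-- the indices of the intervals where the function is positive -/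
noncomputable def onB (T : List ℕ → Bool) (n : ℕ) : Bool :=
  @decide (∃ x : PI i, ePI x = n ∧ on i T x.1.s) (Classical.propDecidable _)

theorem onB_iff (T : List ℕ → Bool) (n : ℕ) :
    onB i T n = true ↔ ∃ x : PI i, ePI x = n ∧ on i T x.1.s :=
  @decide_eq_true_iff _ (Classical.propDecidable _)

theorem onB_ePI (T : List ℕ → Bool) (x : PI i) : onB i T (ePI x) = true ↔ on i T x.1.s := by
  rw [onB_iff]
  constructor
  · rintro ⟨x', h1, h2⟩
    rwa [ePI_inj i h1] at h2
  · intro h
    exact ⟨x, rfl, h⟩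

theorem isClopen_on (x : ℕ → ℤ) : IsClopen {T : List ℕ → Bool | on i T x} := by
  by_cases h : ∃ l, isG l x
  · obtain ⟨l, hl⟩ := h
    have e : {T : List ℕ → Bool | on i T x} = {T | x (l + 1) < sz l (x l) ∨
        ((st i x l).2.2 = 0 ∧ T (st i x l).1 = false ∧ (st i x l).2.1 = 1)} := by
      ext T
      constructor
      · rintro ⟨l', h1, h2⟩
        obtain rfl := isG_unique hl h1
        exact h2
      · intro h2
        exact ⟨l, hl, h2⟩
    rw [e]
    by_cases h1 : x (l + 1) < sz l (x l)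
    · simp only [h1, true_or, ofPred_true]
      exact isClopen_univ
    · by_cases h2 : (st i x l).2.2 = 0 ∧ (st i x l).2.1 = 1
      · have e2 : {T : List ℕ → Bool | x (l + 1) < sz l (x l) ∨
            ((st i x l).2.2 = 0 ∧ T (st i x l).1 = false ∧ (st i x l).2.1 = 1)} =
            (fun T : List ℕ → Bool => T (st i x l).1) ⁻¹' {false} := by
          ext T
          simp only [mem_ofPred_eq, mem_preimage, mem_singleton_iff]
          tauto
        rw [e2]
        exact (isClopen_discrete {false}).preimage (continuous_apply _)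
      · have e2 : {T : List ℕ → Bool | x (l + 1) < sz l (x l) ∨
            ((st i x l).2.2 = 0 ∧ T (st i x l).1 = false ∧ (st i x l).2.1 = 1)} = ∅ := by
          ext T
          simp only [mem_ofPred_eq, mem_empty_iff_false]
          tauto
        rw [e2]
        exact isClopen_empty
  · have e : {T : List ℕ → Bool | on i T x} = ∅ := by
      ext T
      simp only [mem_ofPred_eq, mem_empty_iff_false, iff_false]
      rintro ⟨l, hl, -⟩
      exact h ⟨l, hl⟩
    rw [e]
    exact isClopen_empty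

theorem onB_continuous : Continuous (onB i) := by
  refine continuous_pi fun n => ?_
  rw [continuous_bool_rng true]
  by_cases h : ∃ x : PI i, ePI x = n
  · obtain ⟨x, rfl⟩ := h
    have : (fun T => onB i T (ePI x)) ⁻¹' {true} = {T | on i T x.1.s} := by
      ext T
      exact onB_ePI i T x
    rw [this]
    exact isClopen_on i x.1.s
  · have : (fun T => onB i T n) ⁻¹' {true} = ∅ := by
      ext T
      simp only [mem_preimage, mem_singleton_iff, mem_empty_iff_false, iff_false]
      rw [onB_iff]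
      rintro ⟨x, hx, -⟩
      exact h ⟨x, hx⟩
    rw [this]
    exact isClopen_empty

/-- the parameter of a tree -/
noncomputable def pT (T : List ℕ → Bool) : PP := embB (onB i T)

theorem pT_continuous : Continuous (pT i) := embB_continuous.comp (onB_continuous i)

open Classical in
theorem Ht_pT (T : List ℕ → Bool) (x : PI i) :
    Ht i (pT i T) x = if on i T x.1.s then Hg x.1.s else 0 := by
  unfold Ht pT al
  rw [embB_apply]
  have h := (lw_pos (ePI x)).ne'
  by_cases ho : on i T x.1.s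
  · rw [if_pos ho, if_pos ((onB_ePI i T x).2 ho)]
    have : (lw (ePI x))⁻¹ / 2 * (lw (ePI x) * 1) = 1 / 2 := by
      field_simp
    rw [this, Bp_half, mul_one]
  · rw [if_neg ho, if_neg (fun h' => ho ((onB_ePI i T x).1 h'))]
    rw [mul_zero, mul_zero, Bp_zero_left le_rfl, mul_zero]

theorem Ht_pT_ne (T : List ℕ → Bool) (x : PI i) : Ht i (pT i T) x ≠ 0 ↔ on i T x.1.s := by
  rw [Ht_pT]
  have := Hg_pos x.1.s
  split_ifs with h
  · exact ⟨fun _ => h, fun _ => this.ne'⟩
  · exact ⟨fun h' => absurd rfl h', fun h' => absurd h' h⟩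

end

end Pool.Agent.H50.AXA
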