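import Mathlib
import Pool.Agent.H50.AXA.Fam

/-!
# The diffeomorphisms of the torus
-/

open Set Filter Topology
open scoped Manifold ContDiff
open Pool.Agent.Helper114.AB
open Pool.Agent.H410R3.AX (G G_contDiff G_continuous GH GH_symm_contDiff gc gc_coe gc_symm_coe
  fam_continuous HH)
open Pool.Agent.H410R3.KS

namespace Pool.Agent.H50.AXA

variable (i : ZMod 2)

theorem thF_contDiff : ContDiff ℝ ∞ (fun q : PP × ℝ => th (dl i q.1) q.2) :=
  contDiff_const.sub (dlf_contDiff i)

theorem thF_contDiff' (p : PP) : ContDiff ℝ ∞ (th (dl i p)) :=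
  contDiff_const.sub (dlf_contDiff' i p)

theorem A_symm_coe (p : PP) (s t : ℝ) :
    (A (dl i p)).symm ((s : T1), (t : T1)) =
      (((GH.symm s : ℝ) : T1), ((GH.symm (t - th (dl i p) (GH.symm s)) : ℝ) : T1)) := by
  rw [A_symm_apply]
  simp only [gc_symm_coe, thc_coe, ← AddCircle.coe_sub]

theorem AF_smooth : ContMDiff (𝓘(ℝ, PP).prod II) II ∞
    (fun q : PP × CC => EM (A (dl i q.1) (EM.symm q.2))) := by
  refine descend (fun q : PP × (ℝ × ℝ) => (G q.2.1, G q.2.2 + th (dl i q.1) q.2.1)) ?_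
    (fun p => A (dl i p)) ?_
  · have e1 : ContDiff ℝ ∞ (fun q : PP × (ℝ × ℝ) => q.2.1) := contDiff_fst.comp contDiff_snd
    have e2 : ContDiff ℝ ∞ (fun q : PP × (ℝ × ℝ) => q.2.2) := contDiff_snd.comp contDiff_snd
    have e3 : ContDiff ℝ ∞ (fun q : PP × (ℝ × ℝ) => G q.2.1) := G_contDiff.comp e1
    have e4 : ContDiff ℝ ∞ (fun q : PP × (ℝ × ℝ) => G q.2.2) := G_contDiff.comp e2
    have e5 : ContDiff ℝ ∞ (fun q : PP × (ℝ × ℝ) => (q.1, q.2.1)) := contDiff_fst.prodMk e1
    have e6 := ContDiff.comp (g := fun q : PP × ℝ => th (dl i q.1) q.2)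
      (f := fun q : PP × (ℝ × ℝ) => (q.1, q.2.1)) (thF_contDiff i) e5
    exact e3.prodMk (e4.add e6)
  · intro a v
    exact A_coe (dl i a) v.1 v.2

theorem AF_smooth' (p : PP) : ContMDiff II II ∞ (fun q : CC => EM (A (dl i p) (EM.symm q))) := by
  have h2 : ContMDiff II (𝓘(ℝ, PP).prod II) ∞ (fun q : CC => (p, q)) :=
    contMDiff_const.prodMk contMDiff_id
  have h := AF_smooth i
  have h3 := ContMDiff.comp (g := fun q : PP × CC => EM (A (dl i q.1) (EM.symm q.2))) h h2
  exact h3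

theorem AF_symm_smooth (p : PP) : ContMDiff II II ∞
    (fun q : CC => EM ((A (dl i p)).symm (EM.symm q))) := by
  have h : ContMDiff (𝓘(ℝ, PP).prod II) II ∞
      (fun q : PP × CC => EM ((A (dl i p)).symm (EM.symm q.2))) := by
    refine descend (fun q : PP × (ℝ × ℝ) =>
      (GH.symm q.2.1, GH.symm (q.2.2 - th (dl i p) (GH.symm q.2.1)))) ?_
      (fun _ => (A (dl i p)).symm) ?_
    · have h1 : ContDiff ℝ ∞ (fun q : PP × (ℝ × ℝ) => GH.symm q.2.1) :=
        GH_symm_contDiff.comp (contDiff_fst.comp contDiff_snd)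
      refine ContDiff.prodMk h1 ?_
      refine GH_symm_contDiff.comp ((contDiff_snd.comp contDiff_snd).sub ?_)
      exact (thF_contDiff' i p).comp h1
    · intro a v
      exact A_symm_coe i p v.1 v.2
  have h2 : ContMDiff II (𝓘(ℝ, PP).prod II) ∞ (fun q : CC => ((0 : PP), q)) :=
    contMDiff_const.prodMk contMDiff_id
  have h3 := ContMDiff.comp (g := fun q : PP × CC => EM ((A (dl i p)).symm (EM.symm q.2))) h h2
  exact h3

/-- the diffeomorphisms of the torus -/
noncomputable def dF (p : PP) : DiffR II CC ⊤ :=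
  { toEquiv := (EM.symm.trans ((A (dl i p)).trans EM)).toEquiv
    contMDiff_toFun := AF_smooth' i p
    contMDiff_invFun := AF_symm_smooth i p }

theorem dF_map (p : PP) (q : CC) : (dF i p).map q = EM (A (dl i p) (EM.symm q)) := rfl

theorem dF_inv (p : PP) (q : CC) : (dF i p).inv q = EM ((A (dl i p)).symm (EM.symm q)) := rfl

theorem dF_continuous : @Continuous _ _ _ (crTopology II CC ⊤) (dF i) :=
  fam_continuous (fun q : PP × CC => EM (A (dl i q.1) (EM.symm q.2))) (AF_smooth i) (dF i)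
    fun _ _ => rfl

/-- conjugacy -/
theorem conjF_iff (j : ZMod 2) (p p' : PP) :
    TopConj (dF i p).map (dF j p').map ↔
      ∃ H : T2 ≃ₜ T2, ∀ q, H (A (dl i p) q) = A (dl j p') (H q) := by
  constructor
  · rintro ⟨h, hh⟩
    refine ⟨EM.trans (h.trans EM.symm), fun q => ?_⟩
    have h1 := hh (EM q)
    have e1 : (dF i p).map (EM q) = EM (A (dl i p) q) := by
      show EM (A (dl i p) (EM.symm (EM q))) = _
      rw [EM.symm_apply_apply]
    rw [e1] at h1
    simp only [Homeomorph.trans_apply]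
    rw [h1]
    show EM.symm (EM (A (dl j p') (EM.symm (h (EM q))))) = _
    rw [EM.symm_apply_apply]
  · rintro ⟨H, hH⟩
    refine ⟨EM.symm.trans (H.trans EM), fun x => ?_⟩
    simp only [Homeomorph.trans_apply]
    have e1 : EM.symm ((dF i p).map x) = A (dl i p) (EM.symm x) := by
      show EM.symm (EM (A (dl i p) (EM.symm x))) = _
      rw [EM.symm_apply_apply]
    rw [e1, hH]
    show _ = EM (A (dl j p') (EM.symm (EM (H (EM.symm x)))))
    rw [EM.symm_apply_apply]

end Pool.Agent.H50.AXA
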