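import Mathlib
import Pool.Agent.H50.AXA.Comb
import Pool.Agent.H50.AXA.TorF
import Pool.Agent.H50.AXA.Conj

/-!
# A conjugacy gives a branch
-/

open Set Filter Topology
open Pool.Agent.H39.NonBorel
open Pool.Agent.Helper114.AB
open Pool.Agent.H410R3.KS

namespace Pool.Agent.H50.AXA

section

variable {i : ZMod 2}

theorem cov_PI {g g' : PI i} {l : ℕ} (h : isG l g.1.s)
    (h' : isG l g'.1.s) (ha : ∀ j ≤ l, g.1.s j = g'.1.s j)
    (hp : g'.1.s (l + 1) = g.1.s (l + 1) + 1) : g ⋖ g' := by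
  constructor
  · show g.1 < g'.1
    exact (lt_same h h' ha).2 (by omega)
  · intro k hgk hkg'
    have h1 : g.1 < k.1 := hgk
    have h2 : k.1 < g'.1 := hkg'
    have hb := ag_between (n := l + 1) h1 h2.le (fun j hj => ha j (by omega))
    have hk : isG l k.1.s := by
      rcases k.2 with hk | hk
      · exact isG_of_ag h hk fun j hj => hb j (by omega)
      · exfalso
        have e1 := hk.1 l
        rw [hb l (by omega)] at e1
        have := h.2.1
        omega
    have e1 := (lt_same h hk fun j hj => (hb j (by omega)).symm).1 h1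
    have e2 := (lt_same hk h' fun j hj => by rw [hb j (by omega), ha j hj]).1 h2
    omega

/-- the function on the unit interval -/
noncomputable def DT (i : ZMod 2) (T : List ℕ → Bool) (s : ℝ) : ℝ := (SY i).D (Ht i (pT i T)) s

theorem DT_ne_iff (i : ZMod 2) (T : List ℕ → Bool) (s : ℝ) :
    DT i T s ≠ 0 ↔ ∃ g : PI i, on i T g.1.s ∧ (SY i).a g < s ∧ s < (SY i).b g := by
  unfold DT
  rw [Sys.D_ne_zero_iff]
  refine exists_congr fun g => ?_
  rw [Ht_pT_ne]

theorem DT_zero_a (T : List ℕ → Bool) (g : PI i) : DT i T ((SY i).a g) = 0 := by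
  unfold DT
  rw [(SY i).D_of_mem _ le_rfl ((SY i).a_lt_b g).le, (SY i).bump_zero (Or.inl le_rfl), mul_zero]

theorem DT_zero_b (T : List ℕ → Bool) (g : PI i) : DT i T ((SY i).b g) = 0 := by
  unfold DT
  rw [(SY i).D_of_mem _ ((SY i).a_lt_b g).le le_rfl, (SY i).bump_zero (Or.inr le_rfl), mul_zero]

theorem DT_off (T : List ℕ → Bool) {g : PI i} (h : ¬ on i T g.1.s) {s : ℝ}
    (h1 : (SY i).a g ≤ s) (h2 : s ≤ (SY i).b g) : DT i T s = 0 := by
  unfold DT
  rw [(SY i).D_of_mem _ h1 h2]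
  have : Ht i (pT i T) g = 0 := by
    by_contra hc
    exact h ((Ht_pT_ne i T g).1 hc)
  rw [this, zero_mul]

theorem dl_win (T : List ℕ → Bool) {t : ℝ} (h0 : 5 / 32 ≤ t) (h1 : t ≤ 3 / 16) :
    (dl i (pT i T)).f t = DT i T (ka t) := by
  rw [dl_f, dlf_win _ _ h0 h1, Df_eq]
  rfl

theorem gap_eq {T : List ℕ → Bool} {u v : ℝ} (huv : u < v) (hu : DT i T u = 0)
    (hv : DT i T v = 0) (h : ∀ s, u < s → s < v → DT i T s ≠ 0) :
    ∃ g : PI i, on i T g.1.s ∧ (SY i).a g = u ∧ (SY i).b g = v := by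
  obtain ⟨g, hg, h1, h2⟩ := (DT_ne_iff i T ((u + v) / 2)).1 (h _ (by linarith) (by linarith))
  refine ⟨g, hg, le_antisymm ?_ ?_, le_antisymm ?_ ?_⟩
  · by_contra hc
    push Not at hc
    exact h _ hc (by linarith) (DT_zero_a T g)
  · by_contra hc
    push Not at hc
    exact (DT_ne_iff i T u).2 ⟨g, hg, hc, by linarith⟩ hu
  · by_contra hc
    push Not at hc
    exact (DT_ne_iff i T v).2 ⟨g, hg, by linarith, hc⟩ hv
  · by_contra hc
    push Not at hc
    exact h _ (by linarith) hc (DT_zero_b T g)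

theorem dl_J2 (T : List ℕ → Bool) : J2 (dl i (pT i T)) := by
  intro l u v r hl hlu huv hvr hr h1 h2 h3
  have hka : ∀ s : ℝ, ka ((s + 5) / 32) = s := fun s => by unfold ka; ring
  have hk : StrictMono ka := fun s t hst => by unfold ka; linarith
  have hu : DT i T (ka u) = 0 := by
    rw [← dl_win T (by linarith) (by linarith)]; exact h1 u hlu.le le_rfl
  have hv : DT i T (ka v) = 0 := by
    rw [← dl_win T (by linarith) (by linarith)]; exact h2 v le_rfl hvr.le
  obtain ⟨g, hg, e1, e2⟩ := gap_eq (hk huv) hu hv fun s hs1 hs2 => by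
    have a1 : u < (s + 5) / 32 := hk.lt_iff_lt.1 (by rw [hka]; exact hs1)
    have a2 : (s + 5) / 32 < v := hk.lt_iff_lt.1 (by rw [hka]; exact hs2)
    rw [← hka s, ← dl_win T (by linarith) (by linarith)]
    exact h3 _ a1 a2
  obtain ⟨m, hm, hm2⟩ := id hg
  have hsz := sz_ge m (g.1.s m)
  have hpos := hm.2.2.1
  have hle := hm.2.2.2.1
  rcases hpos.eq_or_lt with h0 | h0
  · -- the piece `0`
    have hG := isG_piece hm (k := 1) (by omega) (by omega)
    have hon : on i T (bk m g.1.s (g.1.s m) 1) := by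
      refine ⟨m, hG, Or.inl ?_⟩
      rw [bk_n1, bk_n]; omega
    set g' : PI i := ⟨⟨_⟩, hon.V⟩ with hg'
    have hc : g ⋖ g' := cov_PI hm hG (fun j hj => (bk_ag j hj).symm) (by
      show bk _ _ _ _ _ = _
      rw [bk_n1]; omega)
    have e3 := (SY i).b_eq_a hc
    have e4 := (SY i).a_lt_b g'
    rw [e2] at e3
    rw [← e3] at e4
    have hvr' := hk hvr
    set s := (ka v + min ((SY i).b g') (ka r)) / 2 with hs
    have hmin : ka v < min ((SY i).b g') (ka r) := lt_min e4 hvr'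
    have hs1 : ka v < s := by linarith
    have hs2 : s < (SY i).b g' := by
      have := min_le_left ((SY i).b g') (ka r); linarith
    have hs3 : s < ka r := by
      have := min_le_right ((SY i).b g') (ka r); linarith
    have a1 : v < (s + 5) / 32 := hk.lt_iff_lt.1 (by rw [hka]; exact hs1)
    have a2 : (s + 5) / 32 < r := hk.lt_iff_lt.1 (by rw [hka]; exact hs3)
    have h4 := h2 ((s + 5) / 32) a1.le a2.le
    rw [dl_win T (by linarith) (by linarith), hka] at h4
    exact (DT_ne_iff i T s).2 ⟨g', hon, by rw [← e3]; exact hs1, hs2⟩ h4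
  · have hG := isG_piece hm (k := g.1.s (m + 1) - 1) (by omega) (by omega)
    have hon : on i T (bk m g.1.s (g.1.s m) (g.1.s (m + 1) - 1)) := by
      refine on_piece hm (by omega) ?_ (by omega)
      have := (on_iff hm).1 hg
      omega
    set g' : PI i := ⟨⟨_⟩, hon.V⟩ with hg'
    have hc : g' ⋖ g := cov_PI hG hm (fun j hj => bk_ag j hj) (by
      show _ = bk _ _ _ _ _ + 1
      rw [bk_n1]; omega)
    have e3 := (SY i).b_eq_a hc
    have e4 := (SY i).a_lt_b g'
    rw [e1] at e3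
    rw [e3] at e4
    have hvr' := hk hlu
    set s := (ka u + max ((SY i).a g') (ka l)) / 2 with hs
    have hmin : max ((SY i).a g') (ka l) < ka u := max_lt e4 hvr'
    have hs1 : s < ka u := by linarith
    have hs2 : (SY i).a g' < s := by
      have := le_max_left ((SY i).a g') (ka l); linarith
    have hs3 : ka l < s := by
      have := le_max_right ((SY i).a g') (ka l); linarith
    have a1 : (s + 5) / 32 < u := hk.lt_iff_lt.1 (by rw [hka]; exact hs1)
    have a2 : l < (s + 5) / 32 := hk.lt_iff_lt.1 (by rw [hka]; exact hs3)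
    have h4 := h1 ((s + 5) / 32) a2.le a1.le
    rw [dl_win T (by linarith) (by linarith), hka] at h4
    exact (DT_ne_iff i T s).2 ⟨g', hon, hs2, by rw [e3]; exact hs1⟩ h4

end

/-! ### From the zeros to the indices -/

section

variable {i j : ZMod 2} {T : List ℕ → Bool}

/-- an index as an element of `PI` -/
def toPI (g : On i T) : PI i := ⟨g.1, g.2.V⟩

theorem exists_img {Θ : ℝ ≃o ℝ} (hΘ : ∀ s, DT i T s = 0 ↔ DT j T (Θ s) = 0) (g : On i T) :
    ∃ g' : On j T, (SY j).a (toPI g') = Θ ((SY i).a (toPI g)) ∧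
      (SY j).b (toPI g') = Θ ((SY i).b (toPI g)) := by
  obtain ⟨g', h1, h2, h3⟩ := gap_eq (i := j) (T := T) (u := Θ ((SY i).a (toPI g)))
    (v := Θ ((SY i).b (toPI g))) (Θ.strictMono ((SY i).a_lt_b _))
    ((hΘ _).1 (DT_zero_a T _)) ((hΘ _).1 (DT_zero_b T _)) (fun s hs1 hs2 => by
      have e := hΘ (Θ.symm s)
      rw [OrderIso.apply_symm_apply] at e
      rw [Ne, ← e]
      refine (DT_ne_iff i T _).2 ⟨toPI g, g.2, ?_, ?_⟩
      · rw [← Θ.lt_iff_lt, OrderIso.apply_symm_apply]; exact hs1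
      · rw [← Θ.lt_iff_lt, OrderIso.apply_symm_apply]; exact hs2)
  exact ⟨⟨g'.1, h1⟩, h2, h3⟩

theorem toPI_lt {g g' : On i T} : (SY i).a (toPI g) < (SY i).a (toPI g') ↔ g < g' :=
  (SY i).a_strictMono.lt_iff_lt

theorem exists_phi {Θ : ℝ ≃o ℝ} (hΘ : ∀ s, DT i T s = 0 ↔ DT j T (Θ s) = 0) :
    ∃ φ : On i T ≃o On j T, ∀ g, (SY j).a (toPI (φ g)) = Θ ((SY i).a (toPI g)) ∧
      (SY j).b (toPI (φ g)) = Θ ((SY i).b (toPI g)) := by
  choose f hf using exists_img hΘ
  have hm : StrictMono f := by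
    intro g g' hgg'
    rw [← toPI_lt, (hf g).1, (hf g').1]
    exact Θ.strictMono (toPI_lt.2 hgg')
  have hs : Function.Surjective f := by
    intro g'
    obtain ⟨g, hg, -⟩ := exists_img (i := j) (j := i) (T := T) (Θ := Θ.symm) (fun s => by
      rw [hΘ, OrderIso.apply_symm_apply]) g'
    refine ⟨g, ?_⟩
    have h1 := (hf g).1
    rw [hg, OrderIso.apply_symm_apply] at h1
    have h2 := (SY j).a_strictMono.injective h1
    apply Subtype.ext
    have h3 : (toPI (f g)).1 = (toPI g').1 := congrArg Subtype.val h2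
    exact h3
  exact ⟨hm.orderIsoOfSurjective f hs, hf⟩

theorem exists_cut {Θ : ℝ ≃o ℝ} (hΘ : ∀ s, DT i T s = 0 ↔ DT j T (Θ s) = 0)
    (φ : On i T ≃o On j T) (hφ : ∀ g, (SY j).a (toPI (φ g)) = Θ ((SY i).a (toPI g)) ∧
      (SY j).b (toPI (φ g)) = Θ ((SY i).b (toPI g))) (z : Q) (hz : V i z.s)
    (hoff : ¬ on i T z.s) : ∃ z' : Q, V j z'.s ∧ ¬ on j T z'.s ∧
    ∀ g : On i T, g.1 < z ↔ (φ g).1 < z' := by
  set Z : PI i := ⟨z, hz⟩ with hZ
  -- elements on both sides
  have hu : ∀ m < 0, z.s m % 2 = 0 := fun m hm => absurd hm (Nat.not_lt_zero m)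
  obtain ⟨c1, hc1, hc1'⟩ : ∃ c : ℤ, c % 2 = 1 ∧ c < z.s 0 :=
    ⟨-(2 * |z.s 0| + 1), by omega, by
      have := neg_abs_le (z.s 0); have := abs_nonneg (z.s 0); omega⟩
  obtain ⟨c2, hc2, hc2'⟩ : ∃ c : ℤ, c % 2 = 1 ∧ z.s 0 < c :=
    ⟨2 * |z.s 0| + 1, by omega, by
      have := le_abs_self (z.s 0); have := abs_nonneg (z.s 0); omega⟩
  set g1 := bo i T 0 z.s c1 hu hc1 with hg1
  set g2 := bo i T 0 z.s c2 hu hc2 with hg2
  have hl1 : toPI g1 < Z := by
    show g1.1 < z
    refine Q.lt_iff.2 ⟨0, fun m hm => absurd hm (Nat.not_lt_zero m), ?_⟩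
    rw [hg1, bo_n]; exact hc1'
  have hl2 : Z < toPI g2 := by
    show z < g2.1
    refine Q.lt_iff.2 ⟨0, fun m hm => absurd hm (Nat.not_lt_zero m), ?_⟩
    rw [hg2, bo_n]; exact hc2'
  have k1 : 1 / 4 ≤ Θ ((SY i).a Z) := by
    have e1 := Θ.monotone ((SY i).b_le_a hl1)
    rw [← (hφ g1).2] at e1
    have e2 := (SY j).a_ge (toPI (φ g1))
    have e3 := (SY j).a_lt_b (toPI (φ g1))
    linarith
  have k2 : Θ ((SY i).b Z) ≤ 3 / 4 := by
    have e1 := Θ.monotone ((SY i).b_le_a hl2)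
    rw [← (hφ g2).1] at e1
    have e2 := (SY j).b_le (toPI (φ g2))
    have e3 := (SY j).a_lt_b (toPI (φ g2))
    linarith
  have k3 : Θ ((SY i).a Z) < Θ ((SY i).b Z) := Θ.strictMono ((SY i).a_lt_b Z)
  obtain ⟨Z', hz1, hz2⟩ := (SY j).dense k1 k3 k2
  have hoff' : ¬ on j T Z'.1.s := by
    intro hon
    have e4 := (SY j).a_lt_b Z'
    have hlt : max ((SY j).a Z') (Θ ((SY i).a Z)) < min ((SY j).b Z') (Θ ((SY i).b Z)) :=
      max_lt (lt_min e4 hz2) (lt_min hz1 k3)
    obtain ⟨s, hs1, hs2⟩ := exists_between hlt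
    have hs1' := max_lt_iff.1 hs1
    have hs2' := lt_min_iff.1 hs2
    have hne := (DT_ne_iff j T s).2 ⟨Z', hon, hs1'.1, hs2'.1⟩
    apply hne
    have e := hΘ (Θ.symm s)
    rw [OrderIso.apply_symm_apply] at e
    rw [← e]
    refine DT_off T (g := Z) hoff ?_ ?_
    · rw [← Θ.le_iff_le, OrderIso.apply_symm_apply]; exact hs1'.2.le
    · rw [← Θ.le_iff_le, OrderIso.apply_symm_apply]; exact hs2'.2.le
  refine ⟨Z'.1, Z'.2, hoff', fun g => ?_⟩
  constructor
  · intro hg
    have hgZ : toPI g < Z := hg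
    have e1 := Θ.monotone ((SY i).b_le_a hgZ)
    rw [← (hφ g).2] at e1
    by_contra hc
    have hc' : Z'.1 ≤ (φ g).1 := not_lt.1 hc
    rcases hc'.lt_or_eq with h | h
    · have h' : Z' < toPI (φ g) := h
      have e2 := (SY j).b_le_a h'
      have e3 := (SY j).a_lt_b (toPI (φ g))
      linarith
    · apply hoff'
      rw [h]
      exact (φ g).2
  · intro hg
    by_contra hc
    have hc' : z ≤ g.1 := not_lt.1 hc
    rcases hc'.lt_or_eq with h | h
    · have h' : Z < toPI g := h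
      have e1 := Θ.monotone ((SY i).b_le_a h')
      rw [← (hφ g).1] at e1
      have e2 : Z' < toPI (φ g) := (SY j).a_strictMono.lt_iff_lt.1 (by linarith)
      have e3 : Z'.1 < (φ g).1 := e2
      exact absurd hg (not_lt.2 e3.le)
    · apply hoff
      rw [h]
      exact g.2

theorem exists_iso {Θ : ℝ ≃o ℝ} (hΘ : ∀ s, DT i T s = 0 ↔ DT j T (Θ s) = 0) :
    Nonempty (Iso i j T) := by
  obtain ⟨φ, hφ⟩ := exists_phi hΘ
  refine ⟨⟨φ, exists_cut hΘ φ hφ, exists_cut (Θ := Θ.symm) (fun s => ?_) φ.symm fun g => ?_⟩⟩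
  · rw [hΘ, OrderIso.apply_symm_apply]
  · have h := hφ (φ.symm g)
    rw [OrderIso.apply_symm_apply] at h
    rw [h.1, h.2, OrderIso.symm_apply_apply, OrderIso.symm_apply_apply]
    exact ⟨rfl, rfl⟩

theorem iso_of_window {ψ : ℝ → ℝ} (hm : StrictMonoOn ψ (Icc (5 / 32) (3 / 16)))
    (hc : ContinuousOn ψ (Icc (5 / 32) (3 / 16))) (h5 : ψ (5 / 32) = 5 / 32)
    (h3 : ψ (3 / 16) = 3 / 16)
    (hz : ∀ t, 5 / 32 ≤ t → t ≤ 3 / 16 →
      ((dl i (pT i T)).f t = 0 ↔ (dl j (pT j T)).f (ψ t) = 0)) : Nonempty (Iso i j T) := by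
  -- the extension of `ψ`
  have hmem : ∀ t, t ∈ Icc (5 / 32 : ℝ) (3 / 16) → ψ t ∈ Icc (5 / 32 : ℝ) (3 / 16) := by
    intro t ht
    constructor
    · rw [← h5]; exact hm.monotoneOn ⟨le_rfl, by norm_num⟩ ht ht.1
    · rw [← h3]; exact hm.monotoneOn ht ⟨by norm_num, le_rfl⟩ ht.2
  set θ : ℝ → ℝ := fun s => if 0 ≤ s ∧ s ≤ 1 then ka (ψ ((s + 5) / 32)) else s with hθ
  have hin : ∀ s, 0 ≤ s → s ≤ 1 → θ s = ka (ψ ((s + 5) / 32)) := fun s h0 h1 => if_pos ⟨h0, h1⟩
  have hout : ∀ s, (s < 0 ∨ 1 < s) → θ s = s := fun s h => if_neg (by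
    rintro ⟨a, b⟩; rcases h with h | h <;> linarith)
  have hw : ∀ s : ℝ, 0 ≤ s → s ≤ 1 → (s + 5) / 32 ∈ Icc (5 / 32 : ℝ) (3 / 16) := fun s h0 h1 =>
    ⟨by linarith, by linarith⟩
  have hin' : ∀ s, 0 ≤ s → s ≤ 1 → 0 ≤ θ s ∧ θ s ≤ 1 := fun s h0 h1 => by
    rw [hin s h0 h1]
    have := hmem _ (hw s h0 h1)
    unfold ka
    constructor <;> linarith [this.1, this.2]
  have hθm : StrictMono θ := by
    intro s t hst
    by_cases hs : 0 ≤ s ∧ s ≤ 1
    · by_cases ht : 0 ≤ t ∧ t ≤ 1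
      · rw [hin s hs.1 hs.2, hin t ht.1 ht.2]
        have := hm (hw s hs.1 hs.2) (hw t ht.1 ht.2) (by linarith)
        unfold ka; linarith
      · have ht' : 1 < t := by
          by_contra h
          exact ht ⟨by linarith [hs.1], by linarith⟩
        rw [hout t (Or.inr ht')]
        exact (hin' s hs.1 hs.2).2.trans_lt ht'
    · by_cases ht : 0 ≤ t ∧ t ≤ 1
      · have hs' : s < 0 := by
          by_contra h
          exact hs ⟨by linarith, by linarith [ht.2]⟩
        rw [hout s (Or.inl hs')]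
        exact hs'.trans_le (hin' t ht.1 ht.2).1
      · have hs' : s < 0 ∨ 1 < s := by
          by_contra h
          push Not at h
          exact hs h
        have ht' : t < 0 ∨ 1 < t := by
          by_contra h
          push Not at h
          exact ht h
        rw [hout s hs', hout t ht']
        exact hst
  have hθs : Function.Surjective θ := by
    intro t
    by_cases ht : 0 ≤ t ∧ t ≤ 1
    · have himg := intermediate_value_Icc (show (5 / 32 : ℝ) ≤ 3 / 16 by norm_num) hc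
      rw [h5, h3] at himg
      obtain ⟨w, hw1, hw2⟩ := himg (hw t ht.1 ht.2)
      refine ⟨ka w, ?_⟩
      rw [hin (ka w) (by unfold ka; linarith [hw1.1]) (by unfold ka; linarith [hw1.2])]
      have e : (ka w + 5) / 32 = w := by unfold ka; ring
      rw [e, hw2]
      unfold ka; ring
    · exact ⟨t, hout t (by
        by_contra h
        push Not at h
        exact ht h)⟩
  refine exists_iso (Θ := hθm.orderIsoOfSurjective θ hθs) fun s => ?_
  show DT i T s = 0 ↔ DT j T (θ s) = 0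
  by_cases hs : 0 ≤ s ∧ s ≤ 1
  · have hws := hw s hs.1 hs.2
    have h := hz _ hws.1 hws.2
    rw [dl_win T hws.1 hws.2, dl_win T (hmem _ hws).1 (hmem _ hws).2] at h
    rw [hin s hs.1 hs.2, ← h]
    have : ka ((s + 5) / 32) = s := by unfold ka; ring
    rw [this]
  · have hs' : s < 0 ∨ 1 < s := by
      by_contra h
      push Not at h
      exact hs h
    rw [hout s hs']
    have key : ∀ k : ZMod 2, DT k T s = 0 := by
      intro k
      unfold DT
      rcases hs' with h | h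
      · exact (SY k).D_left _ (by linarith)
      · exact (SY k).D_right _ (by linarith)
    rw [key i, key j]

end

/-- a conjugacy gives a branch -/
theorem branch_of_conj {T : List ℕ → Bool}
    (h : TopConj (dF 0 (pT 0 T)).map (dF 1 (pT 1 T)).map) : T ∈ IF := by
  obtain ⟨H, hH⟩ := (conjF_iff 0 1 _ _).1 h
  obtain ⟨ψ, h1, h2, h3, h4, h5⟩ := exists_window hH (dl_J1 0 _) (dl_J1 1 _) (dl_J2 T)
  obtain ⟨I⟩ := iso_of_window h1 h2 h3 h4 h5
  exact mem_IF_of_iso I

end Pool.Agent.H50.AXA
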