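import Mathlib
import Pool.Agent.H50.AXA.Geo

/-!
# Changes of variables which match the heights of the bumps
-/

open Set Filter Topology
open scoped ContDiff

namespace Pool.Agent.H50.AXA

theorem Bp_symm (s : ℝ) : Bp (1 - s) = Bp s := by
  unfold Bp
  rw [sub_sub_cancel, mul_comm (expNegInvGlue (1 - s))]

theorem Bp_lt {s t : ℝ} (h0 : 0 ≤ s) (hst : s < t) (ht : t ≤ 1 / 2) : Bp s < Bp t := by
  rcases h0.eq_or_lt with h | h
  · rw [← h, Bp_zero_left le_rfl]
    exact Bp_pos (by linarith) (by linarith)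
  · have e : ∀ s : ℝ, 0 < s → s < 1 → Bp s = Real.exp (4 + -(1 / (s * (1 - s)))) := by
      intro s h0 h1
      unfold Bp expNegInvGlue
      rw [if_neg (not_le.2 h0), if_neg (by linarith), ← Real.exp_add, ← Real.exp_add]
      congr 2
      have : (1 - s) ≠ 0 := by linarith
      field_simp
      ring
    rw [e s h (by linarith), e t (by linarith) (by linarith), Real.exp_lt_exp]
    have h1 : 0 < s * (1 - s) := mul_pos h (by linarith)
    have h2 : s * (1 - s) < t * (1 - t) := by nlinarith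
    have h3 := one_div_lt_one_div_of_lt h1 h2
    linarith

/-- an increasing bijection of the line -/
noncomputable def bb (s : ℝ) : ℝ := min s 0 + Bp (max 0 (min s (1 / 2))) + max (s - 1 / 2) 0

theorem bb_eq {s : ℝ} (h0 : 0 ≤ s) (h1 : s ≤ 1 / 2) : bb s = Bp s := by
  unfold bb
  rw [min_eq_right h0, min_eq_left h1, max_eq_right h0, max_eq_right (by linarith)]
  ring

theorem bb_continuous : Continuous bb := by
  unfold bb
  have h : Continuous Bp := Bp_contDiff.continuous
  have h2 : Continuous fun s : ℝ => Bp (max 0 (min s (1 / 2))) := h.comp (by fun_prop)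
  exact ((by fun_prop : Continuous fun s : ℝ => min s 0).add h2).add (by fun_prop)

theorem bb_strictMono : StrictMono bb := by
  intro s t hst
  unfold bb
  have m1 : min s 0 ≤ min t 0 := min_le_min hst.le le_rfl
  have m3 : max (s - 1 / 2) 0 ≤ max (t - 1 / 2) 0 := max_le_max (by linarith) le_rfl
  have key : ∀ u v : ℝ, 0 ≤ u → u ≤ v → v ≤ 1 / 2 → Bp u ≤ Bp v := by
    intro u v hu huv hv
    rcases huv.eq_or_lt with h | h
    · rw [h]
    · exact (Bp_lt hu h hv).le
  have m2 : Bp (max 0 (min s (1 / 2))) ≤ Bp (max 0 (min t (1 / 2))) := by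
    apply key
    · exact le_max_left _ _
    · exact max_le_max le_rfl (min_le_min hst.le le_rfl)
    · exact max_le (by norm_num) (min_le_right _ _)
  rcases lt_or_ge s 0 with hs | hs
  · have : min s 0 < min t 0 := by
      rw [min_eq_left hs.le]; exact lt_min hst hs
    linarith
  rcases lt_or_ge (1 / 2) t with ht | ht
  · have : max (s - 1 / 2) 0 < max (t - 1 / 2) 0 :=
      max_lt (lt_max_of_lt_left (by linarith)) (lt_max_of_lt_left (by linarith))
    linarith
  · rw [min_eq_left (by linarith : s ≤ 1 / 2), min_eq_left ht, max_eq_right hs,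
      max_eq_right (by linarith : 0 ≤ t)]
    have := Bp_lt hs hst ht
    linarith

theorem bb_surj : Function.Surjective bb := by
  refine bb_continuous.surjective ?_ ?_
  · refine tendsto_atTop_mono' (f₁ := fun s : ℝ => s - 1 / 2) _ ?_
      (tendsto_atTop_add_const_right _ _ tendsto_id)
    filter_upwards [eventually_ge_atTop 0] with s hs
    unfold bb
    rw [min_eq_right hs]
    have := Bp_nonneg (max 0 (min s (1 / 2)))
    have := le_max_left (s - 1 / 2) 0
    linarith
  · refine tendsto_atBot_mono' (f₁ := fun s : ℝ => s + 1) _ ?_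
      (tendsto_atBot_add_const_right _ _ tendsto_id)
    filter_upwards [eventually_le_atBot 0] with s hs
    unfold bb
    rw [min_eq_left hs]
    have := Bp_le_one (max 0 (min s (1 / 2)))
    have : max (s - 1 / 2) 0 = 0 := max_eq_right (by linarith)
    linarith

/-- `bb` as an isomorphism -/
noncomputable def bO : ℝ ≃o ℝ := bb_strictMono.orderIsoOfSurjective _ bb_surj

theorem bO_apply (s : ℝ) : bO s = bb s := rfl

/-- piecewise linear map of the values -/
noncomputable def kp (ρ v : ℝ) : ℝ := ρ * v + (2 - 2 * ρ) * max (v - 1 / 2) 0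

theorem kp_strictMono {ρ : ℝ} (h0 : 0 < ρ) (h2 : ρ < 2) : StrictMono (kp ρ) := by
  intro v w hvw
  unfold kp
  have m1 : max (v - 1 / 2) 0 ≤ max (w - 1 / 2) 0 := max_le_max (by linarith) le_rfl
  have m2 : max (w - 1 / 2) 0 ≤ max (v - 1 / 2) 0 + (w - v) := by
    apply max_le
    · have := le_max_left (v - 1 / 2) 0; linarith
    · have := le_max_right (v - 1 / 2) 0; linarith
  rcases le_total ρ 1 with h | h
  · nlinarith
  · nlinarith

theorem kp_continuous (ρ : ℝ) : Continuous (kp ρ) := by unfold kp; fun_prop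

/-- a change of variables -/
noncomputable def ga (ρ u : ℝ) : ℝ := bO.symm (kp ρ (bO u))

/-- a change of variables -/
noncomputable def bet (ρ u : ℝ) : ℝ := ga ρ (min u (1 / 2)) + 1 / 2 - ga ρ (1 - max u (1 / 2))

theorem ga_continuous (ρ : ℝ) : Continuous (ga ρ) :=
  bO.symm.continuous.comp ((kp_continuous ρ).comp bO.continuous)

theorem ga_strictMono {ρ : ℝ} (h0 : 0 < ρ) (h2 : ρ < 2) : StrictMono (ga ρ) :=
  bO.symm.strictMono.comp ((kp_strictMono h0 h2).comp bO.strictMono)

theorem bO_zero : bO 0 = 0 := by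
  rw [bO_apply, bb_eq le_rfl (by norm_num), Bp_zero_left le_rfl]

theorem bO_half : bO (1 / 2) = 1 := by
  rw [bO_apply, bb_eq (by norm_num) le_rfl, Bp_half]

theorem ga_zero (ρ : ℝ) : ga ρ 0 = 0 := by
  unfold ga
  rw [bO_zero, OrderIso.symm_apply_eq, bO_zero]
  unfold kp
  rw [max_eq_right (by norm_num)]
  ring

theorem ga_half (ρ : ℝ) : ga ρ (1 / 2) = 1 / 2 := by
  unfold ga
  rw [bO_half, OrderIso.symm_apply_eq, bO_half]
  unfold kp
  rw [max_eq_left (by norm_num)]
  ring

theorem Bp_ga {ρ : ℝ} (h0 : 0 < ρ) (h2 : ρ < 2) {u : ℝ} (hu : 0 ≤ u) (hu' : u ≤ 1 / 2) :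
    Bp (ga ρ u) = kp ρ (Bp u) := by
  have hm := (ga_strictMono h0 h2).monotone
  have g0 : 0 ≤ ga ρ u := by rw [← ga_zero ρ]; exact hm hu
  have g1 : ga ρ u ≤ 1 / 2 := by rw [← ga_half ρ]; exact hm hu'
  rw [← bb_eq g0 g1, ← bb_eq hu hu', ← bO_apply, ← bO_apply]
  unfold ga
  rw [OrderIso.apply_symm_apply]

theorem bet_low {ρ u : ℝ} (h : u ≤ 1 / 2) : bet ρ u = ga ρ u := by
  unfold bet
  rw [min_eq_left h, max_eq_right h, show (1:ℝ) - 1 / 2 = 1 / 2 by norm_num, ga_half]
  ring

theorem bet_high {ρ u : ℝ} (h : 1 / 2 ≤ u) : bet ρ u = 1 - ga ρ (1 - u) := by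
  unfold bet
  rw [min_eq_right h, max_eq_left h, ga_half]
  ring

theorem bet_continuous (ρ : ℝ) : Continuous (bet ρ) := by
  unfold bet
  have h := ga_continuous ρ
  have h1 : Continuous fun u : ℝ => ga ρ (min u (1 / 2)) := h.comp (by fun_prop)
  have h2 : Continuous fun u : ℝ => ga ρ (1 - max u (1 / 2)) := h.comp (by fun_prop)
  exact (h1.add continuous_const).sub h2

theorem bet_strictMono {ρ : ℝ} (h0 : 0 < ρ) (h2 : ρ < 2) : StrictMono (bet ρ) := by
  have hm := ga_strictMono h0 h2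
  intro u v huv
  unfold bet
  have m1 : ga ρ (min u (1 / 2)) ≤ ga ρ (min v (1 / 2)) := hm.monotone (min_le_min huv.le le_rfl)
  have m2 : ga ρ (1 - max v (1 / 2)) ≤ ga ρ (1 - max u (1 / 2)) :=
    hm.monotone (by have := max_le_max huv.le (le_refl (1 / 2 : ℝ)); linarith)
  rcases lt_or_ge u (1 / 2) with h | h
  · have : ga ρ (min u (1 / 2)) < ga ρ (min v (1 / 2)) := by
      apply hm
      rw [min_eq_left h.le]
      exact lt_min huv h
    linarith
  · have : ga ρ (1 - max v (1 / 2)) < ga ρ (1 - max u (1 / 2)) := by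
      apply hm
      rw [max_eq_left h, max_eq_left (by linarith : 1 / 2 ≤ v)]
      linarith
    linarith

theorem bet_zero (ρ : ℝ) : bet ρ 0 = 0 := by
  rw [bet_low (by norm_num), ga_zero]

theorem bet_one (ρ : ℝ) : bet ρ 1 = 1 := by
  rw [bet_high (by norm_num), sub_self, ga_zero, sub_zero]

theorem Bp_bet {ρ : ℝ} (h0 : 0 < ρ) (h2 : ρ < 2) {u : ℝ} (hu : 0 ≤ u) (hu' : u ≤ 1) :
    Bp (bet ρ u) = kp ρ (Bp u) := by
  rcases le_total u (1 / 2) with h | h
  · rw [bet_low h, Bp_ga h0 h2 hu h]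
  · rw [bet_high h, Bp_symm, Bp_ga h0 h2 (by linarith) (by linarith), Bp_symm]

/-- the comparison of the heights -/
theorem kp_sub {a a' v : ℝ} (ha' : a' ≠ 0) :
    a' * kp (a / a') v - a * v = 2 * (a' - a) * max (v - 1 / 2) 0 := by
  unfold kp
  field_simp
  ring

theorem max_le_half {v : ℝ} (h0 : 0 ≤ v) (h1 : v ≤ 1) : 2 * max (v - 1 / 2) 0 ≤ v := by
  have : max (v - 1 / 2) 0 ≤ v / 2 := max_le (by linarith) (by linarith)
  linarith

end Pool.Agent.H50.AXA
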