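import Mathlib
import Pool.Agent.H50.AXA.Rpm
import Pool.Agent.H50.AXA.TorF
import Pool.Agent.H50.AXA.Conj

/-!
# A branch gives a conjugacy
-/

open Set Filter Topology
open Pool.Agent.H39.NonBorel
open Pool.Agent.Helper114.AB
open Pool.Agent.H410R3.KS

namespace Pool.Agent.H50.AXA

section

variable {y : ℕ → ℕ} {T : List ℕ → Bool} (hy : ∀ n, T (res y n) = true) (i : ZMod 2)

open Classical in
/-- the ratio of the heights -/
noncomputable def rh (y : ℕ → ℕ) (x : ℕ → ℤ) : ℝ :=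
  if ∃ l, isG l x then Hg x / Hg (Fm y x) else 1

theorem rh_eq (y : ℕ → ℕ) {x : ℕ → ℤ} {l : ℕ} (h : isG l x) : rh y x = Hg x / Hg (Fm y x) := by
  unfold rh
  rw [if_pos ⟨l, h⟩]

theorem rh_bd (y : ℕ → ℕ) (x : ℕ → ℤ) : 0 < rh y x ∧ rh y x < 2 := by
  by_cases h : ∃ l, isG l x
  · obtain ⟨l, hl⟩ := h
    rw [rh_eq y hl]
    have h1 := Hg_pos x
    have h2 := Hg_pos (Fm y x)
    refine ⟨div_pos h1 h2, ?_⟩
    rw [div_lt_iff₀ h2]
    have h3 := (abs_le.1 (Hg_ratio hl y)).1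
    linarith
  · unfold rh
    rw [if_neg h]
    norm_num

/-- the changes of variables -/
noncomputable def bt (y : ℕ → ℕ) (i : ZMod 2) (g : PI i) : ℝ → ℝ := bet (rh y g.1.s)

theorem bt_rep (y : ℕ → ℕ) (i : ZMod 2) : Rep (bt y i) where
  cont g := bet_continuous _
  mono g := bet_strictMono (rh_bd y g.1.s).1 (rh_bd y g.1.s).2
  zero g := bet_zero _
  one g := bet_one _

/-- the map of the unit interval -/
noncomputable def h1 (y : ℕ → ℕ) (i : ZMod 2) : ℝ → ℝ := hh (SY i) (SY (i + 1)) (FO y i) (bt y i)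

/-- the map of the window -/
noncomputable def hw (y : ℕ → ℕ) (i : ZMod 2) (t : ℝ) : ℝ := (h1 y i (ka t) + 5) / 32

theorem ka_hw (y : ℕ → ℕ) (i : ZMod 2) (t : ℝ) : ka (hw y i t) = h1 y i (ka t) := by
  unfold hw ka; ring

include hy in
theorem D_cases (s : ℝ) :
    ((SY i).D (Ht i (pT i T)) s = 0 ∧
      (SY (i + 1)).D (Ht (i + 1) (pT (i + 1) T)) (h1 y i s) = 0) ∨
    ∃ (l : ℕ) (x : ℕ → ℤ) (v : ℝ), isG l x ∧ 0 ≤ v ∧ v ≤ 1 ∧
      (SY i).D (Ht i (pT i T)) s = Hg x * v ∧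
      (SY (i + 1)).D (Ht (i + 1) (pT (i + 1) T)) (h1 y i s) =
        Hg (Fm y x) * kp (Hg x / Hg (Fm y x)) v := by
  rcases (SY i).cases s with ⟨g, hg1, hg2⟩ | hno
  · have e1 := (SY i).D_of_mem (Ht i (pT i T)) hg1.le hg2.le
    have e2 := D_hh (SY i) (SY (i + 1)) (FO y i) (bt_rep y i) (Ht (i + 1) (pT (i + 1) T))
      hg1.le hg2.le
    have e2' : (SY (i + 1)).D (Ht (i + 1) (pT (i + 1) T)) (h1 y i s) = _ := e2
    rw [e2', e1]
    by_cases ho : on i T g.1.s
    · right
      obtain ⟨l, hl, -⟩ := ho.imp fun l h => h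
      have ho' : on (i + 1) T ((FO y i) g).1.s := by
        rw [FO_apply, on_Fm hy]; exact ho
      have q0 : 0 ≤ (s - (SY i).a g) / (SY i).l g := div_nonneg (by linarith) ((SY i).pos g).le
      have q1 : (s - (SY i).a g) / (SY i).l g ≤ 1 := by
        rw [div_le_one ((SY i).pos g)]; unfold Sys.b at hg2; linarith
      refine ⟨l, g.1.s, Bp ((s - (SY i).a g) / (SY i).l g), hl, Bp_nonneg _, Bp_le_one _, ?_, ?_⟩
      · rw [Ht_pT, if_pos ho]
      · rw [Ht_pT, if_pos ho', FO_apply]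
        have := Bp_bet (rh_bd y g.1.s).1 (rh_bd y g.1.s).2 q0 q1
        rw [← rh_eq y hl]
        unfold bt
        rw [this]
    · left
      have ho' : ¬ on (i + 1) T ((FO y i) g).1.s := by
        rw [FO_apply, on_Fm hy]; exact ho
      rw [Ht_pT, if_neg ho, Ht_pT, if_neg ho', zero_mul, zero_mul]
      exact ⟨rfl, rfl⟩
  · left
    exact ⟨(SY i).D_of_not _ hno,
      D_hh_not (SY i) (SY (i + 1)) (FO y i) (bt_rep y i) (Ht (i + 1) (pT (i + 1) T)) hno⟩

theorem h1_mem {s : ℝ} (h0 : 0 ≤ s) (h0' : s ≤ 1) : 0 ≤ h1 y i s ∧ h1 y i s ≤ 1 := by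
  have hm := (hh_strictMono (SY i) (SY (i + 1)) (FO y i) (bt_rep y i)).monotone
  have e0 : h1 y i 0 = 0 := hh_low _ _ _ (bt_rep y i) (by norm_num)
  have e1 : h1 y i 1 = 1 := hh_high _ _ _ (bt_rep y i) (by norm_num)
  constructor
  · rw [← e0]; exact hm h0
  · rw [← e1]; exact hm h0'

theorem hw_mem {t : ℝ} (h0 : 5 / 32 ≤ t) (h0' : t ≤ 3 / 16) :
    5 / 32 ≤ hw y i t ∧ hw y i t ≤ 3 / 16 := by
  have := h1_mem (y := y) i (s := ka t) (by unfold ka; linarith) (by unfold ka; linarith)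
  unfold hw
  constructor <;> linarith [this.1, this.2]

include hy in
theorem wdata : WData (dl i (pT i T)) (dl (i + 1) (pT (i + 1) T)) (hw y i) where
  cont := by
    have h : Continuous (h1 y i) := hh_continuous _ _ _ (bt_rep y i)
    have hk : Continuous ka := by unfold ka; fun_prop
    unfold hw
    exact ((h.comp hk).add continuous_const).div_const _
  mono := by
    intro s t hst
    have h : StrictMono (h1 y i) := hh_strictMono _ _ _ (bt_rep y i)
    have := h (show ka s < ka t by unfold ka; linarith)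
    unfold hw
    linarith
  low t ht := by
    have : h1 y i (ka t) = ka t := hh_low _ _ _ (bt_rep y i) (by unfold ka; linarith)
    unfold hw
    rw [this]
    unfold ka; ring
  high t ht := by
    have : h1 y i (ka t) = ka t := hh_high _ _ _ (bt_rep y i) (by unfold ka; linarith)
    unfold hw
    rw [this]
    unfold ka; ring
  out t h0 h1 h := by
    rw [dl_f, dl_f, dlf_out _ _ h0 h1 h, dlf_out _ _ h0 h1 h]
  bd t h0 h1 := by
    rw [dl_f, dlf_win _ _ h0 h1]
    exact Df_le _ _ _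
  ratio t h0 h1' := by
    have hm := hw_mem (y := y) i h0 h1'
    rw [dl_f, dl_f, dlf_win _ _ h0 h1', dlf_win _ _ hm.1 hm.2, ka_hw, Df_eq, Df_eq]
    rcases D_cases hy i (ka t) with ⟨e1, e2⟩ | ⟨l, x, v, hl, v0, v1, e1, e2⟩
    · rw [e1, e2]; norm_num
    · rw [e1, e2, kp_sub (Hg_pos _).ne']
      have hr := Hg_ratio hl y
      have hv := max_le_half v0 v1
      have hmax : 0 ≤ max (v - 1 / 2) 0 := le_max_right _ _
      rw [show 2 * (Hg (Fm y x) - Hg x) * max (v - 1 / 2) 0 =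
        (Hg (Fm y x) - Hg x) * (2 * max (v - 1 / 2) 0) by ring, abs_mul,
        abs_of_nonneg (show 0 ≤ 2 * max (v - 1 / 2) 0 by linarith)]
      calc |Hg (Fm y x) - Hg x| * (2 * max (v - 1 / 2) 0) ≤ (Hg x / 8) * v :=
            mul_le_mul hr hv (by linarith) (by have := Hg_pos x; linarith)
        _ = _ := by ring
  mod ε hε := by
    obtain ⟨r0, hr0, hr⟩ := Hg_mod hε
    refine ⟨r0 / 2, by linarith, fun t h0 h1' => ?_⟩
    have hm := hw_mem (y := y) i h0 h1'
    rw [dl_f, dl_f, dlf_win _ _ h0 h1', dlf_win _ _ hm.1 hm.2, ka_hw, Df_eq, Df_eq]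
    rcases D_cases hy i (ka t) with ⟨e1, e2⟩ | ⟨l, x, v, hl, v0, v1, e1, e2⟩
    · rw [e1, e2]; norm_num
    · rw [e1, e2, kp_sub (Hg_pos _).ne']
      intro hlt
      have hH := Hg_pos x
      rcases le_or_gt v (1 / 2) with hv2 | hv2
      · rw [max_eq_right (by linarith), mul_zero, abs_zero]
        have := mul_nonneg hH.le v0
        positivity
      · have hx : Hg x < r0 := by nlinarith
        have hr' := hr l x y hl hx
        have hv := max_le_half v0 v1
        have hmax : 0 ≤ max (v - 1 / 2) 0 := le_max_right _ _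
        rw [show 2 * (Hg (Fm y x) - Hg x) * max (v - 1 / 2) 0 =
          (Hg (Fm y x) - Hg x) * (2 * max (v - 1 / 2) 0) by ring, abs_mul,
          abs_of_nonneg (show 0 ≤ 2 * max (v - 1 / 2) 0 by linarith)]
        calc |Hg (Fm y x) - Hg x| * (2 * max (v - 1 / 2) 0) ≤ (ε * Hg x) * v :=
              mul_le_mul hr' hv (by linarith) (by positivity)
          _ = _ := by ring

include hy in
/-- a branch gives a conjugacy -/
theorem conj_of_branch : TopConj (dF i (pT i T)).map (dF (i + 1) (pT (i + 1) T)).map :=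
  (conjF_iff i (i + 1) _ _).2 (exists_conj (wdata hy i))

end

end Pool.Agent.H50.AXA
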