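import Mathlib
import Pool.Agent.H50.AXA.TorF

/-!
# The maps satisfy Axiom A
-/

open Set Filter Topology
open scoped Manifold ContDiff
open Pool.Agent.Helper114.AB
open Pool.Agent.H410R3.AX
open Pool.Agent.H410R3.KS

namespace Pool.Agent.H50.AXA

variable (i : ZMod 2)

/-- the lift -/
noncomputable def FL (p : PP) (w : ℝ × ℝ) : ℝ × ℝ := (G w.1, G w.2 + th (dl i p) w.1)

/-- the derivative of the diffeomorphism -/
noncomputable def DD (p : PP) (z : CC) : EE →L[ℝ] EE := mfderiv II II (dF i p).map z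

theorem dF_smooth (p : PP) : ContMDiff II II ∞ (dF i p).map := AF_smooth' i p

theorem dF_inv_smooth (p : PP) : ContMDiff II II ∞ (dF i p).inv := AF_symm_smooth i p

theorem dF_cov (p : PP) (w : ℝ × ℝ) : (dF i p).map (cov w) = cov (FL i p w) := by
  show EM (A (dl i p) (EM.symm (cov w))) = _
  rw [EM_symm_cov, A_coe]
  exact EM_cov (FL i p w)

theorem FL_contDiff (p : PP) : ContDiff ℝ ∞ (FL i p) := by
  have e3 : ContDiff ℝ ∞ (fun q : ℝ × ℝ => G q.1) := G_contDiff.comp contDiff_fst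
  have e4 : ContDiff ℝ ∞ (fun q : ℝ × ℝ => G q.2) := G_contDiff.comp contDiff_snd
  have e5 : ContDiff ℝ ∞ (fun q : ℝ × ℝ => th (dl i p) q.1) := (thF_contDiff' i p).comp contDiff_fst
  exact e3.prodMk (e4.add e5)

theorem DD_chain (p : PP) (w u : ℝ × ℝ) :
    DD i p (cov w) (PC w u) = PC (FL i p w) (fderiv ℝ (FL i p) w u) := by
  have hf : MDifferentiableAt II II (dF i p).map (cov w) :=
    ((dF_smooth i p).mdifferentiable (by simp)) _
  have hc : ∀ w, MDifferentiableAt 𝓘(ℝ, ℝ × ℝ) II cov w := cov_smooth.mdifferentiable (by simp)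
  have hF : MDifferentiableAt 𝓘(ℝ, ℝ × ℝ) 𝓘(ℝ, ℝ × ℝ) (FL i p) w :=
    ((FL_contDiff i p).differentiable (by simp) w).mdifferentiableAt
  have h1 := mfderiv_comp w hf (hc w)
  have h2 := mfderiv_comp w (hc (FL i p w)) hF
  have h3 : (dF i p).map ∘ cov = cov ∘ FL i p := funext (dF_cov i p)
  rw [h3, h2, mfderiv_eq_fderiv] at h1
  have h4 := congrArg (fun L => L u) h1
  exact h4.symm

theorem th_add_one (x : DL) (X : ℝ) : th x (X + 1) = th x X := by
  unfold th; rw [x.per]

theorem th_add_int (x : DL) (X : ℝ) (k : ℤ) : th x (X + k) = th x X := by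
  have hp : Function.Periodic (th x) 1 := th_add_one x
  have := hp.int_mul k X
  simpa using this

theorem th_zero_near (x : DL) {t : ℝ} (k : ℤ) (h : |t| < 9 / 64 ∨ |t - 1 / 2| < 1 / 4) :
    th x (t + k) = 0 := by
  rw [th_add_int]
  rcases h with h | h
  · rw [abs_lt] at h
    rcases le_total 0 t with h0 | h0
    · exact th_zero x h0 (by linarith [h.2]) (Or.inl h.2.le)
    · rw [← th_add_one]
      exact th_zero x (by linarith [h.1]) (by linarith) (Or.inr (by linarith [h.1]))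
  · rw [abs_lt] at h
    exact th_zero x (by linarith [h.1]) (by linarith [h.2]) (Or.inr (by linarith [h.1]))

theorem th_deriv (x : DL) {s : ℝ} (h : (s : T1) = 0 ∨ (s : T1) = hf) :
    HasDerivAt (th x) 0 s ∧ th x s = 0 := by
  have key : ∀ (t0 : ℝ) (k : ℤ), (∀ᶠ t in 𝓝 t0, |t| < 9 / 64 ∨ |t - 1 / 2| < 1 / 4) →
      HasDerivAt (th x) 0 (t0 + k) ∧ th x (t0 + k) = 0 := by
    intro t0 k ht
    refine ⟨?_, th_zero_near x k ht.self_of_nhds⟩
    refine (hasDerivAt_const (t0 + (k : ℝ)) (0 : ℝ)).congr_of_eventuallyEq ?_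
    have h1 : Tendsto (fun s : ℝ => s - k) (𝓝 (t0 + k)) (𝓝 t0) := by
      have : Continuous fun s : ℝ => s - k := by fun_prop
      have h2 := this.tendsto (t0 + k)
      simpa using h2
    filter_upwards [h1.eventually ht] with s hs
    have := th_zero_near x k hs
    simpa using this
  rcases h with h | h
  · obtain ⟨k, rfl⟩ := int_of_zero h
    have := key 0 k (by
      have hc : Continuous fun t : ℝ => |t| := continuous_abs
      have := hc.continuousAt.eventually (gt_mem_nhds (show |(0:ℝ)| < 9 / 64 by norm_num))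
      filter_upwards [this] with t ht
      exact Or.inl ht)
    simpa using this
  · obtain ⟨k, rfl⟩ := int_of_half h
    exact key (1 / 2) k (by
      have hc : Continuous fun t : ℝ => |t - 1 / 2| := by fun_prop
      have := hc.continuousAt.eventually (gt_mem_nhds (show |(1 / 2:ℝ) - 1 / 2| < 1 / 4 by norm_num))
      filter_upwards [this] with t ht
      exact Or.inr ht)

theorem dF_nw (p : PP) : nonwandering (dF i p).map = {z | (dF i p).map z = z} := by
  refine nw_of_lyap (L := fun z => LL (EM.symm z)) ?_ ?_ ?_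
  · exact (AF_smooth' i p).continuous
  · exact LL_continuous.comp EM.symm.continuous
  · intro z hz
    have e : EM.symm ((dF i p).map z) = A (dl i p) (EM.symm z) := by
      show EM.symm (EM (A (dl i p) (EM.symm z))) = _
      rw [EM.symm_apply_apply]
    rw [e]
    apply LL_lt
    intro hF
    apply hz
    apply EM.symm.injective
    rw [e, A_fix _ hF]

theorem dF_fix_iff (p : PP) (z : CC) : (dF i p).map z = z ↔ EM.symm z ∈ Fx := by
  rw [← A_fix_iff (dl i p)]
  show EM (A (dl i p) (EM.symm z)) = z ↔ _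
  rw [← Homeomorph.eq_symm_apply]

theorem DD_diag (p : PP) {z : CC} (hz : (dF i p).map z = z) :
    ∃ a b : ℝ, (a = lm ∨ a = mu) ∧ (b = lm ∨ b = mu) ∧
      ∀ u : ℝ × ℝ, DD i p z (PC (sec z z) u) = PC (sec z z) (a * u.1, b * u.2) := by
  set w := sec z z with hw
  have hcw : cov w = z := cov_sec z z
  have hF : EM.symm z ∈ Fx := (dF_fix_iff i p z).1 hz
  rw [← hcw, EM_symm_cov] at hF
  obtain ⟨h1, h2⟩ := hF
  simp only at h1 h2
  obtain ⟨g1, a, ha, da⟩ := G_at h1
  obtain ⟨g2, b, hb, db⟩ := G_at h2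
  obtain ⟨d0, t0⟩ := th_deriv (dl i p) h1
  refine ⟨a, b, ha, hb, fun u => ?_⟩
  have hfix : FL i p w = w := by
    unfold FL
    rw [g1, g2, t0, add_zero]
  have hd : HasFDerivAt (FL i p) ((a • ContinuousLinearMap.fst ℝ ℝ ℝ).prod
      (b • ContinuousLinearMap.snd ℝ ℝ ℝ + (0 : ℝ) • ContinuousLinearMap.fst ℝ ℝ ℝ)) w := by
    have e1 : HasFDerivAt (fun q : ℝ × ℝ => G q.1) (a • ContinuousLinearMap.fst ℝ ℝ ℝ) w :=
      da.comp_hasFDerivAt w hasFDerivAt_fst
    have e2 : HasFDerivAt (fun q : ℝ × ℝ => G q.2) (b • ContinuousLinearMap.snd ℝ ℝ ℝ) w :=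
      db.comp_hasFDerivAt w hasFDerivAt_snd
    have e3 : HasFDerivAt (fun q : ℝ × ℝ => th (dl i p) q.1)
        ((0:ℝ) • ContinuousLinearMap.fst ℝ ℝ ℝ) w :=
      d0.comp_hasFDerivAt w hasFDerivAt_fst
    exact e1.prodMk (e2.add e3)
  have h3 := DD_chain i p w u
  rw [hcw, hfix, hd.fderiv] at h3
  rw [h3]
  congr 1
  ext <;> simp

theorem DD_quad (p : PP) {z : CC} (hz : (dF i p).map z = z) (v : EE) :
    DD i p z (DD i p z v) = (lm + mu) • DD i p z v - (lm * mu) • v := by
  obtain ⟨a, b, ha, hb, h⟩ := DD_diag i p hz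
  obtain ⟨u, hu⟩ : ∃ u : ℝ × ℝ, PC (sec z z) u = v := cov_surj z v
  rw [← hu, h, h, ← map_smul, ← map_smul, ← map_sub]
  congr 1
  refine Prod.ext ?_ ?_
  · simp only [Prod.fst_sub, Prod.smul_fst, smul_eq_mul]
    rcases ha with rfl | rfl <;> ring
  · simp only [Prod.snd_sub, Prod.smul_snd, smul_eq_mul]
    rcases hb with rfl | rfl <;> ring

/-- eigenspaces -/
noncomputable def eig (p : PP) (c : ℝ) (z : CC) : Submodule ℝ (TangentSpace II z) :=
  eigE (V := EE) (DD i p z).toLinearMap c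

theorem mem_eig (p : PP) (c : ℝ) (z : CC) (v : EE)
    (h : v ∈ eigE (V := EE) (DD i p z).toLinearMap c) :
    DD i p z v = c • v := (mem_eigE _ c v).1 h

theorem eig_compl (p : PP) {z : CC} (hz : (dF i p).map z = z) :
    IsCompl (eig i p lm z) (eig i p mu z) :=
  eigE_compl (V := EE) (D := (DD i p z).toLinearMap) mu_sub (DD_quad i p hz)

theorem eig_map (p : PP) {z : CC} (hz : (dF i p).map z = z) {c : ℝ} (hc : c ≠ 0) :
    (eig i p c z).map (mfderiv II II (dF i p).map z).toLinearMap = eig i p c ((dF i p).map z) := by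
  have h1 : (eigE (V := EE) (DD i p z).toLinearMap c).map (DD i p z).toLinearMap =
      eigE (V := EE) (DD i p ((dF i p).map z)).toLinearMap c := by
    rw [hz]
    exact eigE_map _ hc
  exact h1

theorem tan_map (p : PP) {z : CC} (hz : (dF i p).map z = z) (v : EE) :
    tangentMap II II (dF i p).map ⟨z, v⟩ = ⟨z, DD i p z v⟩ :=
  mk_eq' hz (DD i p z v)

theorem tan_inv (p : PP) {z : CC} (hz : (dF i p).map z = z) {c : ℝ} (hc : c ≠ 0) {v : EE}
    (hv : DD i p z v = c • v) :
    tangentMap II II (dF i p).inv ⟨z, v⟩ = ⟨z, c⁻¹ • v⟩ := by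
  have h1 : DD i p z (c⁻¹ • v) = v := by
    rw [map_smul, hv, smul_smul, inv_mul_cancel₀ hc, one_smul]
  have h2 := tan_map i p hz (c⁻¹ • v)
  rw [h1] at h2
  rw [← h2]
  have hf : MDifferentiable II II (dF i p).map := (dF_smooth i p).mdifferentiable (by simp)
  have hg : MDifferentiable II II (dF i p).inv := (dF_inv_smooth i p).mdifferentiable (by simp)
  have h3 := tangentMap_comp (I := II) (I' := II) (I'' := II) hg hf
  have h4 : (dF i p).inv ∘ (dF i p).map = id := by
    funext q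
    exact Equiv.symm_apply_apply _ q
  rw [h4, tangentMap_id] at h3
  exact (congrFun h3 _).symm

theorem hyp_s (p : PP) {z : CC} (hz' : (dF i p).map z = z) (v : EE)
    (hv : v ∈ eigE (V := EE) (DD i p z).toLinearMap lm) (n : ℕ) :
    tN (tangentMap II II ((dF i p).map^[n]) ⟨z, v⟩) ≤ 1 * (3 / 5) ^ n * tN ⟨z, v⟩ := by
  have hv' := mem_eig i p lm z v hv
  have h1 := tan_iter (dF i p).map ((dF_smooth i p).mdifferentiable (by simp)) z lm v (by
    intro a
    rw [tan_map i p hz', map_smul, hv', smul_smul, mul_comm lm a]) n 1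
  rw [one_smul, mul_one] at h1
  have h2 := tN_isNorm.smul z (lm ^ n) v
  have h3 : tN (tangentMap II II ((dF i p).map^[n]) ⟨z, v⟩) = |lm ^ n| * tN ⟨z, v⟩ := by
    rw [h1]; exact h2
  rw [h3, one_mul, abs_of_nonneg (pow_nonneg lm_pos.le n)]
  exact mul_le_mul_of_nonneg_right (pow_le_pow_left₀ lm_pos.le lm_lt.le n)
    (norm_nonneg (E := ℂ × ℂ) _)

theorem hyp_u (p : PP) {z : CC} (hz' : (dF i p).map z = z) (v : EE)
    (hv : v ∈ eigE (V := EE) (DD i p z).toLinearMap mu) (n : ℕ) :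
    tN (tangentMap II II ((dF i p).inv^[n]) ⟨z, v⟩) ≤ 1 * (3 / 5) ^ n * tN ⟨z, v⟩ := by
  have hv' := mem_eig i p mu z v hv
  have h1 := tan_iter (dF i p).inv ((dF_inv_smooth i p).mdifferentiable (by simp)) z mu⁻¹ v (by
    intro a
    rw [tan_inv i p hz' mu_pos.ne' (v := a • v) (by rw [map_smul, hv', smul_comm]), smul_smul]) n 1
  rw [one_smul, mul_one] at h1
  have h2 := tN_isNorm.smul z (mu⁻¹ ^ n) v
  have h3 : tN (tangentMap II II ((dF i p).inv^[n]) ⟨z, v⟩) = |mu⁻¹ ^ n| * tN ⟨z, v⟩ := by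
    rw [h1]; exact h2
  have hm : 0 ≤ mu⁻¹ := (inv_pos.2 mu_pos).le
  rw [h3, one_mul, abs_of_nonneg (pow_nonneg hm n)]
  exact mul_le_mul_of_nonneg_right (pow_le_pow_left₀ hm mu_inv.le n)
    (norm_nonneg (E := ℂ × ℂ) _)

theorem dF_hyp (p : PP) : IsHyperbolicSet II (dF i p) (nonwandering (dF i p).map) := by
  rw [dF_nw]
  refine ⟨?_, ?_, tN, eig i p lm, eig i p mu, 1, 3 / 5, tN_isNorm, one_pos, by norm_num,
    by norm_num, ?_⟩
  · have : {z | (dF i p).map z = z} = EM.symm ⁻¹' Fx := by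
      ext z; exact dF_fix_iff i p z
    rw [this]
    exact (Fx_finite.preimage EM.symm.injective.injOn).isCompact
  · ext z
    constructor
    · rintro ⟨u, hu, rfl⟩
      have hu' : (dF i p).map u = u := hu
      show (dF i p).map ((dF i p).map u) = (dF i p).map u
      rw [hu']
      exact hu'
    · intro hz
      exact ⟨z, hz, hz⟩
  · intro z hz
    have hz' : (dF i p).map z = z := hz
    refine ⟨eig_compl i p hz', eig_map i p hz' lm_pos.ne', eig_map i p hz' mu_pos.ne', ?_, ?_⟩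
    · intro v hv n
      exact hyp_s i p hz' v hv n
    · intro v hv n
      exact hyp_u i p hz' v hv n

theorem dF_axiomA (p : PP) : AxiomA II (dF i p) where
  hyperbolic := dF_hyp i p
  dense := by
    rw [dF_nw]
    intro z hz
    apply subset_closure
    exact ⟨1, one_pos, hz⟩

end Pool.Agent.H50.AXA
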