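import Mathlib
import Pool.Agent.H50.AXA.Fw
import Pool.Agent.H50.AXA.Bw
import Pool.Agent.H50.AXA.HypF

/-!
# The reduction
-/

open Set Filter Topology MeasureTheory
open Pool.Agent.H39.NonBorel
open Pool.Agent.H410R3.KS (DiffR DiffR.map crTopology TopConj II CC)
open Pool.Agent.H410R3.AX (AxiomA)

namespace Pool.Agent.H50.AXA

/-- analytic sets reduce to the set of the trees with an infinite branch -/
theorem exists_tree (S : Set (ℕ → ℕ)) (hS : AnalyticSet S) :
    ∃ Φ : (ℕ → ℕ) → (List ℕ → Bool), Continuous Φ ∧ ∀ x, x ∈ S ↔ Φ x ∈ IF := by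
  classical
  rcases (show S = ∅ ∨ ∃ f : (ℕ → ℕ) → (ℕ → ℕ), Continuous f ∧ range f = S by
    rw [AnalyticSet] at hS; exact hS) with h | ⟨f, hf, h⟩
  · refine ⟨fun _ _ => false, continuous_const, fun x => ?_⟩
    rw [h]
    constructor
    · intro hx; exact absurd hx (notMem_empty x)
    · rintro ⟨y, hy⟩
      exact absurd (hy 0) (by simp)
  · let Φ : (ℕ → ℕ) → List ℕ → Bool := fun x t =>
      decide (∃ y : ℕ → ℕ, res y t.length = t ∧ res (f y) t.length = res x t.length)
    refine ⟨Φ, ?_, fun x => ?_⟩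
    · refine continuous_pi fun t => IsLocallyConstant.continuous ?_
      rw [IsLocallyConstant.iff_eventually_eq]
      intro x
      have h1 : ∀ᶠ x' in 𝓝 x, ∀ i ∈ Finset.range t.length, x' i = x i :=
        (eventually_all_finset _).2 fun i _ => ev_eq (continuous_apply i) x
      filter_upwards [h1] with x' h2
      simp only [Φ]
      rw [res_eq_iff.2 fun i hi => h2 i (Finset.mem_range.2 hi)]
    · rw [← h]
      constructor
      · rintro ⟨y, rfl⟩
        refine ⟨y, fun n => ?_⟩
        simp only [Φ, length_res, decide_eq_true_eq]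
        exact ⟨y, rfl, rfl⟩
      · rintro ⟨y, hy⟩
        simp only [Φ, length_res, decide_eq_true_eq] at hy
        choose y' hy1 hy2 using hy
        refine ⟨y, ?_⟩
        have h2 := (hf.tendsto y).comp (tendsto_of_res hy1)
        have h3 := tendsto_of_res (y := fun n => f (y' n)) hy2
        exact tendsto_nhds_unique h2 h3

/-- the pair of diffeomorphisms attached to a tree -/
noncomputable def pr (T : List ℕ → Bool) : DiffR II CC ⊤ × DiffR II CC ⊤ :=
  (dF 0 (pT 0 T), dF 1 (pT 1 T))

theorem pr_continuous : @Continuous _ _ _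
    (@instTopologicalSpaceProd _ _ (crTopology II CC ⊤) (crTopology II CC ⊤)) pr := by
  let _ : TopologicalSpace (DiffR II CC ⊤) := crTopology II CC ⊤
  have h0 : Continuous (dF 0) := dF_continuous 0
  have h1 : Continuous (dF 1) := dF_continuous 1
  exact (h0.comp (pT_continuous 0)).prodMk (h1.comp (pT_continuous 1))

theorem pr_axiomA (T : List ℕ → Bool) : AxiomA II (pr T).1 ∧ AxiomA II (pr T).2 :=
  ⟨dF_axiomA 0 _, dF_axiomA 1 _⟩

theorem pr_iff (T : List ℕ → Bool) : TopConj (pr T).1.map (pr T).2.map ↔ T ∈ IF := by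
  constructor
  · exact branch_of_conj
  · rintro ⟨y, hy⟩
    exact conj_of_branch hy 0

end Pool.Agent.H50.AXA
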